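import Mathlib
import Pool.Agent.Lib.MP_1a3405_co.Lower

/-!
Counting neighbours in the box `{1..n}^d`, and the notion of a pair of slow percolating
structures (`Side`, `Good`, `IsPair`), used for the order of magnitude of `M([n]^d, r)`.
-/

namespace Pool.Agent.Lib.MP_1a3405_co.Ord

open Pool.Agent.Lib.MP_1a3405_co

variable {d n : ℕ}

open Classical in
/-- The number of neighbours of `p` in the box `{1..n}^d` which satisfy `Q`. -/
noncomputable def cnt (n : ℕ) {d : ℕ} (Q : (Fin d → ℤ) → Prop) (p : Fin d → ℤ) : ℕ :=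
  ∑ i : Fin d, ∑ b : Bool, if InBox n (nb p (i, b)) ∧ Q (nb p (i, b)) then 1 else 0

open Classical in
lemma cnt_eq_card (Q : (Fin d → ℤ) → Prop) (p : Fin d → ℤ) :
    cnt n Q p = (Finset.univ.filter
      fun δ : Fin d × Bool => InBox n (nb p δ) ∧ Q (nb p δ)).card := by
  rw [cnt, Finset.card_filter, Fintype.sum_prod_type]

lemma cnt_eq_ncard (Q : (Fin d → ℤ) → Prop) (p : Fin d → ℤ) :
    cnt n Q p = {δ : Fin d × Bool | InBox n (nb p δ) ∧ Q (nb p δ)}.ncard := by
  classical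
  rw [cnt_eq_card, ← Set.ncard_coe_finset]
  congr 1
  ext δ
  simp

lemma cnt_mono {Q Q' : (Fin d → ℤ) → Prop} {p : Fin d → ℤ}
    (h : ∀ δ, InBox n (nb p δ) → Q (nb p δ) → Q' (nb p δ)) : cnt n Q p ≤ cnt n Q' p := by
  classical
  rw [cnt_eq_card, cnt_eq_card]
  apply Finset.card_le_card
  intro δ hδ
  simp only [Finset.mem_filter, Finset.mem_univ, true_and] at hδ ⊢
  exact ⟨hδ.1, h δ hδ.1 hδ.2⟩

lemma cnt_congr {Q Q' : (Fin d → ℤ) → Prop} {p : Fin d → ℤ}
    (h : ∀ δ, InBox n (nb p δ) → (Q (nb p δ) ↔ Q' (nb p δ))) : cnt n Q p = cnt n Q' p :=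
  le_antisymm (cnt_mono fun δ hb hq => (h δ hb).1 hq) (cnt_mono fun δ hb hq => (h δ hb).2 hq)

/-- Upper bound: all relevant directions lie in a given finite set. -/
lemma cnt_le_of_subset {Q : (Fin d → ℤ) → Prop} {p : Fin d → ℤ} (S : Finset (Fin d × Bool))
    (h : ∀ δ, InBox n (nb p δ) → Q (nb p δ) → δ ∈ S) : cnt n Q p ≤ S.card := by
  classical
  rw [cnt_eq_card]
  apply Finset.card_le_card
  intro δ hδ
  simp only [Finset.mem_filter, Finset.mem_univ, true_and] at hδ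
  exact h δ hδ.1 hδ.2

/-- Lower bound: a given finite set of directions. -/
lemma le_cnt_of_subset {Q : (Fin d → ℤ) → Prop} {p : Fin d → ℤ} (S : Finset (Fin d × Bool))
    (h : ∀ δ ∈ S, InBox n (nb p δ) ∧ Q (nb p δ)) : S.card ≤ cnt n Q p := by
  classical
  rw [cnt_eq_card]
  apply Finset.card_le_card
  intro δ hδ
  simp only [Finset.mem_filter, Finset.mem_univ, true_and]
  exact h δ hδ

lemma cnt_or_le (Q Q' : (Fin d → ℤ) → Prop) (p : Fin d → ℤ) :
    cnt n (fun q => Q q ∨ Q' q) p ≤ cnt n Q p + cnt n Q' p := by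
  classical
  rw [cnt_eq_card, cnt_eq_card, cnt_eq_card]
  refine le_trans (Finset.card_le_card ?_) (Finset.card_union_le _ _)
  intro δ hδ
  simp only [Finset.mem_filter, Finset.mem_univ, true_and, Finset.mem_union] at hδ ⊢
  tauto

lemma cnt_or_of_disjoint {Q Q' : (Fin d → ℤ) → Prop} {p : Fin d → ℤ}
    (h : ∀ δ, InBox n (nb p δ) → Q (nb p δ) → ¬ Q' (nb p δ)) :
    cnt n (fun q => Q q ∨ Q' q) p = cnt n Q p + cnt n Q' p := by
  classical
  rw [cnt_eq_card, cnt_eq_card, cnt_eq_card, ← Finset.card_union_of_disjoint]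
  · congr 1
    ext δ
    simp only [Finset.mem_filter, Finset.mem_univ, true_and, Finset.mem_union]
    tauto
  · rw [Finset.disjoint_left]
    intro δ hδ hδ'
    simp only [Finset.mem_filter, Finset.mem_univ, true_and] at hδ hδ'
    exact h δ hδ.1 hδ.2 hδ'.2

lemma cnt_eq_zero {Q : (Fin d → ℤ) → Prop} {p : Fin d → ℤ}
    (h : ∀ δ, InBox n (nb p δ) → ¬ Q (nb p δ)) : cnt n Q p = 0 := by
  have := cnt_le_of_subset (n := n) (Q := Q) (p := p) ∅ (fun δ hb hq => absurd hq (h δ hb))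
  simpa using this

lemma nb_cons_zero (z : ℤ) (q : Fin d → ℤ) (b : Bool) :
    nb (Fin.cons z q : Fin (d + 1) → ℤ) (0, b) = Fin.cons (z + if b then 1 else -1) q := by
  funext j
  refine Fin.cases ?_ (fun j => ?_) j
  · simp [nb]
  · simp [nb]

lemma nb_cons_succ (z : ℤ) (q : Fin d → ℤ) (i : Fin d) (b : Bool) :
    nb (Fin.cons z q : Fin (d + 1) → ℤ) (i.succ, b) = Fin.cons z (nb q (i, b)) := by
  funext j
  refine Fin.cases ?_ (fun j => ?_) j
  · have h' : (0 : Fin (d + 1)) ≠ i.succ := (Fin.succ_ne_zero i).symm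
    simp [nb, Function.update_of_ne h']
  · by_cases h : j = i
    · subst h; simp [nb]
    · have h' : j.succ ≠ i.succ := fun e => h (Fin.succ_injective _ e)
      simp [nb, Function.update_of_ne h, Function.update_of_ne h']

lemma inBox_cons (z : ℤ) (q : Fin d → ℤ) :
    InBox n (Fin.cons z q : Fin (d + 1) → ℤ) ↔ (1 ≤ z ∧ z ≤ n) ∧ InBox n q := by
  constructor
  · intro h
    exact ⟨by simpa using h 0, fun i => by simpa using h i.succ⟩
  · rintro ⟨h1, h2⟩ i
    refine Fin.cases ?_ (fun i => ?_) i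
    · simpa using h1
    · simpa using h2 i

open Classical in
/-- Splitting off the first coordinate. -/
lemma cnt_cons {z : ℤ} {q : Fin d → ℤ} (hz : 1 ≤ z ∧ z ≤ n) (hq : InBox n q)
    (Q : (Fin (d + 1) → ℤ) → Prop) :
    cnt n Q (Fin.cons z q) =
      (if z + 1 ≤ n ∧ Q (Fin.cons (z + 1) q) then 1 else 0) +
      (if 1 ≤ z - 1 ∧ Q (Fin.cons (z - 1) q) then 1 else 0) +
      cnt n (fun q' => Q (Fin.cons z q')) q := by
  have e1 : (InBox n (Fin.cons (z + 1) q : Fin (d + 1) → ℤ) ∧ Q (Fin.cons (z + 1) q)) ↔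
      (z + 1 ≤ n ∧ Q (Fin.cons (z + 1) q)) := by
    rw [inBox_cons]
    constructor
    · rintro ⟨⟨h1, -⟩, h2⟩; exact ⟨h1.2, h2⟩
    · rintro ⟨h1, h2⟩; exact ⟨⟨⟨by omega, h1⟩, hq⟩, h2⟩
  have e2 : (InBox n (Fin.cons (z - 1) q : Fin (d + 1) → ℤ) ∧ Q (Fin.cons (z - 1) q)) ↔
      (1 ≤ z - 1 ∧ Q (Fin.cons (z - 1) q)) := by
    rw [inBox_cons]
    constructor
    · rintro ⟨⟨h1, -⟩, h2⟩; exact ⟨h1.1, h2⟩
    · rintro ⟨h1, h2⟩; exact ⟨⟨⟨h1, by omega⟩, hq⟩, h2⟩
  have e3 : ∀ q' : Fin d → ℤ, (InBox n (Fin.cons z q' : Fin (d + 1) → ℤ) ∧ Q (Fin.cons z q')) ↔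
      (InBox n q' ∧ Q (Fin.cons z q')) := by
    intro q'
    rw [inBox_cons]
    tauto
  simp only [cnt, Fin.sum_univ_succ, Fintype.sum_bool, nb_cons_zero, nb_cons_succ, if_true,
    Bool.false_eq_true, if_false]
  rw [show z + -1 = z - 1 by ring]
  simp only [e1, e2, e3]

/-- A structure in the box: an initial set `T`, a lower bound `τ` for the infection times, and a
start point `w`. -/
structure Side (d : ℕ) where
  /-- the initially infected points -/
  T : (Fin d → ℤ) → Prop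
  /-- lower bounds for the infection times -/
  τ : (Fin d → ℤ) → ℤ
  /-- the start point -/
  w : Fin d → ℤ

/-- The structure `X` percolates with threshold `θ`, its times are certified by local conditions,
and the point `w'` is infected late (at time at least `s`). -/
structure Good (n : ℕ) {d : ℕ} (θ : ℕ) (s : ℤ) (X : Side d) (w' : Fin d → ℤ) : Prop where
  box_w : InBox n X.w
  not_w : ¬ X.T X.w
  tau_w : X.τ X.w = 1
  box_w' : InBox n w'
  not_w' : ¬ X.T w'
  tau_w' : s ≤ X.τ w'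
  range : ∀ p, InBox n p → ¬ X.T p → 1 ≤ X.τ p ∧ X.τ p ≤ s + 1
  star : ∀ p, InBox n p → ¬ X.T p → p ≠ X.w →
    cnt n (fun q => X.T q ∨ X.τ q + 2 ≤ X.τ p) p < θ
  star_w : cnt n (fun q => X.T q ∨ X.τ q + 2 ≤ X.τ X.w) X.w ≤ θ
  perc : ∀ U : (Fin d → ℤ) → Prop,
    (∀ p, U p → InBox n p ∧ ¬ X.T p ∧ cnt n (fun q => ¬ U q) p < θ) → ∀ p, ¬ U p

/-- A pair of structures, each of which infects the start point of the other one late. -/
def IsPair (n : ℕ) {d : ℕ} (θ : ℕ) (s : ℤ) (X Y : Side d) : Prop :=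
  Good n θ s X Y.w ∧ Good n θ s Y X.w

end Pool.Agent.Lib.MP_1a3405_co.Ord
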