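import Mathlib
import Pool.Agent.Lib.MP_1a3405_co.Ord.Defs

/-!
A good structure gives a lower bound for the maximum percolation time.
-/

namespace Pool.Agent.Lib.MP_1a3405_co.Ord

open Pool.Agent.Lib.MP_1a3405_co Set

variable {d n : ℕ}

theorem Good.le_max {θ : ℕ} {s : ℤ} {X : Side d} {w' : Fin d → ℤ} (h : Good n θ s X w') :
    s ≤ (maxPercTime (grid d n) θ : ℤ) := by
  set A₀ : Set (Fin d → Fin n) := {v | X.T (co v)} with hA₀
  set G := grid d n with hG
  -- claim 1
  have c1 : ∀ t : ℕ, ∀ v, v ∈ infected G θ A₀ t → ¬ X.T (co v) → X.τ (co v) ≤ t := by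
    intro t
    induction t with
    | zero => intro v hv hC; exact absurd hv hC
    | succ t ih =>
      intro v hv hC
      rcases hv with hv | hv
      · have := ih v hv hC
        push_cast
        omega
      · by_contra hcon
        push Not at hcon
        push_cast at hcon
        have hne : co v ≠ X.w := by
          intro he
          rw [he, h.tau_w] at hcon
          omega
        have h3 := h.star (co v) (inBox_co v) hC hne
        rw [cnt_eq_ncard, ← ncard_nbrs v (fun q => X.T q ∨ X.τ q + 2 ≤ X.τ (co v))] at h3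
        have h4 : (G.neighborSet v ∩ infected G θ A₀ t).ncard ≤
            ((grid d n).neighborSet v ∩
              {u | X.T (co u) ∨ X.τ (co u) + 2 ≤ X.τ (co v)}).ncard := by
          apply Set.ncard_le_ncard _ (Set.toFinite _)
          rintro u ⟨hu1, hu2⟩
          refine ⟨hu1, ?_⟩
          by_cases hCu : X.T (co u)
          · left; exact hCu
          · right
            have := ih u hu2 hCu
            omega
        have h5 : θ ≤ (G.neighborSet v ∩ infected G θ A₀ t).ncard := hv
        omega
  -- claim 2
  have hperc : Percolates G θ A₀ := by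
    have hall : ∀ v, ∃ t, v ∈ infected G θ A₀ t := by
      have key := h.perc (fun p => InBox n p ∧ ¬ X.T p ∧
        ∀ v : Fin d → Fin n, co v = p → ∀ t, v ∉ infected G θ A₀ t) ?_
      · intro v
        by_contra hcon
        push Not at hcon
        apply key (co v)
        refine ⟨inBox_co v, ?_, ?_⟩
        · intro hT
          exact hcon 0 hT
        · intro v' hv' t
          rw [co_injective hv']
          exact hcon t
      · rintro p ⟨hp, hT, hU⟩
        refine ⟨hp, hT, ?_⟩
        obtain ⟨v, rfl⟩ := exists_co hp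
        by_contra hcon
        rw [not_lt] at hcon
        rw [cnt_eq_ncard, ← ncard_nbrs v (fun q => ¬ (InBox n q ∧ ¬ X.T q ∧
          ∀ v : Fin d → Fin n, co v = q → ∀ t, v ∉ infected G θ A₀ t))] at hcon
        have h3 : ∀ u : Fin d → Fin n, ∃ t, (¬ (InBox n (co u) ∧ ¬ X.T (co u) ∧
            ∀ v : Fin d → Fin n, co v = co u → ∀ t, v ∉ infected G θ A₀ t)) →
            u ∈ infected G θ A₀ t := by
          intro u
          by_cases hu : ∃ t, u ∈ infected G θ A₀ t
          · obtain ⟨t, ht⟩ := hu
            exact ⟨t, fun _ => ht⟩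
          · push Not at hu
            refine ⟨0, fun hcon2 => absurd ?_ hcon2⟩
            refine ⟨inBox_co u, fun hT => hu 0 hT, ?_⟩
            intro v' hv' t
            rw [co_injective hv']
            exact hu t
        choose T hTT using h3
        obtain ⟨M, hM⟩ := (Set.finite_range T).bddAbove
        apply hU v rfl (M + 1)
        right
        refine le_trans hcon (Set.ncard_le_ncard ?_ (Set.toFinite _))
        rintro u ⟨hu1, hu2⟩
        exact ⟨hu1, infected_mono (hM ⟨u, rfl⟩) (hTT u hu2)⟩
    choose T hTT using hall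
    obtain ⟨M, hM⟩ := (Set.finite_range T).bddAbove
    refine ⟨M, ?_⟩
    rw [Set.eq_univ_iff_forall]
    intro v
    exact infected_mono (hM ⟨v, rfl⟩) (hTT v)
  obtain ⟨v₀, hv₀⟩ := exists_co h.box_w'
  have h6 : v₀ ∈ infected G θ A₀ (percTime G θ A₀) := by
    rw [infected_percTime hperc]; trivial
  have h7 := c1 _ v₀ h6 (by rw [hv₀]; exact h.not_w')
  rw [hv₀] at h7
  have h8 := percTime_le_max hperc
  have h9 : ((percTime G θ A₀ : ℕ) : ℤ) ≤ ((maxPercTime G θ : ℕ) : ℤ) := by exact_mod_cast h8
  have h10 := h.tau_w'
  omega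

end Pool.Agent.Lib.MP_1a3405_co.Ord
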