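import Mathlib
import Pool.Agent.Lib.MP_1a3405_co.Ord.Defs

/-!
The boustrophedon order: a Hamiltonian path of the grid `{1..M}^(g+1)`, `M` even.
-/

namespace Pool.Agent.Lib.MP_1a3405_co.Ord

open Pool.Agent.Lib.MP_1a3405_co

/-- the boustrophedon order -/
def ham (M : ℕ) : (g : ℕ) → (Fin (g + 1) → ℤ) → ℤ
  | 0, c => c 0 - 1
  | g + 1, c => (c 0 - 1) * (M : ℤ) ^ (g + 1) +
      (if c 0 % 2 = 1 then ham M g (Fin.tail c) else (M : ℤ) ^ (g + 1) - 1 - ham M g (Fin.tail c))

lemma ham_cons (M g : ℕ) (z : ℤ) (q : Fin (g + 1) → ℤ) :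
    ham M (g + 1) (Fin.cons z q) = (z - 1) * (M : ℤ) ^ (g + 1) +
      (if z % 2 = 1 then ham M g q else (M : ℤ) ^ (g + 1) - 1 - ham M g q) := by
  rw [ham, Fin.cons_zero, Fin.tail_cons]

theorem ham_range (M : ℕ) (hM : 2 ≤ M) (g : ℕ) (c : Fin (g + 1) → ℤ) (hc : InBox M c) :
    0 ≤ ham M g c ∧ ham M g c < (M : ℤ) ^ (g + 1) := by
  induction g with
  | zero =>
    have := hc 0
    simp only [ham, zero_add, pow_one]
    constructor <;> omega
  | succ g ih =>
    obtain ⟨z, q, rfl⟩ : ∃ z q, c = Fin.cons z q := ⟨c 0, Fin.tail c, (Fin.cons_self_tail c).symm⟩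
    rw [inBox_cons] at hc
    have hq := ih q hc.2
    rw [ham_cons]
    set B : ℤ := (M : ℤ) ^ (g + 1) with hB
    have h1 : (M : ℤ) ^ (g + 1 + 1) = (M : ℤ) * B := by rw [hB]; ring
    have h2 : 0 ≤ (z - 1) * B := mul_nonneg (by omega) (by omega)
    have h3 : (z - 1) * B ≤ ((M : ℤ) - 1) * B :=
      mul_le_mul_of_nonneg_right (by omega) (by omega)
    have h4 : (M : ℤ) * B = ((M : ℤ) - 1) * B + B := by ring
    rw [h1]
    split_ifs <;> constructor <;> omega

/-- the position in the level -/
lemma ham_succ_level (M g : ℕ) (z : ℤ) (q : Fin (g + 1) → ℤ) :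
    ham M (g + 1) (Fin.cons (z + 1) q) =
      (z - 1) * (M : ℤ) ^ (g + 1) + 2 * (M : ℤ) ^ (g + 1) - 1 -
        (if z % 2 = 1 then ham M g q else (M : ℤ) ^ (g + 1) - 1 - ham M g q) := by
  rw [ham_cons]
  have : (z + 1 - 1) * (M : ℤ) ^ (g + 1) = (z - 1) * (M : ℤ) ^ (g + 1) + (M : ℤ) ^ (g + 1) := by
    ring
  rw [this]
  rcases Int.emod_two_eq_zero_or_one z with h | h
  · rw [if_pos (by omega), if_neg (by omega)]; ring
  · rw [if_neg (by omega), if_pos h]; ring

lemma ham_pred_level (M g : ℕ) (z : ℤ) (q : Fin (g + 1) → ℤ) :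
    ham M (g + 1) (Fin.cons (z - 1) q) =
      (z - 1) * (M : ℤ) ^ (g + 1) - 1 -
        (if z % 2 = 1 then ham M g q else (M : ℤ) ^ (g + 1) - 1 - ham M g q) := by
  rw [ham_cons]
  have : (z - 1 - 1) * (M : ℤ) ^ (g + 1) = (z - 1) * (M : ℤ) ^ (g + 1) - (M : ℤ) ^ (g + 1) := by
    ring
  rw [this]
  rcases Int.emod_two_eq_zero_or_one z with h | h
  · rw [if_pos (by omega), if_neg (by omega)]; ring
  · rw [if_neg (by omega), if_pos h]; ring

theorem ham_succ_pred (M : ℕ) (hM : 2 ≤ M) (g : ℕ) :
    (∀ c : Fin (g + 1) → ℤ, InBox M c → ham M g c + 1 < (M : ℤ) ^ (g + 1) →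
      cnt M (fun q => ham M g q = ham M g c + 1) c = 1) ∧
    (∀ c : Fin (g + 1) → ℤ, InBox M c → 0 < ham M g c →
      cnt M (fun q => ham M g q = ham M g c - 1) c = 1) := by
  classical
  induction g with
  | zero =>
    have hz : ∀ (Q : (Fin 0 → ℤ) → Prop) (p : Fin 0 → ℤ), cnt M Q p = 0 := by
      intro Q p; simp [cnt]
    constructor
    · intro c hc h
      obtain ⟨z, q, rfl⟩ : ∃ z q, c = Fin.cons z q :=
        ⟨c 0, Fin.tail c, (Fin.cons_self_tail c).symm⟩
      rw [inBox_cons] at hc
      simp only [ham, Fin.cons_zero, zero_add, pow_one] at h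
      rw [cnt_cons hc.1 hc.2, hz, if_pos, if_neg]
      · rintro ⟨-, h2⟩
        simp only [ham, Fin.cons_zero] at h2
        omega
      · refine ⟨by omega, ?_⟩
        simp only [ham, Fin.cons_zero]; ring
    · intro c hc h
      obtain ⟨z, q, rfl⟩ : ∃ z q, c = Fin.cons z q :=
        ⟨c 0, Fin.tail c, (Fin.cons_self_tail c).symm⟩
      rw [inBox_cons] at hc
      simp only [ham, Fin.cons_zero] at h
      rw [cnt_cons hc.1 hc.2, hz, if_neg, if_pos]
      · refine ⟨by omega, ?_⟩
        simp only [ham, Fin.cons_zero]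
      · rintro ⟨-, h2⟩
        simp only [ham, Fin.cons_zero] at h2
        omega
  | succ g ih =>
    obtain ⟨ihs, ihp⟩ := ih
    -- the in-level counts
    have hsame : ∀ (z : ℤ) (q : Fin (g + 1) → ℤ) (k : ℤ), z % 2 = 1 →
        cnt M (fun q' => ham M (g + 1) (Fin.cons z q') = ham M (g + 1) (Fin.cons z q) + k) q =
        cnt M (fun q' => ham M g q' = ham M g q + k) q := by
      intro z q k hz
      apply cnt_congr
      intro δ _
      rw [ham_cons, ham_cons, if_pos hz, if_pos hz]
      constructor <;> intro h <;> omega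
    have hflip : ∀ (z : ℤ) (q : Fin (g + 1) → ℤ) (k : ℤ), z % 2 = 0 →
        cnt M (fun q' => ham M (g + 1) (Fin.cons z q') = ham M (g + 1) (Fin.cons z q) + k) q =
        cnt M (fun q' => ham M g q' = ham M g q - k) q := by
      intro z q k hz
      apply cnt_congr
      intro δ _
      rw [ham_cons, ham_cons, if_neg (by omega), if_neg (by omega)]
      constructor <;> intro h <;> omega
    have hout : ∀ (q : Fin (g + 1) → ℤ) (k : ℤ), InBox M q →
        (k < 0 ∨ (M : ℤ) ^ (g + 1) ≤ k) →
        cnt M (fun q' => ham M g q' = k) q = 0 := by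
      intro q k hq hk
      apply cnt_eq_zero
      intro δ hδ h
      have := ham_range M hM g _ hδ
      omega
    constructor
    · intro c hc h
      obtain ⟨z, q, rfl⟩ : ∃ z q, c = Fin.cons z q :=
        ⟨c 0, Fin.tail c, (Fin.cons_self_tail c).symm⟩
      rw [inBox_cons] at hc
      have hr := ham_range M hM g q hc.2
      rw [cnt_cons hc.1 hc.2]
      have hd : ¬ (1 ≤ z - 1 ∧ ham M (g + 1) (Fin.cons (z - 1) q) =
          ham M (g + 1) (Fin.cons z q) + 1) := by
        rintro ⟨-, h2⟩
        rw [ham_pred_level, ham_cons] at h2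
        split_ifs at h2 <;> omega
      rw [if_neg hd]
      rcases Int.emod_two_eq_zero_or_one z with hz | hz
      · rw [hflip z q 1 hz]
        by_cases h0 : 0 < ham M g q
        · rw [ihp q hc.2 h0, if_neg]
          rintro ⟨-, h2⟩
          rw [ham_succ_level, ham_cons, if_neg (by omega)] at h2
          omega
        · rw [hout q _ hc.2 (by omega), if_pos]
          refine ⟨?_, ?_⟩
          · by_contra hcon
            have hzM : z = M := by omega
            rw [ham_cons, if_neg (by omega), hzM] at h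
            have e : (M : ℤ) ^ (g + 1 + 1) = ((M : ℤ) - 1) * (M : ℤ) ^ (g + 1) +
                (M : ℤ) ^ (g + 1) := by ring
            omega
          · rw [ham_succ_level, ham_cons, if_neg (by omega)]
            omega
      · rw [hsame z q 1 hz]
        by_cases h0 : ham M g q + 1 < (M : ℤ) ^ (g + 1)
        · rw [ihs q hc.2 h0, if_neg]
          rintro ⟨-, h2⟩
          rw [ham_succ_level, ham_cons, if_pos hz] at h2
          omega
        · rw [hout q _ hc.2 (by omega), if_pos]
          refine ⟨?_, ?_⟩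
          · by_contra hcon
            have hzM : z = M := by omega
            rw [ham_cons, if_pos hz, hzM] at h
            have e : (M : ℤ) ^ (g + 1 + 1) = ((M : ℤ) - 1) * (M : ℤ) ^ (g + 1) +
                (M : ℤ) ^ (g + 1) := by ring
            omega
          · rw [ham_succ_level, ham_cons, if_pos hz]
            omega
    · intro c hc h
      obtain ⟨z, q, rfl⟩ : ∃ z q, c = Fin.cons z q :=
        ⟨c 0, Fin.tail c, (Fin.cons_self_tail c).symm⟩
      rw [inBox_cons] at hc
      have hr := ham_range M hM g q hc.2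
      rw [cnt_cons hc.1 hc.2]
      have hd : ¬ (z + 1 ≤ M ∧ ham M (g + 1) (Fin.cons (z + 1) q) =
          ham M (g + 1) (Fin.cons z q) - 1) := by
        rintro ⟨-, h2⟩
        rw [ham_succ_level, ham_cons] at h2
        split_ifs at h2 <;> omega
      rw [if_neg hd]
      have esub : (fun q' => ham M (g + 1) (Fin.cons z q') = ham M (g + 1) (Fin.cons z q) - 1) =
          (fun q' => ham M (g + 1) (Fin.cons z q') =
            ham M (g + 1) (Fin.cons z q) + (-1)) := rfl
      rw [esub]
      rcases Int.emod_two_eq_zero_or_one z with hz | hz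
      · rw [hflip z q (-1) hz]
        rw [show ham M g q - -1 = ham M g q + 1 by ring]
        by_cases h0 : ham M g q + 1 < (M : ℤ) ^ (g + 1)
        · rw [ihs q hc.2 h0, if_neg]
          rintro ⟨-, h2⟩
          rw [ham_pred_level, ham_cons, if_neg (by omega)] at h2
          omega
        · rw [hout q _ hc.2 (by omega), if_pos]
          refine ⟨by omega, ?_⟩
          rw [ham_pred_level, ham_cons, if_neg (by omega)]
          omega
      · rw [hsame z q (-1) hz]
        rw [show ham M g q + -1 = ham M g q - 1 by ring]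
        by_cases h0 : 0 < ham M g q
        · rw [ihp q hc.2 h0, if_neg]
          rintro ⟨-, h2⟩
          rw [ham_pred_level, ham_cons, if_pos hz] at h2
          omega
        · rw [hout q _ hc.2 (by omega), if_pos]
          refine ⟨?_, ?_⟩
          · by_contra hcon
            have hz1 : z = 1 := by omega
            rw [ham_cons, if_pos hz, hz1] at h
            have e : ((1 : ℤ) - 1) * (M : ℤ) ^ (g + 1) = 0 := by ring
            omega
          · rw [ham_pred_level, ham_cons, if_pos hz]
            omega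

theorem ham_zero (M : ℕ) (hM : 2 ≤ M) (g : ℕ) (c : Fin (g + 1) → ℤ) (hc : InBox M c) :
    ham M g c = 0 ↔ c = fun _ => 1 := by
  induction g with
  | zero =>
    simp only [ham]
    constructor
    · intro h
      funext i
      have : i = 0 := Fin.eq_zero i
      rw [this]
      omega
    · intro h
      rw [h]; norm_num
  | succ g ih =>
    obtain ⟨z, q, rfl⟩ : ∃ z q, c = Fin.cons z q := ⟨c 0, Fin.tail c, (Fin.cons_self_tail c).symm⟩
    rw [inBox_cons] at hc
    have hr := ham_range M hM g q hc.2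
    have hq := ih q hc.2
    constructor
    · intro h
      rw [ham_cons] at h
      have hz : z = 1 := by
        by_contra hcon
        have h3 : 1 * (M : ℤ) ^ (g + 1) ≤ (z - 1) * (M : ℤ) ^ (g + 1) :=
          mul_le_mul_of_nonneg_right (by omega) (by omega)
        split_ifs at h <;> omega
      subst hz
      rw [if_pos (by norm_num)] at h
      have : ham M g q = 0 := by
        have e : ((1 : ℤ) - 1) * (M : ℤ) ^ (g + 1) = 0 := by ring
        omega
      rw [hq.1 this]
      funext i
      refine Fin.cases rfl (fun i => rfl) i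
    · intro h
      have hz : z = 1 := congrFun h 0
      have hq1 : q = fun _ => 1 := by
        funext i
        exact congrFun h i.succ
      rw [ham_cons, hz, if_pos (by norm_num), hq.2 hq1]
      ring

theorem ham_last (M : ℕ) (hM : 2 ≤ M) (hM2 : Even M) (g : ℕ) (c : Fin (g + 1) → ℤ)
    (hc : InBox M c) :
    ham M g c = (M : ℤ) ^ (g + 1) - 1 ↔ c = Fin.cons (M : ℤ) (fun _ => 1) := by
  have hM3 : (M : ℤ) % 2 = 0 := by
    obtain ⟨k, hk⟩ := hM2
    omega
  cases g with
  | zero =>
    simp only [ham, zero_add, pow_one]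
    constructor
    · intro h
      funext i
      have : i = 0 := Fin.eq_zero i
      rw [this, Fin.cons_zero]
      omega
    · intro h
      rw [h, Fin.cons_zero]
  | succ g =>
    obtain ⟨z, q, rfl⟩ : ∃ z q, c = Fin.cons z q := ⟨c 0, Fin.tail c, (Fin.cons_self_tail c).symm⟩
    rw [inBox_cons] at hc
    have hr := ham_range M hM g q hc.2
    have hq := ham_zero M hM g q hc.2
    have e : (M : ℤ) ^ (g + 1 + 1) = ((M : ℤ) - 1) * (M : ℤ) ^ (g + 1) +
        (M : ℤ) ^ (g + 1) := by ring
    constructor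
    · intro h
      rw [ham_cons] at h
      have hz : z = M := by
        by_contra hcon
        have h3 : (z - 1) * (M : ℤ) ^ (g + 1) ≤ ((M : ℤ) - 2) * (M : ℤ) ^ (g + 1) :=
          mul_le_mul_of_nonneg_right (by omega) (by omega)
        have e2 : ((M : ℤ) - 1) * (M : ℤ) ^ (g + 1) = ((M : ℤ) - 2) * (M : ℤ) ^ (g + 1) +
            (M : ℤ) ^ (g + 1) := by ring
        split_ifs at h <;> omega
      subst hz
      rw [if_neg (by omega)] at h
      have : ham M g q = 0 := by omega
      rw [hq.1 this]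
    · intro h
      have hz : z = M := congrFun h 0
      have hq1 : q = fun _ => 1 := by
        funext i
        exact congrFun h i.succ
      rw [ham_cons, hz, if_neg (by omega), hq.2 hq1]
      omega

theorem exists_ham (g M : ℕ) (hM : 2 ≤ M) (hM2 : Even M) :
    ∃ h : (Fin (g + 1) → ℤ) → ℤ,
      (∀ c, InBox M c → 0 ≤ h c ∧ h c < (M : ℤ) ^ (g + 1)) ∧
      (∀ c, InBox M c → h c + 1 < (M : ℤ) ^ (g + 1) →
        cnt M (fun q => h q = h c + 1) c = 1) ∧
      (∀ c, InBox M c → 0 < h c → cnt M (fun q => h q = h c - 1) c = 1) ∧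
      (∀ c, InBox M c → (h c = 0 ↔ c = fun _ => 1)) ∧
      (∀ c, InBox M c → (h c = (M : ℤ) ^ (g + 1) - 1 ↔ c = Fin.cons (M : ℤ) (fun _ => 1))) :=
  ⟨ham M g, ham_range M hM g, (ham_succ_pred M hM g).1, (ham_succ_pred M hM g).2,
    ham_zero M hM g, ham_last M hM hM2 g⟩

end Pool.Agent.Lib.MP_1a3405_co.Ord
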