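import Mathlib
import Pool.Agent.Lib.MP_1a3405_co.Ord.Defs

/-!
Transport of good structures by symmetries of the box.
-/

namespace Pool.Agent.Lib.MP_1a3405_co.Ord

open Pool.Agent.Lib.MP_1a3405_co

variable {d n : ℕ}

/-- transport of a structure by an involution of the box -/
def Side.map (R : (Fin d → ℤ) → (Fin d → ℤ)) (X : Side d) : Side d :=
  ⟨fun p => X.T (R p), fun p => X.τ (R p), R X.w⟩

theorem Good.map {θ : ℕ} {s : ℤ} {X : Side d} {w' : Fin d → ℤ}
    (R : (Fin d → ℤ) → (Fin d → ℤ)) (hR : ∀ p, R (R p) = p)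
    (hbox : ∀ p, InBox n p → InBox n (R p))
    (hcnt : ∀ Q p, InBox n p → cnt n (fun q => Q (R q)) p = cnt n Q (R p))
    (h : Good n θ s X w') : Good n θ s (X.map R) (R w') := by
  refine ⟨hbox _ h.box_w, ?_, ?_, hbox _ h.box_w', ?_, ?_, ?_, ?_, ?_, ?_⟩
  · simp only [Side.map, hR]; exact h.not_w
  · simp only [Side.map, hR]; exact h.tau_w
  · simp only [Side.map, hR]; exact h.not_w'
  · simp only [Side.map, hR]; exact h.tau_w'
  · intro p hp hT
    exact h.range (R p) (hbox p hp) hT
  · intro p hp hT hne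
    have h1 := h.star (R p) (hbox p hp) hT (fun he => hne (by
      simp only [Side.map]; rw [← he, hR]))
    rw [← hcnt _ p hp] at h1
    exact h1
  · have h1 := h.star_w
    have h2 := hcnt (fun q => X.T q ∨ X.τ q + 2 ≤ X.τ X.w) (R X.w) (hbox _ h.box_w)
    rw [hR] at h2
    simp only [Side.map, hR]
    rw [h2]
    exact h1
  · intro U hU
    have key := h.perc (fun p => U (R p)) ?_
    · intro p hp
      apply key (R p)
      rw [hR]; exact hp
    · intro p hp
      obtain ⟨h1, h2, h3⟩ := hU _ hp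
      have hb : InBox n p := by have := hbox _ h1; rwa [hR] at this
      refine ⟨hb, ?_, ?_⟩
      · have : ¬ X.T (R (R p)) := h2
        rwa [hR] at this
      · rw [hcnt (fun q => ¬ U q) p hb]
        exact h3

/-- reflection of the first coordinate -/
def refl0 (n : ℕ) (p : Fin (d + 1) → ℤ) : Fin (d + 1) → ℤ :=
  Fin.cons ((n : ℤ) + 1 - p 0) (Fin.tail p)

theorem refl0_refl0 (p : Fin (d + 1) → ℤ) : refl0 n (refl0 n p) = p := by
  simp only [refl0, Fin.cons_zero, Fin.tail_cons]
  rw [show (n : ℤ) + 1 - ((n : ℤ) + 1 - p 0) = p 0 by ring]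
  exact Fin.cons_self_tail p

theorem inBox_refl0 (p : Fin (d + 1) → ℤ) (h : InBox n p) : InBox n (refl0 n p) := by
  rw [refl0, inBox_cons]
  have h0 := h 0
  refine ⟨⟨by omega, by omega⟩, fun i => h i.succ⟩

theorem inBox_refl0_iff (p : Fin (d + 1) → ℤ) : InBox n (refl0 n p) ↔ InBox n p := by
  constructor
  · intro h
    have := inBox_refl0 _ h
    rwa [refl0_refl0] at this
  · exact inBox_refl0 p

theorem nb_refl0 (p : Fin (d + 1) → ℤ) (i : Fin (d + 1)) (b : Bool) :
    nb (refl0 n p) (i, b) = refl0 n (nb p (i, if i = 0 then !b else b)) := by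
  obtain ⟨z, q, rfl⟩ : ∃ z q, p = Fin.cons z q := ⟨p 0, Fin.tail p, (Fin.cons_self_tail p).symm⟩
  refine Fin.cases ?_ (fun i => ?_) i
  · simp only [refl0, if_true, nb_cons_zero, Fin.cons_zero, Fin.tail_cons]
    congr 1
    cases b
    · simp; ring
    · simp; ring
  · rw [if_neg (Fin.succ_ne_zero i)]
    simp only [refl0, nb_cons_succ, Fin.cons_zero, Fin.tail_cons]

theorem cnt_refl0 (Q : (Fin (d + 1) → ℤ) → Prop) (p : Fin (d + 1) → ℤ) :
    cnt n (fun q => Q (refl0 n q)) p = cnt n Q (refl0 n p) := by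
  classical
  rw [cnt, cnt]
  apply Finset.sum_congr rfl
  intro i _
  rw [Fintype.sum_bool, Fintype.sum_bool]
  simp only [nb_refl0, inBox_refl0_iff]
  by_cases hi : i = 0
  · simp only [hi, if_true, Bool.not_true, Bool.not_false]
    rw [add_comm]
  · simp only [hi, if_false]

theorem nb_perm (e : Equiv.Perm (Fin d)) (p : Fin d → ℤ) (i : Fin d) (b : Bool) :
    nb (fun i => p (e i)) (i, b) = fun j => nb p (e i, b) (e j) := by
  funext j
  by_cases h : j = i
  · subst h; simp [nb]
  · have h' : e j ≠ e i := fun he => h (e.injective he)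
    simp [nb, Function.update_of_ne h, Function.update_of_ne h']

theorem inBox_perm (e : Equiv.Perm (Fin d)) (p : Fin d → ℤ) :
    InBox n (fun i => p (e i)) ↔ InBox n p := by
  constructor
  · intro h i
    have := h (e.symm i)
    simpa using this
  · intro h i
    exact h (e i)

theorem cnt_perm (e : Equiv.Perm (Fin d)) (Q : (Fin d → ℤ) → Prop) (p : Fin d → ℤ) :
    cnt n (fun q => Q (fun i => q (e i))) p = cnt n Q (fun i => p (e i)) := by
  classical
  rw [cnt, cnt]
  simp only [nb_perm, inBox_perm]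
  exact (Equiv.sum_comp e (fun i => ∑ b : Bool,
    if InBox n (nb p (i, b)) ∧ Q (fun j => nb p (i, b) (e j)) then 1 else 0)).symm

end Pool.Agent.Lib.MP_1a3405_co.Ord
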