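import Mathlib
import Pool.Agent.Lib.MP_1a3405_co.Ord.Defs

/-!
The base structure for threshold `3` in dimension `f + 2 ≥ 4`: definitions.

A point is `(x, y, u)` with `u : Fin f → ℤ`. For each point `c` of `{1..M}^f` the plane
`u = 3c - 2` is a *sheet*: in it all points with `x ≤ n - 2` are initially infected except
the points of a wire (columns `x = 2, 4, …, 2J` joined at the ends). A Hamiltonian path `h` of
`{1..M}^f` gives the order of the sheets (the wire starts in the sheet with `h = M^f - 1` and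
ends in the sheet `c = (1,…,1)` with `h = 0`); consecutive sheets are joined by a passage of two
points at `y = 1`, `x = 2` or `x = 2J`. Each coordinate axis in `u`-direction through the sheet
`(1,…,1)` carries initially infected points at `y = n` (the spine).
In the layer `x = n` all points are infected and in the layer `x = n - 1` only one.
-/

namespace Pool.Agent.Lib.MP_1a3405_co.Ord

open Pool.Agent.Lib.MP_1a3405_co

/-- The parameters of the construction. -/
structure Par (f : ℕ) where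
  /-- side length of the box -/
  n : ℕ
  /-- number of sheets in each direction -/
  M : ℕ
  /-- number of columns in each sheet -/
  J : ℕ
  /-- the order of the sheets -/
  h : (Fin f → ℤ) → ℤ
  hn : 12 ≤ n
  hM : 2 ≤ M
  hMn : 3 * M ≤ n + 2
  hJ : 2 ≤ J
  hJ2 : J % 2 = 0
  hJn : 2 * J + 4 ≤ n
  /-- the number of sheets is even -/
  hN : ((M : ℤ) ^ f) % 2 = 0
  h_range : ∀ c, InBox M c → 0 ≤ h c ∧ h c < (M : ℤ) ^ f
  h_succ : ∀ c, InBox M c → h c + 1 < (M : ℤ) ^ f → cnt M (fun q => h q = h c + 1) c = 1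
  h_pred : ∀ c, InBox M c → 0 < h c → cnt M (fun q => h q = h c - 1) c = 1
  h_zero : ∀ c, InBox M c → (h c = 0 ↔ c = fun _ => 1)
  /-- the first sheet -/
  c0 : Fin f → ℤ
  c0_box : InBox M c0
  h_last : ∀ c, InBox M c → (h c = (M : ℤ) ^ f - 1 ↔ c = c0)

namespace Par

variable {f : ℕ} (P : Par f)

/-- the positions of the sheets in each direction are `1, 4, …, 3M - 2` -/
def isE (k : ℤ) : Prop := k % 3 = 1 ∧ k ≤ 3 * P.M - 2

/-- rounding down (in each coordinate) to the index of a sheet -/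
def lo (u : Fin f → ℤ) : Fin f → ℤ := fun i => (u i + 2) / 3

/-- rounding up (in each coordinate) to the index of a sheet -/
def hi (u : Fin f → ℤ) : Fin f → ℤ := fun i => (u i + 4) / 3

/-- the wire in a (general) sheet -/
def P2 (x y : ℤ) : Prop :=
  2 ≤ x ∧ x ≤ 2 * P.J ∧ ((x % 2 = 0 ∧ 2 ≤ y ∧ y ≤ P.n - 1) ∨ (x % 4 = 3 ∧ y = P.n - 1) ∨
    (x % 4 = 1 ∧ y = 2) ∨ (x = 2 ∧ y = 1) ∨ (x = 2 * P.J ∧ y = 1))

/-- the time along the wire in a sheet, from `(2, 1)` (time `0`) to `(2J, 1)` (time `m2`) -/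
def t2 (x y : ℤ) : ℤ :=
  if x % 2 = 1 then (x / 2) * (P.n - 1)
  else if x % 4 = 2 then (x / 2 - 1) * (P.n - 1) + (y - 1)
  else (x / 2 - 1) * (P.n - 1) + (P.n - y)

/-- length of the wire in a sheet -/
def m2 : ℤ := P.J * (P.n - 1)

/-- number of sheets -/
def N : ℤ := (P.M : ℤ) ^ f

/-- time per sheet -/
def per : ℤ := P.m2 + 3

/-- the wire in the sheet of index `k` -/
def wireS (k x y : ℤ) : Prop :=
  (k = 0 ∧ ((x = 2 * P.J ∧ 1 ≤ y ∧ y ≤ 2) ∨ (y = 2 ∧ 2 * P.J ≤ x ∧ x ≤ P.n - 2))) ∨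
  (k ≠ 0 ∧ P.P2 x y ∧ ¬ (k = P.N - 1 ∧ x = 2 ∧ y = 1))

/-- all coordinates of `u` are positions of sheets -/
def E (u : Fin f → ℤ) : Prop := ∀ i, P.isE (u i)

/-- `u` lies strictly between two sheets which are consecutive in the order -/
def Pas (u : Fin f → ℤ) : Prop :=
  ∃ i, (∀ j, j ≠ i → P.isE (u j)) ∧ u i % 3 ≠ 1 ∧ u i < 3 * P.M - 2 ∧
    (P.h (hi u) = P.h (lo u) + 1 ∨ P.h (lo u) = P.h (hi u) + 1)

/-- the index of the earlier (larger index) one of the two sheets next to `u` -/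
noncomputable def H (u : Fin f → ℤ) : ℤ := max (P.h (lo u)) (P.h (hi u))

/-- the `x`-coordinate of the exit of the sheet with index `k` -/
def px (k : ℤ) : ℤ := if k % 2 = 1 then 2 * P.J else 2

/-- the distance of `u` from the earlier one of the two sheets next to it -/
noncomputable def off (u : Fin f → ℤ) : ℤ :=
  if P.h (hi u) < P.h (lo u) then ∑ i, (u i + 2) % 3 else 3 - ∑ i, (u i + 2) % 3

/-- `u` lies on a coordinate axis through `(1,…,1)`, and not on a sheet -/
def Spine (u : Fin f → ℤ) : Prop := ∃ i, (∀ j, j ≠ i → u j = 1) ∧ ¬ P.isE (u i)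

/-- the initially infected points -/
def T3 (x y : ℤ) (u : Fin f → ℤ) : Prop :=
  x = P.n ∨
  (x = P.n - 1 ∧ y = 1 ∧ ∀ i, u i = 1) ∨
  (x ≤ P.n - 2 ∧ P.E u ∧ ¬ P.wireS (P.h (lo u)) x y) ∨
  (x ≤ P.n - 2 ∧ P.Spine u ∧ y = P.n) ∨
  (P.Pas u ∧ y = 1 ∧ (x = P.px (P.H u) + 1 ∨ x = P.px (P.H u) - 1))

/-- the points of the wire in the sheets of positive index -/
def WS (x y : ℤ) (u : Fin f → ℤ) : Prop :=
  P.E u ∧ 1 ≤ P.h (lo u) ∧ P.wireS (P.h (lo u)) x y

/-- the points of the wire in the passages -/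
def WP (x y : ℤ) (u : Fin f → ℤ) : Prop :=
  P.Pas u ∧ x = P.px (P.H u) ∧ y = 1

/-- the time at which the last passage has been infected -/
def s : ℤ := (P.N - 1) * P.per - 1

open Classical in
/-- the lower bounds for the infection times -/
noncomputable def τ3 (x y : ℤ) (u : Fin f → ℤ) : ℤ :=
  if P.WS x y u then (P.N - 1 - P.h (lo u)) * P.per +
    (if P.h (lo u) % 2 = 1 then P.t2 x y else P.m2 - P.t2 x y)
  else if P.WP x y u then (P.N - 1 - P.H u) * P.per + P.m2 + P.off u
  else P.s + 1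

/-- the `u`-part of a point -/
def upart (p : Fin (f + 2) → ℤ) : Fin f → ℤ := fun i => p i.succ.succ

/-- the point with given coordinates -/
def pt (x y : ℤ) (u : Fin f → ℤ) : Fin (f + 2) → ℤ := Fin.cons x (Fin.cons y u)

/-- the base structure -/
noncomputable def side : Side (f + 2) where
  T p := P.T3 (p 0) (p 1) (upart p)
  τ p := P.τ3 (p 0) (p 1) (upart p)
  w := pt 2 2 (fun i => 3 * P.c0 i - 2)

end Par

end Pool.Agent.Lib.MP_1a3405_co.Ord
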