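import Mathlib
import Pool.Agent.Lib.MP_1a3405_co.Ord.Base

/-!
Coordinates `(x, y, u)` of the points of the base structure.
-/

namespace Pool.Agent.Lib.MP_1a3405_co.Ord

open Pool.Agent.Lib.MP_1a3405_co

namespace Par

variable {f n : ℕ}

@[simp] lemma pt_zero (x y : ℤ) (u : Fin f → ℤ) : pt x y u 0 = x := rfl

@[simp] lemma pt_one (x y : ℤ) (u : Fin f → ℤ) : pt x y u 1 = y := rfl

@[simp] lemma upart_pt (x y : ℤ) (u : Fin f → ℤ) : upart (pt x y u) = u := rfl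

lemma pt_eta (p : Fin (f + 2) → ℤ) : pt (p 0) (p 1) (upart p) = p := by
  funext i
  refine Fin.cases rfl (fun i => ?_) i
  refine Fin.cases rfl (fun i => rfl) i

lemma exists_pt (p : Fin (f + 2) → ℤ) : ∃ x y u, p = pt x y u :=
  ⟨p 0, p 1, upart p, (pt_eta p).symm⟩

lemma pt_inj {x y x' y' : ℤ} {u u' : Fin f → ℤ} :
    pt x y u = pt x' y' u' ↔ x = x' ∧ y = y' ∧ u = u' := by
  constructor
  · intro h
    exact ⟨congrFun h 0, congrFun h 1, by rw [← upart_pt x y u, h, upart_pt]⟩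
  · rintro ⟨rfl, rfl, rfl⟩; rfl

lemma inBox_pt {x y : ℤ} {u : Fin f → ℤ} :
    InBox n (pt x y u) ↔ (1 ≤ x ∧ x ≤ n) ∧ (1 ≤ y ∧ y ≤ n) ∧ InBox n u := by
  rw [pt, inBox_cons, inBox_cons]

lemma nb_pt_x (x y : ℤ) (u : Fin f → ℤ) (b : Bool) :
    nb (pt x y u) (0, b) = pt (x + if b then 1 else -1) y u := by
  rw [pt, nb_cons_zero]; rfl

lemma nb_pt_y (x y : ℤ) (u : Fin f → ℤ) (b : Bool) :
    nb (pt x y u) (1, b) = pt x (y + if b then 1 else -1) u := by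
  rw [pt, show (1 : Fin (f + 2)) = (0 : Fin (f + 1)).succ from rfl, nb_cons_succ, nb_cons_zero]
  rfl

lemma nb_pt_u (x y : ℤ) (u : Fin f → ℤ) (i : Fin f) (b : Bool) :
    nb (pt x y u) (i.succ.succ, b) = pt x y (nb u (i, b)) := by
  rw [pt, nb_cons_succ x (Fin.cons y u : Fin (f + 1) → ℤ) i.succ b, nb_cons_succ]; rfl

/-- each direction is an `x`-, a `y`- or a `u`-direction -/
lemma dir_cases (δ : Fin (f + 2) × Bool) :
    (∃ b, δ = (0, b)) ∨ (∃ b, δ = (1, b)) ∨ (∃ (i : Fin f) (b : Bool), δ = (i.succ.succ, b)) := by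
  obtain ⟨j, b⟩ := δ
  refine Fin.cases (Or.inl ⟨b, rfl⟩) (fun j => ?_) j
  refine Fin.cases (Or.inr (Or.inl ⟨b, rfl⟩)) (fun j => ?_) j
  exact Or.inr (Or.inr ⟨j, b, rfl⟩)

open Classical in
/-- Counting neighbours in coordinates. -/
lemma cnt_pt {x y : ℤ} {u : Fin f → ℤ} (hx : 1 ≤ x ∧ x ≤ n) (hy : 1 ≤ y ∧ y ≤ n)
    (hu : InBox n u) (Q : (Fin (f + 2) → ℤ) → Prop) :
    cnt n Q (pt x y u) =
      (if x + 1 ≤ n ∧ Q (pt (x + 1) y u) then 1 else 0) +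
      (if 1 ≤ x - 1 ∧ Q (pt (x - 1) y u) then 1 else 0) +
      ((if y + 1 ≤ n ∧ Q (pt x (y + 1) u) then 1 else 0) +
      (if 1 ≤ y - 1 ∧ Q (pt x (y - 1) u) then 1 else 0) +
      cnt n (fun u' => Q (pt x y u')) u) := by
  rw [pt, cnt_cons hx (by rw [inBox_cons]; exact ⟨hy, hu⟩), cnt_cons hy hu]
  rfl

/-- a neighbour of `u` in the direction `(i, b)`, coordinate by coordinate -/
lemma nb_self (u : Fin f → ℤ) (i : Fin f) (b : Bool) :
    nb u (i, b) i = u i + if b then 1 else -1 := by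
  simp [nb]

lemma nb_other (u : Fin f → ℤ) {i j : Fin f} (b : Bool) (h : j ≠ i) :
    nb u (i, b) j = u j := by
  simp [nb, Function.update_of_ne h]

variable (P : Par f)

lemma side_T (x y : ℤ) (u : Fin f → ℤ) : P.side.T (pt x y u) ↔ P.T3 x y u := Iff.rfl

lemma side_τ (x y : ℤ) (u : Fin f → ℤ) : P.side.τ (pt x y u) = P.τ3 x y u := rfl

lemma side_w : P.side.w = pt 2 2 (fun i => 3 * P.c0 i - 2) := rfl

end Par

end Pool.Agent.Lib.MP_1a3405_co.Ord
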