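import Mathlib
import Pool.Agent.Lib.MP_1a3405_co.Ord.BaseApi

/-!
The wire in one sheet of the base structure.
-/

namespace Pool.Agent.Lib.MP_1a3405_co.Ord

open Pool.Agent.Lib.MP_1a3405_co

namespace Par

variable {f : ℕ} (P : Par f)

theorem P2_range {x y : ℤ} (h : P.P2 x y) :
    2 ≤ x ∧ x ≤ 2 * P.J ∧ 1 ≤ y ∧ y ≤ P.n - 1 := by
  have hn := P.hn
  have hJ := P.hJ
  unfold P2 at h
  omega

lemma t2_odd {x : ℤ} (y : ℤ) (h : x % 2 = 1) : P.t2 x y = (x / 2) * (P.n - 1) := if_pos h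

lemma t2_two {x : ℤ} (y : ℤ) (h : x % 4 = 2) :
    P.t2 x y = (x / 2 - 1) * (P.n - 1) + (y - 1) := by
  rw [t2, if_neg (by omega), if_pos h]

lemma t2_four {x : ℤ} (y : ℤ) (h : x % 4 = 0) :
    P.t2 x y = (x / 2 - 1) * (P.n - 1) + (P.n - y) := by
  rw [t2, if_neg (by omega), if_neg (by omega)]

/-- the four kinds of columns -/
lemma mod_four (x : ℤ) : x % 4 = 0 ∨ x % 4 = 1 ∨ x % 4 = 2 ∨ x % 4 = 3 := by omega

theorem t2_range {x y : ℤ} (h : P.P2 x y) : 0 ≤ P.t2 x y ∧ P.t2 x y ≤ P.m2 := by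
  have hn := P.hn
  have hJ := P.hJ
  have hr := P.P2_range h
  have hn' : (0 : ℤ) ≤ P.n - 1 := by omega
  have h1 : 0 ≤ (x / 2 - 1) * ((P.n : ℤ) - 1) := mul_nonneg (by omega) hn'
  have h2 : (x / 2 - 1) * ((P.n : ℤ) - 1) ≤ ((P.J : ℤ) - 1) * (P.n - 1) :=
    mul_le_mul_of_nonneg_right (by omega) hn'
  have h3 : (P.J : ℤ) * ((P.n : ℤ) - 1) = ((P.J : ℤ) - 1) * (P.n - 1) + (P.n - 1) := by ring
  have h4 : (x / 2) * ((P.n : ℤ) - 1) = (x / 2 - 1) * (P.n - 1) + (P.n - 1) := by ring
  unfold m2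
  rcases mod_four x with hx | hx | hx | hx
  · rw [P.t2_four y hx]; constructor <;> omega
  · rw [P.t2_odd y (by omega), h4]; constructor <;> omega
  · rw [P.t2_two y hx]; constructor <;> omega
  · rw [P.t2_odd y (by omega), h4]; constructor <;> omega

theorem t2_eq_zero {x y : ℤ} (h : P.P2 x y) : P.t2 x y = 0 ↔ x = 2 ∧ y = 1 := by
  have hn := P.hn
  have hJ := P.hJ
  have hr := P.P2_range h
  constructor
  · intro h0
    have hn' : (0 : ℤ) ≤ P.n - 1 := by omega
    have h1 : 0 ≤ (x / 2 - 1) * ((P.n : ℤ) - 1) := mul_nonneg (by omega) hn'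
    have h4 : (x / 2) * ((P.n : ℤ) - 1) = (x / 2 - 1) * (P.n - 1) + (P.n - 1) := by ring
    rcases mod_four x with hx | hx | hx | hx
    · rw [P.t2_four y hx] at h0; omega
    · rw [P.t2_odd y (by omega), h4] at h0; omega
    · rw [P.t2_two y hx] at h0
      have h5 : x / 2 - 1 = 0 := by
        by_contra hcon
        have h6 : 1 * ((P.n : ℤ) - 1) ≤ (x / 2 - 1) * ((P.n : ℤ) - 1) :=
          mul_le_mul_of_nonneg_right (by omega) hn'
        omega
      omega
    · rw [P.t2_odd y (by omega), h4] at h0; omega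
  · rintro ⟨rfl, rfl⟩
    rw [P.t2_two 1 (by norm_num)]
    norm_num

theorem t2_eq_one {x y : ℤ} (h : P.P2 x y) : P.t2 x y = 1 ↔ x = 2 ∧ y = 2 := by
  have hn := P.hn
  have hJ := P.hJ
  have hr := P.P2_range h
  constructor
  · intro h0
    have hn' : (0 : ℤ) ≤ P.n - 1 := by omega
    have h1 : 0 ≤ (x / 2 - 1) * ((P.n : ℤ) - 1) := mul_nonneg (by omega) hn'
    have h4 : (x / 2) * ((P.n : ℤ) - 1) = (x / 2 - 1) * (P.n - 1) + (P.n - 1) := by ring
    have h7 : x / 2 - 1 ≠ 0 → (P.n : ℤ) - 1 ≤ (x / 2 - 1) * ((P.n : ℤ) - 1) := by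
      intro hcon
      have h6 : 1 * ((P.n : ℤ) - 1) ≤ (x / 2 - 1) * ((P.n : ℤ) - 1) :=
        mul_le_mul_of_nonneg_right (by omega) hn'
      omega
    rcases mod_four x with hx | hx | hx | hx
    · rw [P.t2_four y hx] at h0; omega
    · rw [P.t2_odd y (by omega), h4] at h0; omega
    · rw [P.t2_two y hx] at h0
      by_cases h5 : x / 2 - 1 = 0
      · rw [h5] at h0; omega
      · have := h7 h5; omega
    · rw [P.t2_odd y (by omega), h4] at h0; omega
  · rintro ⟨rfl, rfl⟩
    rw [P.t2_two 2 (by norm_num)]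
    norm_num

theorem t2_eq_m2 {x y : ℤ} (h : P.P2 x y) : P.t2 x y = P.m2 ↔ x = 2 * P.J ∧ y = 1 := by
  have hn := P.hn
  have hJ := P.hJ
  have hJ2 := P.hJ2
  have hr := P.P2_range h
  have h3 : (P.J : ℤ) * ((P.n : ℤ) - 1) = ((P.J : ℤ) - 1) * (P.n - 1) + (P.n - 1) := by ring
  constructor
  · intro h0
    unfold m2 at h0
    have hn' : (0 : ℤ) ≤ P.n - 1 := by omega
    have h1 : 0 ≤ (x / 2 - 1) * ((P.n : ℤ) - 1) := mul_nonneg (by omega) hn'
    have h2 : (x / 2 - 1) * ((P.n : ℤ) - 1) ≤ ((P.J : ℤ) - 1) * (P.n - 1) :=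
      mul_le_mul_of_nonneg_right (by omega) hn'
    have h4 : (x / 2) * ((P.n : ℤ) - 1) = (x / 2 - 1) * (P.n - 1) + (P.n - 1) := by ring
    have h5 : ((P.J : ℤ) - 1) * (P.n - 1) = ((P.J : ℤ) - 2) * (P.n - 1) + (P.n - 1) := by ring
    have h7 : x / 2 ≠ P.J → (x / 2 - 1) * ((P.n : ℤ) - 1) ≤ ((P.J : ℤ) - 2) * (P.n - 1) :=
      fun hcon => mul_le_mul_of_nonneg_right (by omega) hn'
    rcases mod_four x with hx | hx | hx | hx
    · rw [P.t2_four y hx] at h0
      by_cases h8 : x / 2 = P.J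
      · rw [h8] at h0; omega
      · have := h7 h8; omega
    · rw [P.t2_odd y (by omega), h4] at h0
      have h8 : x / 2 ≠ P.J := by omega
      have := h7 h8; omega
    · rw [P.t2_two y hx] at h0
      have h8 : x / 2 ≠ P.J := by omega
      have := h7 h8; omega
    · rw [P.t2_odd y (by omega), h4] at h0
      have h8 : x / 2 ≠ P.J := by omega
      have := h7 h8; omega
  · rintro ⟨rfl, rfl⟩
    rw [P.t2_four 1 (by omega), m2]
    have e : 2 * (P.J : ℤ) / 2 = P.J := by omega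
    rw [e]
    omega

lemma t2_right {x y : ℤ} (h : P.P2 x y) (h' : P.P2 (x + 1) y) :
    P.t2 (x + 1) y = P.t2 x y + 1 := by
  have hn := P.hn
  have hJ := P.hJ
  unfold P2 at h h'
  have h4 : (x / 2) * ((P.n : ℤ) - 1) = (x / 2 - 1) * (P.n - 1) + (P.n - 1) := by ring
  rcases mod_four x with hx | hx | hx | hx
  · rw [P.t2_four (x := x) y hx, P.t2_odd (x := x + 1) y (by omega),
      show (x + 1) / 2 = x / 2 by omega, h4]
    omega
  · rw [P.t2_odd (x := x) y (by omega), P.t2_two (x := x + 1) y (by omega),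
      show (x + 1) / 2 = x / 2 + 1 by omega, show x / 2 + 1 - 1 = x / 2 by ring]
    omega
  · rw [P.t2_two (x := x) y hx, P.t2_odd (x := x + 1) y (by omega),
      show (x + 1) / 2 = x / 2 by omega, h4]
    omega
  · rw [P.t2_odd (x := x) y (by omega), P.t2_four (x := x + 1) y (by omega),
      show (x + 1) / 2 = x / 2 + 1 by omega, show x / 2 + 1 - 1 = x / 2 by ring]
    omega

theorem P2_adj_x {x y : ℤ} (h : P.P2 x y) (h' : P.P2 (x + 1) y) :
    P.t2 (x + 1) y = P.t2 x y + 1 ∨ P.t2 (x + 1) y = P.t2 x y - 1 :=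
  Or.inl (P.t2_right h h')

lemma t2_up {x y : ℤ} (hx : x % 4 = 2) : P.t2 x (y + 1) = P.t2 x y + 1 := by
  rw [P.t2_two _ hx, P.t2_two _ hx]; ring

lemma t2_down {x y : ℤ} (hx : x % 4 = 0) : P.t2 x (y + 1) = P.t2 x y - 1 := by
  rw [P.t2_four _ hx, P.t2_four _ hx]; ring

theorem P2_adj_y {x y : ℤ} (h : P.P2 x y) (h' : P.P2 x (y + 1)) :
    P.t2 x (y + 1) = P.t2 x y + 1 ∨ P.t2 x (y + 1) = P.t2 x y - 1 := by
  have hn := P.hn
  unfold P2 at h h'
  rcases mod_four x with hx | hx | hx | hx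
  · exact Or.inr (P.t2_down hx)
  · omega
  · exact Or.inl (P.t2_up hx)
  · omega

open Classical in
/-- exactly two neighbours in the box are outside of the wire -/
theorem P2_walls {x y : ℤ} (h : P.P2 x y) :
    (if ¬ P.P2 (x + 1) y then 1 else 0) + (if ¬ P.P2 (x - 1) y then 1 else 0) +
    (if ¬ P.P2 x (y + 1) then 1 else 0) + (if 1 ≤ y - 1 ∧ ¬ P.P2 x (y - 1) then 1 else 0) = 2 := by
  have hn := P.hn
  have hJ := P.hJ
  have hJ2 := P.hJ2
  unfold P2 at h ⊢
  rcases mod_four x with hx | hx | hx | hx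
  · -- x % 4 = 0
    by_cases h1 : y = 1
    · rw [if_pos (by omega), if_pos (by omega), if_neg (by omega), if_neg (by omega)]
    · by_cases h2 : y = 2
      · by_cases h3 : x = 2 * P.J
        · rw [if_pos (by omega), if_pos (by omega), if_neg (by omega), if_neg (by omega)]
        · rw [if_neg (by omega), if_pos (by omega), if_neg (by omega), if_pos (by omega)]
      · by_cases h3 : y = P.n - 1
        · rw [if_pos (by omega), if_neg (by omega), if_pos (by omega), if_neg (by omega)]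
        · rw [if_pos (by omega), if_pos (by omega), if_neg (by omega), if_neg (by omega)]
  · rw [if_neg (by omega), if_neg (by omega), if_pos (by omega), if_pos (by omega)]
  · -- x % 4 = 2
    by_cases h1 : y = 1
    · rw [if_pos (by omega), if_pos (by omega), if_neg (by omega), if_neg (by omega)]
    · by_cases h2 : y = 2
      · by_cases h3 : x = 2
        · rw [if_pos (by omega), if_pos (by omega), if_neg (by omega), if_neg (by omega)]
        · rw [if_pos (by omega), if_neg (by omega), if_neg (by omega), if_pos (by omega)]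
      · by_cases h3 : y = P.n - 1
        · rw [if_neg (by omega), if_pos (by omega), if_pos (by omega), if_neg (by omega)]
        · rw [if_pos (by omega), if_pos (by omega), if_neg (by omega), if_neg (by omega)]
  · rw [if_neg (by omega), if_neg (by omega), if_pos (by omega), if_pos (by omega)]

theorem P2_pred {x y : ℤ} (h : P.P2 x y) (h0 : 0 < P.t2 x y) :
    (P.P2 (x + 1) y ∧ P.t2 (x + 1) y = P.t2 x y - 1) ∨
    (P.P2 (x - 1) y ∧ P.t2 (x - 1) y = P.t2 x y - 1) ∨
    (P.P2 x (y + 1) ∧ P.t2 x (y + 1) = P.t2 x y - 1) ∨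
    (P.P2 x (y - 1) ∧ P.t2 x (y - 1) = P.t2 x y - 1) := by
  have hn := P.hn
  have hJ := P.hJ
  have hJ2 := P.hJ2
  have hz := P.t2_eq_zero h
  have hleft : P.P2 (x - 1) y → P.t2 (x - 1) y = P.t2 x y - 1 := by
    intro h'
    have h1 : P.P2 (x - 1 + 1) y := by rwa [show x - 1 + 1 = x by ring]
    have := P.t2_right h' h1
    rw [show x - 1 + 1 = x by ring] at this
    omega
  rcases mod_four x with hx | hx | hx | hx
  · by_cases h1 : y = P.n - 1
    · right; left
      have : P.P2 (x - 1) y := by unfold P2 at h ⊢; omega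
      exact ⟨this, hleft this⟩
    · right; right; left
      exact ⟨by unfold P2 at h ⊢; omega, P.t2_down hx⟩
  · right; left
    have : P.P2 (x - 1) y := by unfold P2 at h ⊢; omega
    exact ⟨this, hleft this⟩
  · by_cases h1 : x = 2
    · right; right; right
      have h2 : y ≠ 1 := fun h2 => by have := hz.2 ⟨h1, h2⟩; omega
      refine ⟨by unfold P2 at h ⊢; omega, ?_⟩
      have := P.t2_up (y := y - 1) hx
      rw [show y - 1 + 1 = y by ring] at this
      omega
    · by_cases h2 : y = 2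
      · right; left
        have : P.P2 (x - 1) y := by unfold P2 at h ⊢; omega
        exact ⟨this, hleft this⟩
      · right; right; right
        refine ⟨by unfold P2 at h ⊢; omega, ?_⟩
        have := P.t2_up (y := y - 1) hx
        rw [show y - 1 + 1 = y by ring] at this
        omega
  · right; left
    have : P.P2 (x - 1) y := by unfold P2 at h ⊢; omega
    exact ⟨this, hleft this⟩

theorem P2_succ {x y : ℤ} (h : P.P2 x y) (h0 : P.t2 x y < P.m2) :
    (P.P2 (x + 1) y ∧ P.t2 (x + 1) y = P.t2 x y + 1) ∨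
    (P.P2 (x - 1) y ∧ P.t2 (x - 1) y = P.t2 x y + 1) ∨
    (P.P2 x (y + 1) ∧ P.t2 x (y + 1) = P.t2 x y + 1) ∨
    (P.P2 x (y - 1) ∧ P.t2 x (y - 1) = P.t2 x y + 1) := by
  have hn := P.hn
  have hJ := P.hJ
  have hJ2 := P.hJ2
  have hz := P.t2_eq_m2 h
  rcases mod_four x with hx | hx | hx | hx
  · have hdn : P.t2 x (y - 1) = P.t2 x y + 1 := by
      have := P.t2_down (y := y - 1) hx
      rw [show y - 1 + 1 = y by ring] at this
      omega
    by_cases h1 : x = 2 * P.J
    · right; right; right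
      have h2 : y ≠ 1 := fun h2 => by have := hz.2 ⟨h1, h2⟩; omega
      exact ⟨by unfold P2 at h ⊢; omega, hdn⟩
    · by_cases h2 : y = 2
      · left
        have : P.P2 (x + 1) y := by unfold P2 at h ⊢; omega
        exact ⟨this, P.t2_right h this⟩
      · right; right; right
        exact ⟨by unfold P2 at h ⊢; omega, hdn⟩
  · left
    have : P.P2 (x + 1) y := by unfold P2 at h ⊢; omega
    exact ⟨this, P.t2_right h this⟩
  · by_cases h1 : y = P.n - 1
    · left
      have : P.P2 (x + 1) y := by unfold P2 at h ⊢; omega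
      exact ⟨this, P.t2_right h this⟩
    · right; right; left
      exact ⟨by unfold P2 at h ⊢; omega, P.t2_up hx⟩
  · left
    have : P.P2 (x + 1) y := by unfold P2 at h ⊢; omega
    exact ⟨this, P.t2_right h this⟩

end Par

end Pool.Agent.Lib.MP_1a3405_co.Ord
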