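import Mathlib
import Pool.Agent.Lib.MP_1a3405_co.Ord.BaseApi

/-!
The order of the sheets and the passages between consecutive sheets.
-/

namespace Pool.Agent.Lib.MP_1a3405_co.Ord

open Pool.Agent.Lib.MP_1a3405_co

namespace Par

variable {f : ℕ} (P : Par f)

theorem N_even : P.N % 2 = 0 := P.hN

theorem two_le_N (_ : 1 ≤ f) : 2 ≤ P.N := by
  have h1 := P.h_range P.c0 P.c0_box
  have h2 := P.hN
  unfold N
  omega

/-- for `E u`: `lo u` is a point of `{1..M}^f`, and `u = 3 * lo u - 2 = 3 * hi u - 2` -/
theorem E_lo {u : Fin f → ℤ} (hu : InBox P.n u) (hE : P.E u) :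
    InBox P.M (lo u) ∧ (∀ i, u i = 3 * lo u i - 2) ∧ hi u = lo u := by
  refine ⟨fun i => ?_, fun i => ?_, ?_⟩
  · have h1 := hu i
    have h2 := hE i
    unfold isE at h2
    unfold lo
    constructor <;> omega
  · have h2 := hE i
    unfold isE at h2
    unfold lo
    omega
  · funext i
    have h2 := hE i
    unfold isE at h2
    unfold lo hi
    omega

theorem E_of_box {c : Fin f → ℤ} (hc : InBox P.M c) :
    InBox P.n (fun i => 3 * c i - 2) ∧ P.E (fun i => 3 * c i - 2) ∧
      lo (fun i => 3 * c i - 2) = c := by
  have hMn := P.hMn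
  refine ⟨fun i => ?_, fun i => ?_, ?_⟩
  · have h1 := hc i
    simp only
    constructor <;> omega
  · have h1 := hc i
    change P.isE (3 * c i - 2)
    unfold isE
    constructor <;> omega
  · funext i
    have h1 := hc i
    change (3 * c i - 2 + 2) / 3 = c i
    omega

theorem h_lo_range {u : Fin f → ℤ} (hu : InBox P.n u) (hE : P.E u) :
    0 ≤ P.h (lo u) ∧ P.h (lo u) ≤ P.N - 1 := by
  have h1 := P.h_range _ (P.E_lo hu hE).1
  unfold N
  omega

/-- the sheet of index `0` is `u = (1,…,1)` -/
theorem h_lo_zero {u : Fin f → ℤ} (hu : InBox P.n u) (hE : P.E u) :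
    P.h (lo u) = 0 ↔ ∀ i, u i = 1 := by
  have h1 := P.E_lo hu hE
  rw [P.h_zero _ h1.1]
  constructor
  · intro h i
    have h2 : lo u i = 1 := congrFun h i
    have h3 := h1.2.1 i
    omega
  · intro h
    funext i
    have h3 := h1.2.1 i
    have := h i
    omega

/-- the sheet of the last index -/
theorem h_lo_last {u : Fin f → ℤ} (hu : InBox P.n u) (hE : P.E u) :
    P.h (lo u) = P.N - 1 ↔ u = fun i => 3 * P.c0 i - 2 := by
  have h1 := P.E_lo hu hE
  rw [N, P.h_last _ h1.1]
  constructor
  · intro h
    funext i
    have h3 := h1.2.1 i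
    rw [h] at h3
    exact h3
  · intro h
    funext i
    have h3 := h1.2.1 i
    have h4 : u i = 3 * P.c0 i - 2 := congrFun h i
    omega

/-- a neighbouring value of a sheet position is not a sheet position -/
lemma not_isE_nb {u : Fin f → ℤ} {i : Fin f} (b : Bool) (h : P.isE (u i)) :
    ¬ P.isE (nb u (i, b) i) := by
  rw [nb_self]
  unfold isE at h ⊢
  cases b
  · simp only [Bool.false_eq_true, if_false]; omega
  · simp only [if_true]; omega

lemma sum_single {u : Fin f → ℤ} {i : Fin f} (h : ∀ j, j ≠ i → P.isE (u j)) :
    ∑ j, (u j + 2) % 3 = (u i + 2) % 3 := by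
  rw [Finset.sum_eq_single i]
  · intro j _ hj
    have := (h j hj).1
    omega
  · intro hi
    exact absurd (Finset.mem_univ i) hi

lemma lo_hi_box {u : Fin f → ℤ} (hu : InBox P.n u) {i : Fin f}
    (h : ∀ j, j ≠ i → P.isE (u j)) (hi3 : u i % 3 ≠ 1) (hlt : u i < 3 * P.M - 2) :
    InBox P.M (lo u) ∧ InBox P.M (hi u) := by
  constructor
  · intro j
    have h1 := hu j
    unfold lo
    by_cases hj : j = i
    · subst hj
      constructor <;> omega
    · have h2 := h j hj
      unfold isE at h2
      constructor <;> omega
  · intro j
    have h1 := hu j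
    unfold hi
    by_cases hj : j = i
    · subst hj
      constructor <;> omega
    · have h2 := h j hj
      unfold isE at h2
      constructor <;> omega

theorem Pas_range {u : Fin f → ℤ} (hu : InBox P.n u) (h : P.Pas u) :
    1 ≤ P.H u ∧ P.H u ≤ P.N - 1 ∧ 1 ≤ P.off u ∧ P.off u ≤ 2 := by
  obtain ⟨i, h1, h2, h3, h4⟩ := h
  have hb := P.lo_hi_box hu h1 h2 h3
  have r1 := P.h_range _ hb.1
  have r2 := P.h_range _ hb.2
  have hs := P.sum_single h1
  unfold H off N
  rw [hs]
  refine ⟨?_, ?_, ?_, ?_⟩
  · rcases h4 with h4 | h4
    · exact le_trans (by omega) (le_max_right _ _)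
    · exact le_trans (by omega) (le_max_left _ _)
  · apply max_le <;> omega
  · split_ifs <;> omega
  · split_ifs <;> omega

theorem not_E_of_Pas {u : Fin f → ℤ} (h : P.Pas u) : ¬ P.E u := by
  obtain ⟨i, h1, h2, h3, h4⟩ := h
  intro hE
  exact h2 (hE i).1

/-- a passage point next to a sheet -/
theorem E_Pas {u : Fin f → ℤ} {δ : Fin f × Bool} (_ : InBox P.n u) (hu' : InBox P.n (nb u δ))
    (hE : P.E u) (hP : P.Pas (nb u δ)) :
    (P.h (lo u) = P.H (nb u δ) ∧ P.off (nb u δ) = 1) ∨
    (P.h (lo u) = P.H (nb u δ) - 1 ∧ P.off (nb u δ) = 2) := by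
  obtain ⟨i, b⟩ := δ
  obtain ⟨i', h1, h2, h3, h4⟩ := hP
  have hii : i = i' := by
    by_contra hne
    exact P.not_isE_nb b (hE i) (h1 i hne)
  subst hii
  have hs := P.sum_single h1
  have hEi := hE i
  unfold isE at hEi
  rw [nb_self] at hs h2 h3
  cases b
  · simp only [Bool.false_eq_true, if_false] at hs h2 h3
    have e : hi (nb u (i, false)) = lo u := by
      funext j
      unfold hi lo
      by_cases hj : j = i
      · subst hj
        rw [nb_self]
        simp only [Bool.false_eq_true, if_false]
        omega
      · rw [nb_other u false hj]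
        have := (hE j).1
        omega
    unfold H off
    rw [e] at h4 ⊢
    rw [hs]
    rcases h4 with h4 | h4
    · left
      rw [if_neg (by omega), max_eq_right (by omega)]
      constructor <;> omega
    · right
      rw [if_pos (by omega), max_eq_left (by omega)]
      constructor <;> omega
  · simp only [if_true] at hs h2 h3
    have e : lo (nb u (i, true)) = lo u := by
      funext j
      unfold lo
      by_cases hj : j = i
      · subst hj
        rw [nb_self]
        simp only [if_true]
        omega
      · rw [nb_other u true hj]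
    unfold H off
    rw [e] at h4 ⊢
    rw [hs]
    rcases h4 with h4 | h4
    · right
      rw [if_neg (by omega), max_eq_right (by omega)]
      constructor <;> omega
    · left
      rw [if_pos (by omega), max_eq_left (by omega)]
      constructor <;> omega

lemma nb_nb (u : Fin f → ℤ) (i : Fin f) (b : Bool) : nb (nb u (i, b)) (i, !b) = u := by
  funext j
  by_cases hj : j = i
  · subst hj
    rw [nb_self, nb_self]
    cases b
    · simp
    · simp
  · rw [nb_other _ _ hj, nb_other _ _ hj]

/-- a sheet next to a passage point -/
theorem Pas_E {u : Fin f → ℤ} {δ : Fin f × Bool} (hu : InBox P.n u) (hu' : InBox P.n (nb u δ))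
    (hP : P.Pas u) (hE : P.E (nb u δ)) :
    (P.h (lo (nb u δ)) = P.H u ∧ P.off u = 1) ∨
    (P.h (lo (nb u δ)) = P.H u - 1 ∧ P.off u = 2) := by
  obtain ⟨i, b⟩ := δ
  have e := nb_nb u i b
  have h := P.E_Pas (u := nb u (i, b)) (δ := (i, !b)) hu' (by rw [e]; exact hu) hE
    (by rw [e]; exact hP)
  rw [e] at h
  exact h

/-- two neighbouring points between the same sheets -/
lemma same_cell {u : Fin f → ℤ} {i : Fin f} {b : Bool} (h1 : u i % 3 ≠ 1)
    (h2 : nb u (i, b) i % 3 ≠ 1) : lo (nb u (i, b)) = lo u ∧ hi (nb u (i, b)) = hi u := by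
  rw [nb_self] at h2
  constructor
  · funext j
    unfold lo
    by_cases hj : j = i
    · subst hj
      rw [nb_self]
      cases b
      · simp only [Bool.false_eq_true, if_false] at h2 ⊢; omega
      · simp only [if_true] at h2 ⊢; omega
    · rw [nb_other _ _ hj]
  · funext j
    unfold hi
    by_cases hj : j = i
    · subst hj
      rw [nb_self]
      cases b
      · simp only [Bool.false_eq_true, if_false] at h2 ⊢; omega
      · simp only [if_true] at h2 ⊢; omega
    · rw [nb_other _ _ hj]

/-- two neighbouring passage points belong to the same passage -/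
theorem Pas_Pas {u : Fin f → ℤ} {δ : Fin f × Bool} (_ : InBox P.n u)
    (_ : InBox P.n (nb u δ)) (hP : P.Pas u) (hP' : P.Pas (nb u δ)) :
    P.H (nb u δ) = P.H u ∧ (P.off (nb u δ) = P.off u + 1 ∨ P.off (nb u δ) = P.off u - 1) := by
  obtain ⟨i, b⟩ := δ
  obtain ⟨i1, h1, h2, h3, h4⟩ := hP
  obtain ⟨i2, h1', h2', h3', h4'⟩ := hP'
  have hi1 : i = i1 := by
    by_contra hne
    have h5 := P.not_isE_nb b (h1 i hne)
    have h6 : i = i2 := by
      by_contra hne2
      exact h5 (h1' i hne2)
    have h7 : i1 ≠ i2 := fun h => hne (h6.trans h.symm)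
    have h8 := h1' i1 h7
    rw [nb_other u b (fun h => hne h.symm)] at h8
    exact h2 h8.1
  subst hi1
  have hi2 : i = i2 := by
    by_contra hne
    have h5 := h1 i2 (fun h => hne h.symm)
    rw [nb_other u b (fun h => hne h.symm)] at h2'
    exact h2' h5.1
  subst hi2
  have hc := same_cell h2 h2'
  have hs := P.sum_single h1
  have hs' := P.sum_single h1'
  rw [nb_self] at hs' h2'
  unfold H off
  rw [hc.1, hc.2, hs, hs']
  refine ⟨rfl, ?_⟩
  cases b
  · simp only [Bool.false_eq_true, if_false] at h2' ⊢
    split_ifs <;> omega
  · simp only [if_true] at h2' ⊢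
    split_ifs <;> omega

/-- if `u` and `nb u δ` are both not on sheets and `nb u δ` is a passage point then `u` is a
passage point or has two coordinates which are not positions of sheets -/
theorem Pas_of_nb {u : Fin f → ℤ} {δ : Fin f × Bool} (_ : InBox P.n u)
    (_ : InBox P.n (nb u δ)) (hE : ¬ P.E u) (hP : P.Pas (nb u δ))
    (h1 : ∃ i, ∀ j, j ≠ i → P.isE (u j)) : P.Pas u ∧ P.H u = P.H (nb u δ) := by
  obtain ⟨i, b⟩ := δ
  obtain ⟨i1, h1⟩ := h1
  obtain ⟨i2, h1', h2', h3', h4'⟩ := hP
  have hn1 : ¬ P.isE (u i1) := by
    intro h
    apply hE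
    intro j
    by_cases hj : j = i1
    · rw [hj]; exact h
    · exact h1 j hj
  have hi1 : i = i1 := by
    by_contra hne
    have h5 := P.not_isE_nb b (h1 i hne)
    have h6 : i = i2 := by
      by_contra hne2
      exact h5 (h1' i hne2)
    have h7 : i1 ≠ i2 := fun h => hne (h6.trans h.symm)
    have h8 := h1' i1 h7
    rw [nb_other u b (fun h => hne h.symm)] at h8
    exact hn1 h8
  subst hi1
  have hi2 : i = i2 := by
    by_contra hne
    have h5 := h1 i2 (fun h => hne h.symm)
    rw [nb_other u b (fun h => hne h.symm)] at h2'
    exact h2' h5.1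
  subst hi2
  have h2'' := h2'
  rw [nb_self] at h2' h3'
  unfold isE at hn1
  have h2 : u i % 3 ≠ 1 := by
    cases b
    · simp only [Bool.false_eq_true, if_false] at h2' h3'; omega
    · simp only [if_true] at h2' h3'; omega
  have h3 : u i < 3 * P.M - 2 := by
    cases b
    · simp only [Bool.false_eq_true, if_false] at h2' h3'; omega
    · simp only [if_true] at h2' h3'; omega
  have hc := same_cell h2 h2''
  rw [hc.1, hc.2] at h4'
  refine ⟨⟨i, h1, h2, h3, h4'⟩, ?_⟩
  unfold H
  rw [hc.1, hc.2]

theorem Spine_of_nb {u : Fin f → ℤ} {δ : Fin f × Bool} (_ : InBox P.n u)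
    (_ : InBox P.n (nb u δ)) (hE : ¬ P.E u) (hP : P.Spine (nb u δ))
    (h1 : ∃ i, ∀ j, j ≠ i → P.isE (u j)) : P.Spine u := by
  have hM := P.hM
  obtain ⟨i, b⟩ := δ
  obtain ⟨i1, h1⟩ := h1
  obtain ⟨i2, h2, h3⟩ := hP
  have hn1 : ¬ P.isE (u i1) := by
    intro h
    apply hE
    intro j
    by_cases hj : j = i1
    · rw [hj]; exact h
    · exact h1 j hj
  have hi1 : i = i1 := by
    by_contra hne
    have h5 := P.not_isE_nb b (h1 i hne)
    have h6 : i = i2 := by
      by_contra hne2
      apply h5
      rw [h2 i hne2]
      unfold isE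
      omega
    have h7 : i1 ≠ i2 := fun h => hne (h6.trans h.symm)
    have h8 := h2 i1 h7
    rw [nb_other u b (fun h => hne h.symm)] at h8
    apply hn1
    rw [h8]
    unfold isE
    omega
  subst hi1
  have hi2 : i = i2 := by
    by_contra hne
    have h5 := h1 i2 (fun h => hne h.symm)
    rw [nb_other u b (fun h => hne h.symm)] at h3
    exact h3 h5
  subst hi2
  refine ⟨i, fun j hj => ?_, hn1⟩
  have := h2 j hj
  rwa [nb_other u b hj] at this

lemma exists_of_cnt {n d : ℕ} {Q : (Fin d → ℤ) → Prop} {p : Fin d → ℤ} (h : cnt n Q p = 1) :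
    ∃ δ, InBox n (nb p δ) ∧ Q (nb p δ) := by
  by_contra hcon
  have : cnt n Q p = 0 := cnt_eq_zero (fun δ hδ hQ => hcon ⟨δ, hδ, hQ⟩)
  omega

/-- the sheet of index `k < N - 1` has a passage from the sheet of index `k + 1` -/
theorem exists_Pas_pred {u : Fin f → ℤ} (hu : InBox P.n u) (hE : P.E u)
    (hk : P.h (lo u) + 1 < P.N) :
    ∃ δ, InBox P.n (nb u δ) ∧ P.Pas (nb u δ) ∧ P.H (nb u δ) = P.h (lo u) + 1 ∧
      P.off (nb u δ) = 2 := by
  have hMn := P.hMn
  have h0 := P.E_lo hu hE
  obtain ⟨⟨i, b⟩, h1, h2⟩ := exists_of_cnt (P.h_succ (lo u) h0.1 hk)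
  have hi := h1 i
  rw [nb_self] at hi
  have hui := h0.2.1 i
  have hub := h0.1 i
  have hoth : ∀ j, j ≠ i → P.isE (nb u (i, b) j) := by
    intro j hj
    rw [nb_other u b hj]
    exact hE j
  have hs := P.sum_single hoth
  rw [nb_self] at hs
  refine ⟨(i, b), ?_, ?_⟩
  · intro j
    by_cases hj : j = i
    · subst hj
      rw [nb_self]
      cases b
      · simp only [Bool.false_eq_true, if_false] at hi ⊢; omega
      · simp only [if_true] at hi ⊢; omega
    · rw [nb_other u b hj]
      exact hu j
  · cases b
    · simp only [Bool.false_eq_true, if_false] at hi hs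
      have e1 : lo (nb u (i, false)) = nb (lo u) (i, false) := by
        funext j
        by_cases hj : j = i
        · subst hj
          rw [nb_self]
          unfold lo at hui ⊢
          rw [nb_self]
          simp only [Bool.false_eq_true, if_false]
          omega
        · rw [nb_other _ _ hj]
          unfold lo
          rw [nb_other _ _ hj]
      have e2 : Par.hi (nb u (i, false)) = lo u := by
        funext j
        unfold Par.hi lo
        by_cases hj : j = i
        · subst hj
          rw [nb_self]
          simp only [Bool.false_eq_true, if_false]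
          have := (hE j).1
          omega
        · rw [nb_other _ _ hj]
          have := (hE j).1
          omega
      refine ⟨⟨i, hoth, ?_, ?_, ?_⟩, ?_, ?_⟩
      · rw [nb_self]
        simp only [Bool.false_eq_true, if_false]
        omega
      · rw [nb_self]
        simp only [Bool.false_eq_true, if_false]
        omega
      · rw [e1, e2, h2]
        right; rfl
      · unfold H
        rw [e1, e2, h2]
        exact max_eq_left (by omega)
      · unfold off
        rw [e1, e2, h2, if_pos (by omega), hs]
        omega
    · simp only [if_true] at hi hs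
      have e1 : lo (nb u (i, true)) = lo u := by
        funext j
        unfold lo
        by_cases hj : j = i
        · subst hj
          rw [nb_self]
          simp only [if_true]
          have := (hE j).1
          omega
        · rw [nb_other _ _ hj]
      have e2 : Par.hi (nb u (i, true)) = nb (lo u) (i, true) := by
        funext j
        by_cases hj : j = i
        · subst hj
          rw [nb_self]
          unfold Par.hi lo at *
          rw [nb_self]
          simp only [if_true]
          omega
        · rw [nb_other _ _ hj]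
          unfold Par.hi lo
          rw [nb_other _ _ hj]
          have := (hE j).1
          omega
      refine ⟨⟨i, hoth, ?_, ?_, ?_⟩, ?_, ?_⟩
      · rw [nb_self]
        simp only [if_true]
        omega
      · rw [nb_self]
        simp only [if_true]
        omega
      · rw [e1, e2, h2]
        left; rfl
      · unfold H
        rw [e1, e2, h2]
        exact max_eq_right (by omega)
      · unfold off
        rw [e1, e2, h2, if_neg (by omega), hs]
        omega

/-- the point before a passage point -/
theorem exists_pred_Pas {u : Fin f → ℤ} (hu : InBox P.n u) (hP : P.Pas u) :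
    (P.off u = 1 ∧ ∃ δ, InBox P.n (nb u δ) ∧ P.E (nb u δ) ∧ P.h (lo (nb u δ)) = P.H u) ∨
    (P.off u = 2 ∧ ∃ δ, InBox P.n (nb u δ) ∧ P.Pas (nb u δ) ∧ P.H (nb u δ) = P.H u ∧
      P.off (nb u δ) = 1) := by
  have hMn := P.hMn
  have hrange := P.Pas_range hu hP
  obtain ⟨i, h1, h2, h3, h4⟩ := hP
  have hs := P.sum_single h1
  have hui := hu i
  -- the direction towards the source sheet
  obtain ⟨b, hb1, hb2⟩ : ∃ b : Bool, (b = false ∧ P.h (hi u) < P.h (lo u)) ∨
      (b = true ∧ ¬ P.h (hi u) < P.h (lo u)) ∧ True := by
    by_cases h : P.h (hi u) < P.h (lo u)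
    · exact ⟨false, Or.inl ⟨rfl, h⟩⟩
    · exact ⟨true, Or.inr ⟨⟨rfl, h⟩, trivial⟩⟩
  · -- source `lo`
    subst hb1
    have hoff : P.off u = (u i + 2) % 3 := by unfold off; rw [if_pos hb2, hs]
    have hH : P.H u = P.h (lo u) := by unfold H; exact max_eq_left (by omega)
    have hoth : ∀ j, j ≠ i → P.isE (nb u (i, false) j) := by
      intro j hj
      rw [nb_other u false hj]
      exact h1 j hj
    by_cases ho : P.off u = 1
    · left
      refine ⟨ho, (i, false), ?_, ?_, ?_⟩
      · intro j
        by_cases hj : j = i
        · subst hj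
          rw [nb_self]
          simp only [Bool.false_eq_true, if_false]
          omega
        · rw [nb_other u false hj]
          exact hu j
      · intro j
        by_cases hj : j = i
        · subst hj
          rw [nb_self]
          simp only [Bool.false_eq_true, if_false]
          unfold isE
          omega
        · exact hoth j hj
      · rw [hH]
        congr 1
        funext j
        unfold lo
        by_cases hj : j = i
        · subst hj
          rw [nb_self]
          simp only [Bool.false_eq_true, if_false]
          omega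
        · rw [nb_other _ _ hj]
    · right
      have h2' : nb u (i, false) i % 3 ≠ 1 := by
        rw [nb_self]
        simp only [Bool.false_eq_true, if_false]
        omega
      have hc := same_cell h2 h2'
      have hs' := P.sum_single hoth
      rw [nb_self] at hs'
      simp only [Bool.false_eq_true, if_false] at hs'
      refine ⟨by omega, (i, false), ?_, ⟨i, hoth, h2', ?_, ?_⟩, ?_, ?_⟩
      · intro j
        by_cases hj : j = i
        · subst hj
          rw [nb_self]
          simp only [Bool.false_eq_true, if_false]
          omega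
        · rw [nb_other u false hj]
          exact hu j
      · rw [nb_self]
        simp only [Bool.false_eq_true, if_false]
        omega
      · rw [hc.1, hc.2]; exact h4
      · unfold H
        rw [hc.1, hc.2]
      · unfold off
        rw [hc.1, hc.2, if_pos hb2, hs']
        omega
  · -- source `hi`
    rename_i hb
    obtain ⟨⟨hb1, hb2⟩, -⟩ := hb
    subst hb1
    have hoff : P.off u = 3 - (u i + 2) % 3 := by unfold off; rw [if_neg hb2, hs]
    have hH : P.H u = P.h (hi u) := by unfold H; exact max_eq_right (by omega)
    have hoth : ∀ j, j ≠ i → P.isE (nb u (i, true) j) := by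
      intro j hj
      rw [nb_other u true hj]
      exact h1 j hj
    by_cases ho : P.off u = 1
    · left
      refine ⟨ho, (i, true), ?_, ?_, ?_⟩
      · intro j
        by_cases hj : j = i
        · subst hj
          rw [nb_self]
          simp only [if_true]
          omega
        · rw [nb_other u true hj]
          exact hu j
      · intro j
        by_cases hj : j = i
        · subst hj
          rw [nb_self]
          simp only [if_true]
          unfold isE
          omega
        · exact hoth j hj
      · rw [hH]
        congr 1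
        funext j
        unfold lo hi
        by_cases hj : j = i
        · subst hj
          rw [nb_self]
          simp only [if_true]
          omega
        · rw [nb_other _ _ hj]
          have := (h1 j hj).1
          omega
    · right
      have h2' : nb u (i, true) i % 3 ≠ 1 := by
        rw [nb_self]
        simp only [if_true]
        omega
      have hc := same_cell h2 h2'
      have hs' := P.sum_single hoth
      rw [nb_self] at hs'
      simp only [if_true] at hs'
      refine ⟨by omega, (i, true), ?_, ⟨i, hoth, h2', ?_, ?_⟩, ?_, ?_⟩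
      · intro j
        by_cases hj : j = i
        · subst hj
          rw [nb_self]
          simp only [if_true]
          omega
        · rw [nb_other u true hj]
          exact hu j
      · rw [nb_self]
        simp only [if_true]
        omega
      · rw [hc.1, hc.2]; exact h4
      · unfold H
        rw [hc.1, hc.2]
      · unfold off
        rw [hc.1, hc.2, if_neg hb2, hs']
        omega

end Par

end Pool.Agent.Lib.MP_1a3405_co.Ord
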