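import Mathlib
import Pool.Agent.Lib.MP_1a3405_co.Ord.Plane
import Pool.Agent.Lib.MP_1a3405_co.Ord.Upart

/-!
The times of the points of the base structure.
-/

namespace Pool.Agent.Lib.MP_1a3405_co.Ord

open Pool.Agent.Lib.MP_1a3405_co

namespace Par

variable {f : ℕ} (P : Par f)

lemma m2_pos : 22 ≤ P.m2 := by
  have h1 := P.hn
  have h2 := P.hJ
  unfold m2
  have h3 : (12 : ℤ) ≤ P.n := by exact_mod_cast h1
  have h4 : (2 : ℤ) ≤ P.J := by exact_mod_cast h2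
  nlinarith

lemma px_mem (k : ℤ) : P.px k = 2 ∨ P.px k = 2 * P.J := by
  unfold px
  split_ifs
  · right; rfl
  · left; rfl

lemma τ3_late {x y : ℤ} {u : Fin f → ℤ} (h1 : ¬ P.WS x y u) (h2 : ¬ P.WP x y u) :
    P.τ3 x y u = P.s + 1 := by
  rw [τ3, if_neg h1, if_neg h2]

lemma τ3_WS {x y : ℤ} {u : Fin f → ℤ} (h : P.WS x y u) :
    P.τ3 x y u = (P.N - 1 - P.h (lo u)) * P.per +
    (if P.h (lo u) % 2 = 1 then P.t2 x y else P.m2 - P.t2 x y) := by
  rw [τ3, if_pos h]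

lemma τ3_WP {x y : ℤ} {u : Fin f → ℤ} (h : P.WP x y u) :
    P.τ3 x y u = (P.N - 1 - P.H u) * P.per + P.m2 + P.off u := by
  rw [τ3, if_neg (fun h' => P.not_E_of_Pas h.1 h'.1), if_pos h]

lemma not_WS_WP_right {x y : ℤ} {u : Fin f → ℤ} (hx : (P.n : ℤ) - 1 ≤ x) :
    ¬ P.WS x y u ∧ ¬ P.WP x y u := by
  have hJn := P.hJn
  have hJ := P.hJ
  constructor
  · rintro ⟨-, h1, h2⟩
    rcases h2 with ⟨h2, -⟩ | ⟨-, h2, -⟩
    · omega
    · have := P.P2_range h2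
      omega
  · rintro ⟨-, h1, -⟩
    rcases P.px_mem (P.H u) with h | h <;> omega

lemma two_le_N' : 2 ≤ P.N := by
  have h1 := P.h_range P.c0 P.c0_box
  have h2 := P.hN
  unfold N
  omega

/-- the wire in the sheet of index `k ≥ 1` -/
lemma wireS_pos {k x y : ℤ} (hk : 1 ≤ k) :
    P.wireS k x y ↔ P.P2 x y ∧ ¬ (k = P.N - 1 ∧ x = 2 ∧ y = 1) := by
  unfold wireS
  constructor
  · rintro (⟨h, -⟩ | ⟨-, h⟩)
    · omega
    · exact h
  · intro h
    exact Or.inr ⟨by omega, h⟩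

theorem range' (p : Fin (f + 2) → ℤ) (hp : InBox P.n p) :
    P.side.τ p ≤ P.s + 1 ∧ (¬ P.side.T p → 1 ≤ P.side.τ p) := by
  obtain ⟨x, y, u, rfl⟩ := exists_pt p
  rw [inBox_pt] at hp
  obtain ⟨hx, hy, hu⟩ := hp
  rw [side_τ]
  have hm := P.m2_pos
  have hper : P.per = P.m2 + 3 := rfl
  by_cases h1 : P.WS x y u
  · rw [P.τ3_WS h1]
    obtain ⟨hE, hk, hw⟩ := h1
    have hk2 := P.h_lo_range hu hE
    have hP2 := (P.wireS_pos hk).1 hw
    have ht := P.t2_range hP2.1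
    have hNe := P.N_even
    have e0 := P.t2_eq_zero hP2.1
    have e2 := P.t2_eq_m2 hP2.1
    set k := P.h (lo u) with hkdef
    have hs : P.s = (P.N - 1) * P.per - 1 := rfl
    have a1 : 0 ≤ (P.N - 1 - k) * P.per := mul_nonneg (by omega) (by omega)
    have a2 : (P.N - 1 - k) * P.per ≤ (P.N - 2) * P.per :=
      mul_le_mul_of_nonneg_right (by omega) (by omega)
    have a3 : (P.N - 1) * P.per = (P.N - 2) * P.per + P.per := by ring
    by_cases hkN : k = P.N - 1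
    · have hodd : k % 2 = 1 := by omega
      rw [if_pos hodd]
      have : P.t2 x y ≠ 0 := fun h => hP2.2 ⟨hkN, e0.1 h⟩
      refine ⟨by omega, fun _ => by omega⟩
    · have a4 : P.per ≤ (P.N - 1 - k) * P.per := by
        have : 1 * P.per ≤ (P.N - 1 - k) * P.per :=
          mul_le_mul_of_nonneg_right (by omega) (by omega)
        omega
      split_ifs <;> exact ⟨by omega, fun _ => by omega⟩
  · by_cases h2 : P.WP x y u
    · rw [P.τ3_WP h2]
      have hr := P.Pas_range hu h2.1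
      have hs : P.s = (P.N - 1) * P.per - 1 := rfl
      set k := P.H u with hkdef
      have a1 : 0 ≤ (P.N - 1 - k) * P.per := mul_nonneg (by omega) (by omega)
      have a2 : (P.N - 1 - k) * P.per ≤ (P.N - 2) * P.per :=
        mul_le_mul_of_nonneg_right (by omega) (by omega)
      have a3 : (P.N - 1) * P.per = (P.N - 2) * P.per + P.per := by ring
      refine ⟨by omega, fun _ => by omega⟩
    · rw [P.τ3_late h1 h2]
      have hs : P.s = (P.N - 1) * P.per - 1 := rfl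
      have hN := P.two_le_N'
      have a2 : 1 * P.per ≤ (P.N - 1) * P.per :=
        mul_le_mul_of_nonneg_right (by omega) (by omega)
      refine ⟨by omega, fun _ => by omega⟩

lemma τ3_le {x y : ℤ} {u : Fin f → ℤ} (hx : 1 ≤ x ∧ x ≤ P.n) (hy : 1 ≤ y ∧ y ≤ P.n)
    (hu : InBox P.n u) : P.τ3 x y u ≤ P.s + 1 := by
  have := (P.range' (pt x y u) (by rw [inBox_pt]; exact ⟨hx, hy, hu⟩)).1
  rwa [side_τ] at this

lemma not_E_of_Spine {u : Fin f → ℤ} (h : P.Spine u) : ¬ P.E u := by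
  obtain ⟨i, -, h⟩ := h
  exact fun hE => h (hE i)

/-- the initially infected points of a sheet -/
lemma T3_E {x y : ℤ} {u : Fin f → ℤ} (hE : P.E u) (hx : x ≤ P.n - 2) :
    P.T3 x y u ↔ ¬ P.wireS (P.h (lo u)) x y := by
  constructor
  · rintro (h | ⟨h, -⟩ | ⟨-, -, h⟩ | ⟨-, h, -⟩ | ⟨h, -, -⟩)
    · omega
    · omega
    · exact h
    · exact absurd hE (P.not_E_of_Spine h)
    · exact absurd hE (P.not_E_of_Pas h)
  · intro h
    exact Or.inr (Or.inr (Or.inl ⟨hx, hE, h⟩))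

/-- the initially infected points outside of the sheets -/
lemma T3_not_E {x y : ℤ} {u : Fin f → ℤ} (hE : ¬ P.E u) (hx : x ≤ P.n - 2) :
    P.T3 x y u ↔ (P.Spine u ∧ y = P.n) ∨
      (P.Pas u ∧ y = 1 ∧ (x = P.px (P.H u) + 1 ∨ x = P.px (P.H u) - 1)) := by
  constructor
  · rintro (h | ⟨h, -⟩ | ⟨-, h, -⟩ | ⟨-, h⟩ | h)
    · omega
    · omega
    · exact absurd h hE
    · exact Or.inl h
    · exact Or.inr h
  · rintro (h | h)
    · exact Or.inr (Or.inr (Or.inr (Or.inl ⟨hx, h⟩)))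
    · exact Or.inr (Or.inr (Or.inr (Or.inr h)))

/-- a neighbour of a sheet is not in a sheet -/
lemma not_E_nb {u : Fin f → ℤ} {δ : Fin f × Bool} (hE : P.E u) : ¬ P.E (nb u δ) := by
  obtain ⟨i, b⟩ := δ
  intro h
  exact P.not_isE_nb b (hE i) (h i)

/-- exit port -/
lemma τ3_exit {x y : ℤ} {u : Fin f → ℤ} (hE : P.E u) (hk : 1 ≤ P.h (lo u))
    (hx : x = P.px (P.h (lo u))) (hy : y = 1) (hu : InBox P.n u) :
    P.WS x y u ∧ P.τ3 x y u = (P.N - 1 - P.h (lo u)) * P.per + P.m2 := by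
  have hJ := P.hJ
  have hJ2 := P.hJ2
  have hN := P.N_even
  have hk2 := P.h_lo_range hu hE
  subst hy
  have hP2 : P.P2 x 1 := by
    unfold P2
    rcases P.px_mem (P.h (lo u)) with h | h
    · omega
    · omega
  have hw : P.wireS (P.h (lo u)) x 1 := by
    rw [P.wireS_pos hk]
    refine ⟨hP2, ?_⟩
    rintro ⟨h1, h2, -⟩
    rw [hx, px, if_pos (by omega)] at h2
    omega
  have hWS : P.WS x 1 u := ⟨hE, hk, hw⟩
  refine ⟨hWS, ?_⟩
  rw [P.τ3_WS hWS]
  congr 1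
  split_ifs with h
  · rw [(P.t2_eq_m2 hP2).2 ⟨by rw [hx, px, if_pos h], rfl⟩]
  · rw [(P.t2_eq_zero hP2).2 ⟨by rw [hx, px, if_neg h], rfl⟩]
    ring

/-- entry port -/
lemma τ3_entry {x y : ℤ} {u : Fin f → ℤ} (hE : P.E u) (hk : 1 ≤ P.h (lo u))
    (hk2 : P.h (lo u) + 1 < P.N)
    (hx : x = P.px (P.h (lo u) + 1)) (hy : y = 1) :
    P.WS x y u ∧ P.τ3 x y u = (P.N - 1 - P.h (lo u)) * P.per := by
  have hJ := P.hJ
  have hJ2 := P.hJ2
  subst hy
  have hP2 : P.P2 x 1 := by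
    unfold P2
    rcases P.px_mem (P.h (lo u) + 1) with h | h
    · omega
    · omega
  have hw : P.wireS (P.h (lo u)) x 1 := by
    rw [P.wireS_pos hk]
    exact ⟨hP2, fun h => by omega⟩
  have hWS : P.WS x 1 u := ⟨hE, hk, hw⟩
  refine ⟨hWS, ?_⟩
  rw [P.τ3_WS hWS]
  split_ifs with h
  · rw [(P.t2_eq_zero hP2).2 ⟨by rw [hx, px, if_neg (by omega)], rfl⟩]
    ring
  · rw [(P.t2_eq_m2 hP2).2 ⟨by rw [hx, px, if_pos (by omega)], rfl⟩]
    ring

end Par

end Pool.Agent.Lib.MP_1a3405_co.Ord
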