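import Mathlib
import Pool.Agent.Lib.MP_1a3405_co.Ord.Times

/-!
The local condition at the wires of the sheets.
-/

namespace Pool.Agent.Lib.MP_1a3405_co.Ord

open Pool.Agent.Lib.MP_1a3405_co

namespace Par

variable {f : ℕ} (P : Par f)

lemma ite_le_ite {p q : Prop} [Decidable p] [Decidable q] (h : p → q) :
    (if p then 1 else 0 : ℕ) ≤ (if q then 1 else 0 : ℕ) := by
  by_cases hp : p
  · rw [if_pos hp, if_pos (h hp)]
  · rw [if_neg hp]; exact Nat.zero_le _

lemma four_le {a b c d a' b' c' d' : Prop} [Decidable a] [Decidable b] [Decidable c] [Decidable d]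
    [Decidable a'] [Decidable b'] [Decidable c'] [Decidable d'] (ha : a → a') (hb : b → b')
    (hc : c → c') (hd : d → d')
    (h : (if a' then 1 else 0) + (if b' then 1 else 0) + (if c' then 1 else 0) +
      (if d' then 1 else 0) = 2) :
    (if a then 1 else 0) + (if b then 1 else 0) +
      ((if c then 1 else 0) + (if d then 1 else 0) + 0) ≤ 2 := by
  have h1 := ite_le_ite ha
  have h2 := ite_le_ite hb
  have h3 := ite_le_ite hc
  have h4 := ite_le_ite hd
  omega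

/-- wires stay below the top row -/
lemma wireS_range {k x y : ℤ} (h : P.wireS k x y) :
    2 ≤ x ∧ 1 ≤ y ∧ y ≤ P.n - 1 ∧ (y = 1 → x = 2 ∨ x = 2 * P.J) := by
  have hn := P.hn
  have hJ := P.hJ
  rcases h with ⟨-, h⟩ | ⟨-, h, -⟩
  · omega
  · unfold P2 at h
    omega

/-- the points above and below (in the directions of `u`) of a wire do not count -/
lemma star_sheet_u {x y : ℤ} {u : Fin f → ℤ} (hx : 1 ≤ x ∧ x ≤ P.n - 2)
    (hy : 1 ≤ y ∧ y ≤ P.n) (hu : InBox P.n u) (hE : P.E u)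
    (hw : P.wireS (P.h (lo u)) x y) {δ : Fin f × Bool} (hδ : InBox P.n (nb u δ)) :
    ¬ (P.T3 x y (nb u δ) ∨ P.τ3 x y (nb u δ) + 2 ≤ P.τ3 x y u) := by
  have hn := P.hn
  have hJ := P.hJ
  have hr := P.wireS_range hw
  have hnE : ¬ P.E (nb u δ) := P.not_E_nb hE
  rintro (h | h)
  · rw [P.T3_not_E hnE hx.2] at h
    rcases h with ⟨-, h⟩ | ⟨-, h1, h2⟩
    · omega
    · have h3 := hr.2.2.2 h1
      rcases P.px_mem (P.H (nb u δ)) with h4 | h4 <;> omega
  · by_cases hWP : P.WP x y (nb u δ)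
    · rw [P.τ3_WP hWP] at h
      obtain ⟨hPas, hx1, hy1⟩ := hWP
      have hPr := P.Pas_range hδ hPas
      have hper : P.per = P.m2 + 3 := rfl
      rcases P.E_Pas hu hδ hE hPas with ⟨h1, h2⟩ | ⟨h1, h2⟩
      · have h3 := P.τ3_exit (x := x) (y := y) hE (by omega) (by rw [h1]; exact hx1) hy1 hu
        rw [h3.2, h1] at h
        omega
      · by_cases hk0 : P.h (lo u) = 0
        · have h3 : P.τ3 x y u = P.s + 1 :=
            P.τ3_late (fun h => by have := h.2.1; omega) (fun h => P.not_E_of_Pas h.1 hE)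
          have h4 : P.H (nb u δ) = 1 := by omega
          rw [h3, h4, h2] at h
          have hs : P.s = (P.N - 1) * P.per - 1 := rfl
          have h5 : (P.N - 1) * P.per = (P.N - 1 - 1) * P.per + P.per := by ring
          omega
        · have hk := P.h_lo_range hu hE
          have h3 := P.τ3_entry (x := x) (y := y) hE (by omega) (by omega)
            (by rw [h1, show P.H (nb u δ) - 1 + 1 = P.H (nb u δ) by ring]; exact hx1) hy1
          rw [h3.2, h1] at h
          have h5 : (P.N - 1 - (P.H (nb u δ) - 1)) * P.per =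
            (P.N - 1 - P.H (nb u δ)) * P.per + P.per := by ring
          omega
    · rw [P.τ3_late (fun h => hnE h.1) hWP] at h
      have := P.τ3_le (x := x) (y := y) (by omega) hy hu
      omega

/-- a neighbour in the sheet which is a wire point does not count -/
lemma star_sheet_plane {x y x' y' : ℤ} {u : Fin f → ℤ} (hE : P.E u) (hk : 1 ≤ P.h (lo u))
    (hw : P.WS x y u) (hP2 : P.P2 x' y')
    (hne : ¬ (P.h (lo u) = P.N - 1 ∧ x' = 2 ∧ y' = 1))
    (ht : P.t2 x' y' = P.t2 x y + 1 ∨ P.t2 x' y' = P.t2 x y - 1) :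
    ¬ (P.T3 x' y' u ∨ P.τ3 x' y' u + 2 ≤ P.τ3 x y u) := by
  have hr := P.P2_range hP2
  have hJn := P.hJn
  have hw' : P.wireS (P.h (lo u)) x' y' := (P.wireS_pos hk).2 ⟨hP2, hne⟩
  rintro (h | h)
  · rw [P.T3_E hE (by omega)] at h
    exact h hw'
  · rw [P.τ3_WS hw, P.τ3_WS ⟨hE, hk, hw'⟩] at h
    split_ifs at h <;> omega

/-- OM-FS1: wire points in the sheets -/
theorem star_sheet {x y : ℤ} {u : Fin f → ℤ} (hx : 1 ≤ x ∧ x ≤ P.n - 2) (hy : 1 ≤ y ∧ y ≤ P.n)
    (hu : InBox P.n u) (hE : P.E u) (hw : P.wireS (P.h (lo u)) x y)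
    (hne : pt x y u ≠ P.side.w) :
    cnt P.n (fun q => P.side.T q ∨ P.side.τ q + 2 ≤ P.τ3 x y u) (pt x y u) ≤ 2 := by
  classical
  have hn := P.hn
  have hJ := P.hJ
  have hJn := P.hJn
  have hr := P.wireS_range hw
  have hkr := P.h_lo_range hu hE
  rw [cnt_pt (by omega) hy hu]
  have hU : cnt P.n (fun u' => P.side.T (pt x y u') ∨
      P.side.τ (pt x y u') + 2 ≤ P.τ3 x y u) u = 0 := by
    apply cnt_eq_zero
    intro δ hδ
    exact P.star_sheet_u hx hy hu hE hw hδ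
  rw [hU]
  simp only [side_T, side_τ]
  by_cases hk : P.h (lo u) = 0
  · -- the last sheet
    have hlate : ∀ x' y', P.τ3 x' y' u = P.s + 1 := by
      intro x' y'
      exact P.τ3_late (fun h => by have := h.2.1; omega) (fun h => P.not_E_of_Pas h.1 hE)
    have hQ : ∀ x' y' : ℤ, x' ≤ P.n - 1 → 2 ≤ y' ∨ x' ≤ P.n - 2 →
        (x' = P.n - 1 ∨ P.wireS 0 x' y') →
        ¬ (P.T3 x' y' u ∨ P.τ3 x' y' u + 2 ≤ P.τ3 x y u) := by
      intro x' y' h1 h1' h2
      rintro (h | h)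
      · rcases h2 with h2 | h2
        · rcases h with h | ⟨-, h, -⟩ | ⟨h, -⟩ | ⟨h, -⟩ | ⟨h, -, -⟩
          · omega
          · omega
          · omega
          · omega
          · exact P.not_E_of_Pas h hE
        · by_cases h3 : x' ≤ P.n - 2
          · rw [P.T3_E hE h3, hk] at h
            exact h h2
          · rcases h with h | ⟨-, h, -⟩ | ⟨h, -⟩ | ⟨h, -⟩ | ⟨h, -, -⟩
            · omega
            · omega
            · omega
            · omega
            · exact P.not_E_of_Pas h hE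
      · rw [hlate, hlate] at h
        omega
    rw [hk] at hw
    have hw2 : (x = 2 * P.J ∧ 1 ≤ y ∧ y ≤ 2) ∨ (y = 2 ∧ 2 * P.J ≤ x ∧ x ≤ P.n - 2) := by
      rcases hw with ⟨-, h⟩ | ⟨h, -⟩
      · exact h
      · exact absurd rfl h
    by_cases hy1 : y = 1
    · have hx2 : x = 2 * P.J := by omega
      have e : ¬ (y + 1 ≤ P.n ∧ (P.T3 x (y + 1) u ∨ P.τ3 x (y + 1) u + 2 ≤ P.τ3 x y u)) := by
        rintro ⟨-, h⟩
        exact hQ x (y + 1) (by omega) (by omega) (Or.inr (Or.inl ⟨rfl, Or.inl ⟨hx2, by omega, by omega⟩⟩)) h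
      rw [if_neg e, if_neg (show ¬ (1 ≤ y - 1 ∧ _) from fun h => by omega)]
      split_ifs <;> omega
    · have hy2 : y = 2 := by omega
      by_cases hx2 : x = 2 * P.J
      · have e1 : ¬ (1 ≤ y - 1 ∧ (P.T3 x (y - 1) u ∨ P.τ3 x (y - 1) u + 2 ≤ P.τ3 x y u)) := by
          rintro ⟨-, h⟩
          exact hQ x (y - 1) (by omega) (by omega) (Or.inr (Or.inl ⟨rfl, Or.inl ⟨hx2, by omega, by omega⟩⟩)) h
        have e2 : ¬ (x + 1 ≤ P.n ∧ (P.T3 (x + 1) y u ∨ P.τ3 (x + 1) y u + 2 ≤ P.τ3 x y u)) := by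
          rintro ⟨-, h⟩
          exact hQ (x + 1) y (by omega) (by omega) (Or.inr (Or.inl ⟨rfl, Or.inr ⟨by omega, by omega, by omega⟩⟩)) h
        rw [if_neg e1, if_neg e2]
        split_ifs <;> omega
      · have e1 : ¬ (1 ≤ x - 1 ∧ (P.T3 (x - 1) y u ∨ P.τ3 (x - 1) y u + 2 ≤ P.τ3 x y u)) := by
          rintro ⟨-, h⟩
          exact hQ (x - 1) y (by omega) (by omega) (Or.inr (Or.inl ⟨rfl, Or.inr ⟨by omega, by omega, by omega⟩⟩)) h
        have e2 : ¬ (x + 1 ≤ P.n ∧ (P.T3 (x + 1) y u ∨ P.τ3 (x + 1) y u + 2 ≤ P.τ3 x y u)) := by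
          rintro ⟨-, h⟩
          by_cases h3 : x + 1 = P.n - 1
          · exact hQ (x + 1) y (by omega) (by omega) (Or.inl h3) h
          · exact hQ (x + 1) y (by omega) (by omega) (Or.inr (Or.inl ⟨rfl, Or.inr ⟨by omega, by omega, by omega⟩⟩)) h
        rw [if_neg e1, if_neg e2]
        split_ifs <;> omega
  · -- a general sheet
    have hk1 : 1 ≤ P.h (lo u) := by omega
    have hWS : P.WS x y u := ⟨hE, hk1, hw⟩
    obtain ⟨hP2, hP2'⟩ := (P.wireS_pos hk1).1 hw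
    have hr2 := P.P2_range hP2
    have hnot22 : ¬ (P.h (lo u) = P.N - 1 ∧ x = 2 ∧ y = 2) := by
      rintro ⟨h1, h2, h3⟩
      apply hne
      rw [side_w, h2, h3, (P.h_lo_last hu hE).1 h1]
    have hwalls := P.P2_walls hP2
    have e1 : (x + 1 ≤ P.n ∧ (P.T3 (x + 1) y u ∨ P.τ3 (x + 1) y u + 2 ≤ P.τ3 x y u)) →
        ¬ P.P2 (x + 1) y := by
      rintro ⟨-, h⟩ h'
      exact P.star_sheet_plane hE hk1 hWS h' (fun h => by omega) (P.P2_adj_x hP2 h') h
    have e2 : (1 ≤ x - 1 ∧ (P.T3 (x - 1) y u ∨ P.τ3 (x - 1) y u + 2 ≤ P.τ3 x y u)) →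
        ¬ P.P2 (x - 1) y := by
      rintro ⟨-, h⟩ h'
      have h1 : P.P2 (x - 1 + 1) y := by rwa [show x - 1 + 1 = x by ring]
      have h2 := P.P2_adj_x h' h1
      rw [show x - 1 + 1 = x by ring] at h2
      refine P.star_sheet_plane hE hk1 hWS h' ?_ (by omega) h
      rintro ⟨h3, h4, h5⟩
      have : x = 3 := by omega
      rw [this, h5] at hP2
      unfold P2 at hP2
      omega
    have e3 : (y + 1 ≤ P.n ∧ (P.T3 x (y + 1) u ∨ P.τ3 x (y + 1) u + 2 ≤ P.τ3 x y u)) →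
        ¬ P.P2 x (y + 1) := by
      rintro ⟨-, h⟩ h'
      exact P.star_sheet_plane hE hk1 hWS h' (fun h => by omega) (P.P2_adj_y hP2 h') h
    have e4 : (1 ≤ y - 1 ∧ (P.T3 x (y - 1) u ∨ P.τ3 x (y - 1) u + 2 ≤ P.τ3 x y u)) →
        (1 ≤ y - 1 ∧ ¬ P.P2 x (y - 1)) := by
      rintro ⟨h0, h⟩
      refine ⟨h0, fun h' => ?_⟩
      have h1 : P.P2 x (y - 1 + 1) := by rwa [show y - 1 + 1 = y by ring]
      have h2 := P.P2_adj_y h' h1
      rw [show y - 1 + 1 = y by ring] at h2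
      refine P.star_sheet_plane hE hk1 hWS h' ?_ (by omega) h
      rintro ⟨h3, h4, h5⟩
      exact hnot22 ⟨h3, h4, by omega⟩
    exact four_le e1 e2 e3 e4 hwalls

end Par

end Pool.Agent.Lib.MP_1a3405_co.Ord
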