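import Mathlib
import Pool.Agent.Lib.MP_1a3405_co.Ord.FS1

/-!
Percolation of the base structure, first part: the wires get infected.
-/

namespace Pool.Agent.Lib.MP_1a3405_co.Ord

open Pool.Agent.Lib.MP_1a3405_co

namespace Par

variable {f : ℕ} (P : Par f)

lemma one_le_cnt {n d : ℕ} {Q : (Fin d → ℤ) → Prop} {p : Fin d → ℤ} {δ : Fin d × Bool}
    (h1 : InBox n (nb p δ)) (h2 : Q (nb p δ)) : 1 ≤ cnt n Q p := by
  have := le_cnt_of_subset (n := n) (Q := Q) (p := p) {δ} (by
    intro δ' hδ'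
    rw [Finset.mem_singleton] at hδ'
    subst hδ'
    exact ⟨h1, h2⟩)
  simpa using this

lemma four_ge {a b c d a' b' c' d' : Prop} [Decidable a] [Decidable b] [Decidable c] [Decidable d]
    [Decidable a'] [Decidable b'] [Decidable c'] [Decidable d'] {U : ℕ} (ha : a' → a) (hb : b' → b)
    (hc : c' → c) (hd : d' → d)
    (h : (if a' then 1 else 0) + (if b' then 1 else 0) + (if c' then 1 else 0) +
      (if d' then 1 else 0) = 2)
    (h3 : 1 ≤ U ∨ (a ∧ ¬ a') ∨ (b ∧ ¬ b') ∨ (c ∧ ¬ c') ∨ (d ∧ ¬ d')) :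
    3 ≤ (if a then 1 else 0) + (if b then 1 else 0) +
      ((if c then 1 else 0) + (if d then 1 else 0) + U) := by
  have h1 := ite_le_ite ha
  have h2 := ite_le_ite hb
  have h4 := ite_le_ite hc
  have h5 := ite_le_ite hd
  rcases h3 with h3 | ⟨h3, h3'⟩ | ⟨h3, h3'⟩ | ⟨h3, h3'⟩ | ⟨h3, h3'⟩
  · omega
  · rw [if_neg h3'] at h h1
    rw [if_pos h3] at h1 ⊢
    omega
  · rw [if_neg h3'] at h h2
    rw [if_pos h3] at h2 ⊢
    omega
  · rw [if_neg h3'] at h h4
    rw [if_pos h3] at h4 ⊢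
    omega
  · rw [if_neg h3'] at h h5
    rw [if_pos h3] at h5 ⊢
    omega

/-- OM-FP1 -/
theorem perc_wire (_ : 1 ≤ f) (U : (Fin (f + 2) → ℤ) → Prop)
    (hU : ∀ p, U p → InBox P.n p ∧ ¬ P.side.T p ∧ cnt P.n (fun q => ¬ U q) p < 3)
    {x y : ℤ} {u : Fin f → ℤ} (hw : P.WS x y u ∨ P.WP x y u) : ¬ U (pt x y u) := by
  classical
  have hn := P.hn
  have hJ := P.hJ
  have hJn := P.hJn
  have hper : P.per = P.m2 + 3 := rfl
  have hTU : ∀ {x y : ℤ} {u : Fin f → ℤ}, P.T3 x y u → ¬ U (pt x y u) :=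
    fun h hu => (hU _ hu).2.1 h
  have key : ∀ k : ℕ, ∀ (x y : ℤ) (u : Fin f → ℤ), (P.τ3 x y u).toNat = k →
      (P.WS x y u ∨ P.WP x y u) → ¬ U (pt x y u) := by
    intro k
    induction k using Nat.strong_induction_on with
    | _ k ih =>
      intro x y u hk hw hUp
      obtain ⟨hb, hT, hcnt⟩ := hU _ hUp
      have hpos := (P.range' _ hb).2 hT
      rw [side_τ] at hpos
      rw [inBox_pt] at hb
      obtain ⟨hx, hy, hu⟩ := hb
      have ih' : ∀ (x' y' : ℤ) (u' : Fin f → ℤ), P.τ3 x' y' u' = P.τ3 x y u - 1 →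
          (P.WS x' y' u' ∨ P.WP x' y' u') → ¬ U (pt x' y' u') := by
        intro x' y' u' h1 h2
        exact ih (P.τ3 x' y' u').toNat (by omega) x' y' u' rfl h2
      rcases hw with hw | hw
      · -- a point of a sheet
        obtain ⟨V, hV⟩ : ∃ V : (Fin (f + 2) → ℤ) → Prop, ∀ q, V q ↔ ¬ U q :=
          ⟨fun q => ¬ U q, fun _ => Iff.rfl⟩
        rw [cnt_congr (fun δ _ => (hV (nb (pt x y u) δ)).symm), cnt_pt hx hy hu] at hcnt
        obtain ⟨hE, hk1, hwS⟩ := hw
        have hWS : P.WS x y u := ⟨hE, hk1, hwS⟩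
        obtain ⟨hP2, hP2'⟩ := (P.wireS_pos hk1).1 hwS
        have hr2 := P.P2_range hP2
        have hkr := P.h_lo_range hu hE
        have hNe := P.N_even
        have hτ := P.τ3_WS hWS
        have hwalls := P.P2_walls hP2
        have hnot : ∀ {x' y' : ℤ}, x' ≤ P.n - 2 → ¬ P.P2 x' y' → ¬ U (pt x' y' u) := by
          intro x' y' h1 h2
          apply hTU
          rw [P.T3_E hE h1, P.wireS_pos hk1]
          exact fun h => h2 h.1
        have e1 : ¬ P.P2 (x + 1) y → (x + 1 ≤ P.n ∧ V (pt (x + 1) y u)) :=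
          fun h => ⟨by omega, (hV _).2 (hnot (by omega) h)⟩
        have e2 : ¬ P.P2 (x - 1) y → (1 ≤ x - 1 ∧ V (pt (x - 1) y u)) :=
          fun h => ⟨by omega, (hV _).2 (hnot (by omega) h)⟩
        have e3 : ¬ P.P2 x (y + 1) → (y + 1 ≤ P.n ∧ V (pt x (y + 1) u)) :=
          fun h => ⟨by omega, (hV _).2 (hnot (by omega) h)⟩
        have e4 : (1 ≤ y - 1 ∧ ¬ P.P2 x (y - 1)) → (1 ≤ y - 1 ∧ V (pt x (y - 1) u)) :=
          fun h => ⟨h.1, (hV _).2 (hnot (by omega) h.2)⟩
        -- a neighbour on the wire with time one less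
        have hpl : ∀ {x' y' : ℤ}, P.P2 x' y' →
            ((P.h (lo u) % 2 = 1 ∧ P.t2 x' y' = P.t2 x y - 1) ∨
              (P.h (lo u) % 2 = 0 ∧ P.t2 x' y' = P.t2 x y + 1)) → ¬ U (pt x' y' u) := by
          intro x' y' h1 h2
          have hr' := P.P2_range h1
          by_cases h3 : P.h (lo u) = P.N - 1 ∧ x' = 2 ∧ y' = 1
          · apply hTU
            rw [P.T3_E hE (by omega), P.wireS_pos hk1]
            exact fun h => h.2 h3
          · have h4 : P.WS x' y' u := ⟨hE, hk1, (P.wireS_pos hk1).2 ⟨h1, h3⟩⟩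
            apply ih' x' y' u _ (Or.inl h4)
            rw [hτ, P.τ3_WS h4]
            split_ifs <;> omega
        have h3 : 1 ≤ cnt P.n (fun u' => V (pt x y u')) u ∨
            ((x + 1 ≤ P.n ∧ V (pt (x + 1) y u)) ∧ ¬ ¬ P.P2 (x + 1) y) ∨
            ((1 ≤ x - 1 ∧ V (pt (x - 1) y u)) ∧ ¬ ¬ P.P2 (x - 1) y) ∨
            ((y + 1 ≤ P.n ∧ V (pt x (y + 1) u)) ∧ ¬ ¬ P.P2 x (y + 1)) ∨
            ((1 ≤ y - 1 ∧ V (pt x (y - 1) u)) ∧ ¬ (1 ≤ y - 1 ∧ ¬ P.P2 x (y - 1))) := by
          rcases Int.emod_two_eq_zero_or_one (P.h (lo u)) with hpar | hpar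
          · -- even index
            by_cases h0 : P.t2 x y < P.m2
            · right
              rcases P.P2_succ hP2 h0 with ⟨h1, h2⟩ | ⟨h1, h2⟩ | ⟨h1, h2⟩ | ⟨h1, h2⟩
              · exact Or.inl ⟨⟨by omega, (hV _).2 <| hpl h1 (Or.inr ⟨hpar, h2⟩)⟩, fun h => h h1⟩
              · have := P.P2_range h1
                exact Or.inr (Or.inl ⟨⟨by omega, (hV _).2 <| hpl h1 (Or.inr ⟨hpar, h2⟩)⟩, fun h => h h1⟩)
              · exact Or.inr (Or.inr (Or.inl ⟨⟨by omega, (hV _).2 <| hpl h1 (Or.inr ⟨hpar, h2⟩)⟩,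
                  fun h => h h1⟩))
              · have := P.P2_range h1
                exact Or.inr (Or.inr (Or.inr ⟨⟨by omega, (hV _).2 <| hpl h1 (Or.inr ⟨hpar, h2⟩)⟩,
                  fun h => h.2 h1⟩))
            · left
              have ht := P.t2_range hP2
              have hm2 : P.t2 x y = P.m2 := by omega
              have hport := (P.t2_eq_m2 hP2).1 hm2
              obtain ⟨δ, h1, h2, h3, h4⟩ := P.exists_Pas_pred hu hE (by omega)
              have hWP : P.WP x y (nb u δ) :=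
                ⟨h2, by rw [h3, px, if_pos (by omega)]; exact hport.1, hport.2⟩
              apply one_le_cnt h1
              rw [hV]
              apply ih' x y (nb u δ) _ (Or.inr hWP)
              rw [hτ, P.τ3_WP hWP, h3, h4, if_neg (by omega), hm2]
              have h5 : (P.N - 1 - P.h (lo u)) * P.per =
                (P.N - 1 - (P.h (lo u) + 1)) * P.per + P.per := by ring
              omega
          · -- odd index
            by_cases h0 : 0 < P.t2 x y
            · right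
              rcases P.P2_pred hP2 h0 with ⟨h1, h2⟩ | ⟨h1, h2⟩ | ⟨h1, h2⟩ | ⟨h1, h2⟩
              · exact Or.inl ⟨⟨by omega, (hV _).2 <| hpl h1 (Or.inl ⟨hpar, h2⟩)⟩, fun h => h h1⟩
              · have := P.P2_range h1
                exact Or.inr (Or.inl ⟨⟨by omega, (hV _).2 <| hpl h1 (Or.inl ⟨hpar, h2⟩)⟩, fun h => h h1⟩)
              · exact Or.inr (Or.inr (Or.inl ⟨⟨by omega, (hV _).2 <| hpl h1 (Or.inl ⟨hpar, h2⟩)⟩,
                  fun h => h h1⟩))
              · have := P.P2_range h1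
                exact Or.inr (Or.inr (Or.inr ⟨⟨by omega, (hV _).2 <| hpl h1 (Or.inl ⟨hpar, h2⟩)⟩,
                  fun h => h.2 h1⟩))
            · left
              have ht := P.t2_range hP2
              have hm2 : P.t2 x y = 0 := by omega
              have hport := (P.t2_eq_zero hP2).1 hm2
              have hkN : P.h (lo u) ≠ P.N - 1 := fun h => hP2' ⟨h, hport⟩
              obtain ⟨δ, h1, h2, h3, h4⟩ := P.exists_Pas_pred hu hE (by omega)
              have hWP : P.WP x y (nb u δ) :=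
                ⟨h2, by rw [h3, px, if_neg (by omega)]; exact hport.1, hport.2⟩
              apply one_le_cnt h1
              rw [hV]
              apply ih' x y (nb u δ) _ (Or.inr hWP)
              rw [hτ, P.τ3_WP hWP, h3, h4, if_pos (by omega), hm2]
              have h5 : (P.N - 1 - P.h (lo u)) * P.per =
                (P.N - 1 - (P.h (lo u) + 1)) * P.per + P.per := by ring
              omega
        exact absurd hcnt (Nat.not_lt.2 (four_ge e1 e2 e3 e4 hwalls h3))
      · -- a point of a passage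
        rw [cnt_pt hx hy hu] at hcnt
        have hPas := hw.1
        have hx1 := hw.2.1
        have hy1 := hw.2.2
        have hPr := P.Pas_range hu hPas
        have hpx := P.px_mem (P.H u)
        have hτ := P.τ3_WP hw
        have h1 : x + 1 ≤ P.n ∧ ¬ U (pt (x + 1) y u) :=
          ⟨by omega, hTU (Or.inr (Or.inr (Or.inr (Or.inr ⟨hPas, hy1, Or.inl (by omega)⟩))))⟩
        have h2 : 1 ≤ x - 1 ∧ ¬ U (pt (x - 1) y u) :=
          ⟨by omega, hTU (Or.inr (Or.inr (Or.inr (Or.inr ⟨hPas, hy1, Or.inr (by omega)⟩))))⟩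
        have h3 : 1 ≤ cnt P.n (fun u' => ¬ U (pt x y u')) u := by
          rcases P.exists_pred_Pas hu hPas with ⟨ho, δ, a1, a2, a3⟩ | ⟨ho, δ, a1, a2, a3, a4⟩
          · apply one_le_cnt a1
            have h4 := P.τ3_exit (x := x) (y := y) a2 (by omega) (by rw [a3]; exact hx1) hy1 a1
            apply ih' x y (nb u δ) _ (Or.inl h4.1)
            rw [h4.2, hτ, a3, ho]
            ring
          · apply one_le_cnt a1
            have hWP : P.WP x y (nb u δ) := ⟨a2, by rw [a3]; exact hx1, hy1⟩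
            apply ih' x y (nb u δ) _ (Or.inr hWP)
            rw [P.τ3_WP hWP, hτ, a3, a4, ho]
            ring
        rw [if_pos h1, if_pos h2] at hcnt
        omega
  exact key _ x y u rfl hw

end Par

end Pool.Agent.Lib.MP_1a3405_co.Ord
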