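import Mathlib
import Pool.Agent.Lib.MP_1a3405_co.Ord.FP1

/-!
Percolation of the base structure, second part: the sheet `u = (1,…,1)` gets infected.
-/

namespace Pool.Agent.Lib.MP_1a3405_co.Ord

open Pool.Agent.Lib.MP_1a3405_co

namespace Par

variable {f : ℕ} (P : Par f)

/-- OM-FP2 -/
theorem perc_last (hf : 1 ≤ f) (U : (Fin (f + 2) → ℤ) → Prop)
    (hU : ∀ p, U p → InBox P.n p ∧ ¬ P.side.T p ∧ cnt P.n (fun q => ¬ U q) p < 3)
    (x y : ℤ) : ¬ U (pt x y (fun _ => 1)) := by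
  classical
  have hn := P.hn
  have hJ := P.hJ
  have hJn := P.hJn
  have hM := P.hM
  have hN := P.two_le_N'
  have hTU : ∀ {x y : ℤ} {u : Fin f → ℤ}, P.T3 x y u → ¬ U (pt x y u) :=
    fun h hu => (hU _ hu).2.1 h
  have hu : InBox P.n (fun _ : Fin f => (1 : ℤ)) := by
    intro i
    change (1 : ℤ) ≤ 1 ∧ (1 : ℤ) ≤ P.n
    constructor <;> omega
  have hE : P.E (fun _ : Fin f => (1 : ℤ)) := by
    intro i
    change (1 : ℤ) % 3 = 1 ∧ (1 : ℤ) ≤ 3 * P.M - 2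
    constructor <;> omega
  have hk : P.h (lo (fun _ : Fin f => (1 : ℤ))) = 0 := (P.h_lo_zero hu hE).2 (fun _ => rfl)
  -- the initially infected points of this sheet
  have hTw : ∀ {x y : ℤ}, x ≤ P.n - 2 →
      ¬ ((x = 2 * P.J ∧ 1 ≤ y ∧ y ≤ 2) ∨ (y = 2 ∧ 2 * P.J ≤ x ∧ x ≤ P.n - 2)) →
      ¬ U (pt x y (fun _ => 1)) := by
    intro x y h1 h2
    apply hTU
    rw [P.T3_E hE h1, hk]
    rintro (⟨-, h⟩ | ⟨h, -⟩)
    · exact h2 h
    · exact h rfl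
  have hTn : ∀ {y : ℤ}, ¬ U (pt P.n y (fun _ => 1)) := fun {y} => hTU (Or.inl rfl)
  -- the entry port
  have hA : ¬ U (pt (2 * P.J) 1 (fun _ => 1)) := by
    intro hUp
    obtain ⟨-, -, hcnt⟩ := hU _ hUp
    rw [cnt_pt (by omega) (by omega) hu] at hcnt
    have h1 : (2 * (P.J : ℤ)) + 1 ≤ P.n ∧ ¬ U (pt (2 * P.J + 1) 1 (fun _ => 1)) :=
      ⟨by omega, hTw (by omega) (by omega)⟩
    have h2 : 1 ≤ (2 * (P.J : ℤ)) - 1 ∧ ¬ U (pt (2 * P.J - 1) 1 (fun _ => 1)) :=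
      ⟨by omega, hTw (by omega) (by omega)⟩
    have h3 : 1 ≤ cnt P.n (fun u' => ¬ U (pt (2 * P.J) 1 u')) (fun _ : Fin f => (1 : ℤ)) := by
      obtain ⟨δ, a1, a2, a3, a4⟩ := P.exists_Pas_pred hu hE (by omega)
      apply one_le_cnt a1
      apply P.perc_wire hf U hU
      right
      refine ⟨a2, ?_, rfl⟩
      rw [a3, hk, px, if_pos (by norm_num)]
    rw [if_pos h1, if_pos h2] at hcnt
    omega
  have hB : ¬ U (pt (2 * P.J) 2 (fun _ => 1)) := by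
    intro hUp
    obtain ⟨-, -, hcnt⟩ := hU _ hUp
    rw [cnt_pt (by omega) (by omega) hu] at hcnt
    have h2 : 1 ≤ (2 * (P.J : ℤ)) - 1 ∧ ¬ U (pt (2 * P.J - 1) 2 (fun _ => 1)) :=
      ⟨by omega, hTw (by omega) (by omega)⟩
    have h3 : (2 : ℤ) + 1 ≤ P.n ∧ ¬ U (pt (2 * P.J) (2 + 1) (fun _ => 1)) :=
      ⟨by omega, hTw (by omega) (by omega)⟩
    have h4 : (1 : ℤ) ≤ 2 - 1 ∧ ¬ U (pt (2 * P.J) (2 - 1) (fun _ => 1)) :=
      ⟨by omega, hA⟩
    rw [if_pos h2, if_pos h3, if_pos h4] at hcnt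
    omega
  have hC : ∀ k : ℕ, 2 * (P.J : ℤ) + k ≤ P.n - 2 → ¬ U (pt (2 * P.J + k) 2 (fun _ => 1)) := by
    intro k
    induction k with
    | zero => intro _; simpa using hB
    | succ k ih =>
      intro hk2 hUp
      push_cast at hk2 hUp
      have ih' := ih (by omega)
      obtain ⟨-, -, hcnt⟩ := hU _ hUp
      rw [cnt_pt (by omega) (by omega) hu] at hcnt
      have h2 : 1 ≤ (2 * (P.J : ℤ)) + (k + 1) - 1 ∧
          ¬ U (pt (2 * P.J + (k + 1) - 1) 2 (fun _ => 1)) := by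
        refine ⟨by omega, ?_⟩
        rw [show 2 * (P.J : ℤ) + (k + 1) - 1 = 2 * P.J + k by ring]
        exact ih'
      have h3 : (2 : ℤ) + 1 ≤ P.n ∧ ¬ U (pt (2 * P.J + (k + 1)) (2 + 1) (fun _ => 1)) :=
        ⟨by omega, hTw (by omega) (by omega)⟩
      have h4 : (1 : ℤ) ≤ 2 - 1 ∧ ¬ U (pt (2 * P.J + (k + 1)) (2 - 1) (fun _ => 1)) :=
        ⟨by omega, hTw (by omega) (by omega)⟩
      rw [if_pos h2, if_pos h3, if_pos h4] at hcnt
      omega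
  have hC' : ∀ x : ℤ, 2 * P.J ≤ x → x ≤ P.n - 2 → ¬ U (pt x 2 (fun _ => 1)) := by
    intro x h1 h2
    have := hC (x - 2 * P.J).toNat (by omega)
    rwa [show 2 * (P.J : ℤ) + ((x - 2 * P.J).toNat : ℤ) = x by omega] at this
  -- the layer `n - 1`
  have hD : ∀ k : ℕ, 2 + (k : ℤ) ≤ P.n → ¬ U (pt (P.n - 1) (2 + k) (fun _ => 1)) := by
    intro k
    induction k with
    | zero =>
      intro _ hUp
      simp only [Nat.cast_zero, add_zero] at hUp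
      obtain ⟨-, -, hcnt⟩ := hU _ hUp
      rw [cnt_pt (by omega) (by omega) hu] at hcnt
      have h1 : (P.n : ℤ) - 1 + 1 ≤ P.n ∧ ¬ U (pt ((P.n : ℤ) - 1 + 1) 2 (fun _ => 1)) := by
        rw [show (P.n : ℤ) - 1 + 1 = P.n by ring]
        exact ⟨le_refl _, hTn⟩
      have h2 : 1 ≤ (P.n : ℤ) - 1 - 1 ∧ ¬ U (pt ((P.n : ℤ) - 1 - 1) 2 (fun _ => 1)) :=
        ⟨by omega, hC' _ (by omega) (by omega)⟩
      have h4 : (1 : ℤ) ≤ 2 - 1 ∧ ¬ U (pt ((P.n : ℤ) - 1) (2 - 1) (fun _ => 1)) :=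
        ⟨by omega, hTU (Or.inr (Or.inl ⟨rfl, by norm_num, fun _ => rfl⟩))⟩
      rw [if_pos h1, if_pos h2, if_pos h4] at hcnt
      omega
    | succ k ih =>
      intro hk2 hUp
      push_cast at hk2 hUp
      have ih' := ih (by omega)
      obtain ⟨-, -, hcnt⟩ := hU _ hUp
      rw [cnt_pt (by omega) (by omega) hu] at hcnt
      have h1 : (P.n : ℤ) - 1 + 1 ≤ P.n ∧
          ¬ U (pt ((P.n : ℤ) - 1 + 1) (2 + (k + 1)) (fun _ => 1)) := by
        rw [show (P.n : ℤ) - 1 + 1 = P.n by ring]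
        exact ⟨le_refl _, hTn⟩
      have h2 : 1 ≤ (P.n : ℤ) - 1 - 1 ∧
          ¬ U (pt ((P.n : ℤ) - 1 - 1) (2 + (k + 1)) (fun _ => 1)) :=
        ⟨by omega, hTw (by omega) (by omega)⟩
      have h4 : (1 : ℤ) ≤ 2 + (k + 1) - 1 ∧
          ¬ U (pt ((P.n : ℤ) - 1) (2 + (k + 1) - 1) (fun _ => 1)) := by
        refine ⟨by omega, ?_⟩
        rw [show (2 : ℤ) + (k + 1) - 1 = 2 + k by ring]
        exact ih'
      rw [if_pos h1, if_pos h2, if_pos h4] at hcnt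
      omega
  -- all points
  intro hUp
  have hb := (hU _ hUp).1
  rw [inBox_pt] at hb
  by_cases hx : x ≤ P.n - 2
  · by_cases hw : (x = 2 * P.J ∧ 1 ≤ y ∧ y ≤ 2) ∨ (y = 2 ∧ 2 * P.J ≤ x ∧ x ≤ P.n - 2)
    · rcases hw with ⟨h1, h2, h3⟩ | ⟨h1, h2, h3⟩
      · subst h1
        by_cases h4 : y = 1
        · subst h4; exact hA hUp
        · have h5 : y = 2 := by omega
          subst h5; exact hB hUp
      · subst h1
        exact hC' x h2 h3 hUp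
    · exact hTw hx hw hUp
  · by_cases hx2 : x = P.n
    · subst hx2; exact hTn hUp
    · have hx3 : x = P.n - 1 := by omega
      subst hx3
      by_cases hy : y = 1
      · subst hy
        exact hTU (Or.inr (Or.inl ⟨rfl, rfl, fun _ => rfl⟩)) hUp
      · have := hD (y - 2).toNat (by omega)
        rw [show (2 : ℤ) + ((y - 2).toNat : ℤ) = y by omega] at this
        exact this hUp

end Par

end Pool.Agent.Lib.MP_1a3405_co.Ord
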