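import Mathlib
import Pool.Agent.Lib.MP_1a3405_co.Ord.FP2

/-!
Percolation of the base structure: all points get infected.
-/

namespace Pool.Agent.Lib.MP_1a3405_co.Ord

open Pool.Agent.Lib.MP_1a3405_co

namespace Par

variable {f : ℕ} (P : Par f)

lemma sum_nb (u : Fin f → ℤ) (i : Fin f) (b : Bool) :
    ∑ j, nb u (i, b) j = ∑ j, u j + (if b then 1 else -1) := by
  have h1 := Finset.sum_update_of_mem (Finset.mem_univ i) u (u i + if b then 1 else -1)
  have h2 : ∑ j, u j = u i + ∑ j ∈ Finset.univ \ {i}, u j := by
    rw [← Finset.sum_sdiff (Finset.singleton_subset_iff.2 (Finset.mem_univ i)),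
      Finset.sum_singleton, add_comm]
  unfold nb
  simp only
  rw [h1, h2]
  ring

lemma inBox_nb_false {n : ℕ} {u : Fin f → ℤ} (hu : InBox n u) {i : Fin f} (hi : 2 ≤ u i) :
    InBox n (nb u (i, false)) := by
  intro j
  by_cases hj : j = i
  · subst hj
    rw [nb_self]
    have := hu j
    simp only [Bool.false_eq_true, if_false]
    constructor <;> omega
  · rw [nb_other _ _ hj]
    exact hu j

/-- the points of the spine and of the sheets at the top row -/
lemma T3_axis {x : ℤ} {u : Fin f → ℤ} {i : Fin f} (h : ∀ j, j ≠ i → u j = 1)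
    (hx : x ≤ P.n - 2) : P.T3 x P.n u := by
  have hM := P.hM
  by_cases hE : P.isE (u i)
  · have hE' : P.E u := by
      intro j
      by_cases hj : j = i
      · rw [hj]; exact hE
      · rw [h j hj]
        unfold isE
        omega
    rw [P.T3_E hE' hx]
    intro hw
    have := P.wireS_range hw
    omega
  · exact Or.inr (Or.inr (Or.inr (Or.inl ⟨hx, ⟨i, h, hE⟩, rfl⟩)))

/-- OM-FP3 -/
theorem perc (hf : 1 ≤ f) (U : (Fin (f + 2) → ℤ) → Prop)
    (hU : ∀ p, U p → InBox P.n p ∧ ¬ P.side.T p ∧ cnt P.n (fun q => ¬ U q) p < 3) :
    ∀ p, ¬ U p := by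
  classical
  have hn := P.hn
  have hTU : ∀ {x y : ℤ} {u : Fin f → ℤ}, P.T3 x y u → ¬ U (pt x y u) :=
    fun h hu => (hU _ hu).2.1 h
  have key : ∀ k : ℕ, ∀ (x y : ℤ) (u : Fin f → ℤ),
      ((P.n - x) + (P.n - y) + ∑ j, u j).toNat = k → ¬ U (pt x y u) := by
    intro k
    induction k using Nat.strong_induction_on with
    | _ k ih =>
      intro x y u hk hUp
      obtain ⟨hb, hT, hcnt⟩ := hU _ hUp
      rw [inBox_pt] at hb
      obtain ⟨hx, hy, hu⟩ := hb
      rw [side_T] at hT
      have hsum : 0 ≤ ∑ j, u j := Finset.sum_nonneg (fun j _ => by have := (hu j).1; omega)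
      have hxn : x ≠ P.n := fun h => hT (Or.inl h)
      by_cases hone : u = fun _ => 1
      · subst hone
        exact P.perc_last hf U hU x y hUp
      · obtain ⟨i, hi⟩ : ∃ i, u i ≠ 1 := by
          by_contra hcon
          push Not at hcon
          exact hone (funext hcon)
        have hi2 : 2 ≤ u i := by have := (hu i).1; omega
        rw [cnt_pt hx hy hu] at hcnt
        -- the right neighbour
        have h1 : x + 1 ≤ P.n ∧ ¬ U (pt (x + 1) y u) := by
          refine ⟨by omega, ?_⟩
          exact ih ((P.n - (x + 1)) + (P.n - y) + ∑ j, u j).toNat (by omega) _ _ _ rfl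
        rw [if_pos h1] at hcnt
        -- the neighbours in the directions of `u`
        have hdn : ∀ i : Fin f, 2 ≤ u i → ¬ U (pt x y (nb u (i, false))) := by
          intro i hi
          have hs := sum_nb u i false
          simp only [Bool.false_eq_true, if_false] at hs
          have hpos : 0 < ∑ j, u j := by
            have : 0 ≤ ∑ j, nb u (i, false) j :=
              Finset.sum_nonneg (fun j _ => by have := ((inBox_nb_false hu hi) j).1; omega)
            omega
          exact ih ((P.n - x) + (P.n - y) + ∑ j, nb u (i, false) j).toNat (by omega) _ _ _ rfl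
        have hu1 : 1 ≤ cnt P.n (fun u' => ¬ U (pt x y u')) u :=
          one_le_cnt (inBox_nb_false hu hi2) (hdn i hi2)
        by_cases hyn : y < P.n
        · have h3 : y + 1 ≤ P.n ∧ ¬ U (pt x (y + 1) u) := by
            refine ⟨by omega, ?_⟩
            exact ih ((P.n - x) + (P.n - (y + 1)) + ∑ j, u j).toNat (by omega) _ _ _ rfl
          rw [if_pos h3] at hcnt
          omega
        · have hyn' : y = P.n := by omega
          subst hyn'
          by_cases hax : ∀ j, j ≠ i → u j = 1
          · by_cases hx2 : x ≤ P.n - 2
            · exact hT (P.T3_axis hax hx2)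
            · have h2 : 1 ≤ x - 1 ∧ ¬ U (pt (x - 1) P.n u) :=
                ⟨by omega, hTU (P.T3_axis hax (by omega))⟩
              rw [if_pos h2] at hcnt
              omega
          · push Not at hax
            obtain ⟨j, hj, hj1⟩ := hax
            have hj2 : 2 ≤ u j := by have := (hu j).1; omega
            have hu2 : 2 ≤ cnt P.n (fun u' => ¬ U (pt x P.n u')) u := by
              have h4 := le_cnt_of_subset (n := P.n) (Q := fun u' => ¬ U (pt x P.n u')) (p := u)
                {(i, false), (j, false)} (by
                  intro δ hδ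
                  rw [Finset.mem_insert, Finset.mem_singleton] at hδ
                  rcases hδ with hδ | hδ
                  · rw [hδ]; exact ⟨inBox_nb_false hu hi2, hdn i hi2⟩
                  · rw [hδ]; exact ⟨inBox_nb_false hu hj2, hdn j hj2⟩)
              rw [Finset.card_pair] at h4
              · exact h4
              · intro h
                exact hj (congrArg Prod.fst h).symm
            omega
  intro p
  obtain ⟨x, y, u, rfl⟩ := exists_pt p
  exact key _ x y u rfl

end Par

end Pool.Agent.Lib.MP_1a3405_co.Ord
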