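import Mathlib
import Pool.Agent.Lib.MP_1a3405_co.Ord.Times

/-!
The local condition at the passages.
-/

namespace Pool.Agent.Lib.MP_1a3405_co.Ord

open Pool.Agent.Lib.MP_1a3405_co

namespace Par

variable {f : ℕ} (P : Par f)

/-- OM-FS2: wire points in the passages -/
theorem star_pas {x y : ℤ} {u : Fin f → ℤ} (hx : 1 ≤ x ∧ x ≤ P.n - 2) (hy : 1 ≤ y ∧ y ≤ P.n)
    (hu : InBox P.n u) (hw : P.WP x y u) :
    cnt P.n (fun q => P.side.T q ∨ P.side.τ q + 2 ≤ P.τ3 x y u) (pt x y u) ≤ 2 := by
  classical
  have hn := P.hn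
  have hJ := P.hJ
  have hJn := P.hJn
  have hPas := hw.1
  have hx1 := hw.2.1
  have hy1 := hw.2.2
  have hPr := P.Pas_range hu hPas
  have hnE := P.not_E_of_Pas hPas
  have hτ := P.τ3_WP hw
  have hτle := P.τ3_le (x := x) (y := y) (by omega) hy hu
  have hper : P.per = P.m2 + 3 := rfl
  have hpx := P.px_mem (P.H u)
  rw [cnt_pt (by omega) hy hu]
  have hU : cnt P.n (fun u' => P.side.T (pt x y u') ∨
      P.side.τ (pt x y u') + 2 ≤ P.τ3 x y u) u = 0 := by
    apply cnt_eq_zero
    intro δ hδ hQ
    simp only [side_T, side_τ] at hQ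
    by_cases hE : P.E (nb u δ)
    · rcases P.Pas_E hu hδ hPas hE with ⟨h1, h2⟩ | ⟨h1, h2⟩
      · have h3 := P.τ3_exit (x := x) (y := y) hE (by omega) (by rw [h1]; exact hx1) hy1 hδ
        rw [P.T3_E hE hx.2, h3.2, h1] at hQ
        rcases hQ with h | h
        · rw [← h1] at h
          exact h h3.1.2.2
        · omega
      · by_cases hk0 : P.h (lo (nb u δ)) = 0
        · have h3 : P.τ3 x y (nb u δ) = P.s + 1 :=
            P.τ3_late (fun h => by have := h.2.1; omega) (fun h => P.not_E_of_Pas h.1 hE)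
          have h4 : P.H u = 1 := by omega
          rw [P.T3_E hE hx.2, h3] at hQ
          rcases hQ with h | h
          · apply h
            left
            refine ⟨hk0, Or.inl ⟨?_, by omega, by omega⟩⟩
            rw [hx1, h4]
            unfold px
            rw [if_pos (by norm_num)]
          · omega
        · have hk := P.h_lo_range hδ hE
          have h3 := P.τ3_entry (x := x) (y := y) hE (by omega) (by omega)
            (by rw [h1, show P.H u - 1 + 1 = P.H u by ring]; exact hx1) hy1
          rw [P.T3_E hE hx.2, h3.2, h1] at hQ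
          have h5 : (P.N - 1 - (P.H u - 1)) * P.per =
            (P.N - 1 - P.H u) * P.per + P.per := by ring
          rcases hQ with h | h
          · rw [← h1] at h
            exact h h3.1.2.2
          · omega
    · rw [P.T3_not_E hE hx.2] at hQ
      rcases hQ with (⟨-, h⟩ | ⟨-, -, h⟩) | h
      · omega
      · rcases P.px_mem (P.H (nb u δ)) with h4 | h4 <;> omega
      · by_cases hWP : P.WP x y (nb u δ)
        · have h1 := P.Pas_Pas hu hδ hPas hWP.1
          rw [P.τ3_WP hWP, h1.1, hτ] at h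
          omega
        · rw [P.τ3_late (fun h => hE h.1) hWP] at h
          omega
  rw [hU]
  simp only [side_T, side_τ]
  have e3 : ¬ (y + 1 ≤ P.n ∧ (P.T3 x (y + 1) u ∨ P.τ3 x (y + 1) u + 2 ≤ P.τ3 x y u)) := by
    rintro ⟨-, h⟩
    rw [P.T3_not_E hnE hx.2] at h
    rcases h with (⟨-, h⟩ | ⟨-, h, -⟩) | h
    · omega
    · omega
    · rw [P.τ3_late (fun h => hnE h.1) (fun h => by have := h.2.2; omega)] at h
      omega
  rw [if_neg e3, if_neg (show ¬ (1 ≤ y - 1 ∧ _) from fun h => by omega)]
  split_ifs <;> omega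

end Par

end Pool.Agent.Lib.MP_1a3405_co.Ord
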