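import Mathlib
import Pool.Agent.Lib.MP_1a3405_co.Ord.Times

/-!
The local condition at the points outside of the sheets.
-/

namespace Pool.Agent.Lib.MP_1a3405_co.Ord

open Pool.Agent.Lib.MP_1a3405_co

namespace Par

variable {f : ℕ} (P : Par f)

lemma four_le_one {a b c d : Prop} [Decidable a] [Decidable b] [Decidable c] [Decidable d]
    {U : ℕ} (hU : U ≤ 1) (h12 : ¬ (a ∧ b)) (h34 : ¬ (c ∧ d)) (h13 : ¬ (a ∧ c))
    (h14 : ¬ (a ∧ d)) (h23 : ¬ (b ∧ c)) (h24 : ¬ (b ∧ d)) :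
    (if a then 1 else 0) + (if b then 1 else 0) +
      ((if c then 1 else 0) + (if d then 1 else 0) + U) ≤ 2 := by
  by_cases ha : a
  · rw [if_pos ha, if_neg (fun h => h12 ⟨ha, h⟩), if_neg (fun h => h13 ⟨ha, h⟩),
      if_neg (fun h => h14 ⟨ha, h⟩)]
    omega
  · rw [if_neg ha]
    by_cases hb : b
    · rw [if_pos hb, if_neg (fun h => h23 ⟨hb, h⟩), if_neg (fun h => h24 ⟨hb, h⟩)]
      omega
    · rw [if_neg hb]
      by_cases hc : c
      · rw [if_pos hc, if_neg (fun h => h34 ⟨hc, h⟩)]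
        omega
      · rw [if_neg hc]
        split_ifs <;> omega

/-- which points of the plane over `u ∉ E` count -/
lemma by_plane {x y : ℤ} {u : Fin f → ℤ} (hx : x ≤ P.n - 1) (hE : ¬ P.E u)
    (h : P.T3 x y u ∨ P.τ3 x y u + 2 ≤ P.s + 1) :
    (P.Spine u ∧ y = P.n) ∨
      (P.Pas u ∧ y = 1 ∧ P.px (P.H u) - 1 ≤ x ∧ x ≤ P.px (P.H u) + 1) := by
  have hn := P.hn
  have hJ := P.hJ
  have hJn := P.hJn
  have hM := P.hM
  rcases h with (h | ⟨-, -, h⟩ | ⟨-, h, -⟩ | ⟨-, h⟩ | ⟨h1, h2, h3⟩) | h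
  · omega
  · exfalso
    apply hE
    intro i
    rw [h i]
    unfold isE
    omega
  · exact absurd h hE
  · exact Or.inl h
  · right
    refine ⟨h1, h2, ?_⟩
    omega
  · right
    by_cases hWP : P.WP x y u
    · obtain ⟨h1, h2, h3⟩ := hWP
      exact ⟨h1, h3, by omega, by omega⟩
    · rw [P.τ3_late (fun h => hE h.1) hWP] at h
      omega

/-- a point of `x ≤ n - 2` over `u ∉ E` of this kind is infected or on a wire -/
lemma by_self {x y : ℤ} {u : Fin f → ℤ} (hx : x ≤ P.n - 2)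
    (h : (P.Spine u ∧ y = P.n) ∨
      (P.Pas u ∧ y = 1 ∧ P.px (P.H u) - 1 ≤ x ∧ x ≤ P.px (P.H u) + 1)) :
    P.T3 x y u ∨ P.WP x y u := by
  rcases h with h | ⟨h1, h2, h3, h4⟩
  · exact Or.inl (Or.inr (Or.inr (Or.inr (Or.inl ⟨hx, h⟩))))
  · by_cases h5 : x = P.px (P.H u)
    · exact Or.inr ⟨h1, h5, h2⟩
    · exact Or.inl (Or.inr (Or.inr (Or.inr (Or.inr ⟨h1, h2, by omega⟩))))

/-- the sign of a step from a non-sheet position to a sheet position is unique -/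
lemma dir_unique {u : Fin f → ℤ} {i : Fin f} {b : Bool} (h : P.isE (nb u (i, b) i)) :
    (i, b) = (i, decide ((u i + 1) % 3 = 1)) := by
  rw [nb_self] at h
  unfold isE at h
  congr 1
  cases b
  · simp only [Bool.false_eq_true, if_false] at h
    symm
    rw [decide_eq_false_iff_not]
    omega
  · simp only [if_true] at h
    symm
    rw [decide_eq_true_iff]
    omega

/-- OM-FS3: bystanders -/
theorem star_by {x y : ℤ} {u : Fin f → ℤ} (hx : 1 ≤ x ∧ x ≤ P.n - 2) (hy : 1 ≤ y ∧ y ≤ P.n)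
    (hu : InBox P.n u) (hE : ¬ P.E u) (hT : ¬ P.T3 x y u) (hw : ¬ P.WP x y u) :
    cnt P.n (fun q => P.side.T q ∨ P.side.τ q + 2 ≤ P.s + 1) (pt x y u) ≤ 2 := by
  classical
  have hn := P.hn
  have hJ := P.hJ
  have hJn := P.hJn
  have hM := P.hM
  rw [cnt_pt (by omega) hy hu]
  simp only [side_T, side_τ]
  set R : ℤ → ℤ → Prop := fun x y => (P.Spine u ∧ y = P.n) ∨
      (P.Pas u ∧ y = 1 ∧ P.px (P.H u) - 1 ≤ x ∧ x ≤ P.px (P.H u) + 1) with hR
  have hself : ¬ R x y := by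
    intro h
    rcases P.by_self hx.2 h with h | h
    · exact hT h
    · exact hw h
  have e1 : (x + 1 ≤ P.n ∧ (P.T3 (x + 1) y u ∨ P.τ3 (x + 1) y u + 2 ≤ P.s + 1)) →
      R (x + 1) y := fun h => P.by_plane (by omega) hE h.2
  have e2 : (1 ≤ x - 1 ∧ (P.T3 (x - 1) y u ∨ P.τ3 (x - 1) y u + 2 ≤ P.s + 1)) →
      R (x - 1) y := fun h => P.by_plane (by omega) hE h.2
  have e3 : (y + 1 ≤ P.n ∧ (P.T3 x (y + 1) u ∨ P.τ3 x (y + 1) u + 2 ≤ P.s + 1)) →
      R x (y + 1) := fun h => P.by_plane (by omega) hE h.2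
  have e4 : (1 ≤ y - 1 ∧ (P.T3 x (y - 1) u ∨ P.τ3 x (y - 1) u + 2 ≤ P.s + 1)) →
      R x (y - 1) := fun h => P.by_plane (by omega) hE h.2
  by_cases hone : ∃ i, ∀ j, j ≠ i → P.isE (u j)
  · -- exactly one coordinate is not a sheet position
    have hU : cnt P.n (fun u' => P.T3 x y u' ∨ P.τ3 x y u' + 2 ≤ P.s + 1) u ≤ 1 := by
      obtain ⟨i, hi⟩ := hone
      have hni : ¬ P.isE (u i) := by
        intro h
        apply hE
        intro j
        by_cases hj : j = i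
        · rw [hj]; exact h
        · exact hi j hj
      apply cnt_le_of_subset {(i, decide ((u i + 1) % 3 = 1))}
      intro δ hδ h
      have hE' : P.E (nb u δ) := by
        by_contra hE'
        rcases h with h | h
        · rw [P.T3_not_E hE' hx.2] at h
          rcases h with ⟨h1, h2⟩ | ⟨h1, h2, h3⟩
          · exact hT (Or.inr (Or.inr (Or.inr (Or.inl
              ⟨hx.2, P.Spine_of_nb hu hδ hE h1 ⟨i, hi⟩, h2⟩))))
          · have h4 := P.Pas_of_nb hu hδ hE h1 ⟨i, hi⟩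
            rw [← h4.2] at h3
            exact hT (Or.inr (Or.inr (Or.inr (Or.inr ⟨h4.1, h2, h3⟩))))
        · by_cases hWP : P.WP x y (nb u δ)
          · obtain ⟨h1, h2, h3⟩ := hWP
            have h4 := P.Pas_of_nb hu hδ hE h1 ⟨i, hi⟩
            rw [← h4.2] at h2
            exact hw ⟨h4.1, h2, h3⟩
          · rw [P.τ3_late (fun h => hE' h.1) hWP] at h
            omega
      obtain ⟨j, b⟩ := δ
      have hj : j = i := by
        by_contra hne
        have h1 := hE' i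
        rw [nb_other _ _ (fun h => hne h.symm)] at h1
        exact hni h1
      subst hj
      rw [Finset.mem_singleton]
      exact P.dir_unique (hE' j)
    -- at most one neighbour in the plane
    have hself' := hself
    simp only [hR] at hself' e1 e2 e3 e4
    have h12 : ¬ ((x + 1 ≤ P.n ∧ (P.T3 (x + 1) y u ∨ P.τ3 (x + 1) y u + 2 ≤ P.s + 1)) ∧
        (1 ≤ x - 1 ∧ (P.T3 (x - 1) y u ∨ P.τ3 (x - 1) y u + 2 ≤ P.s + 1))) := by
      rintro ⟨h1, h2⟩
      apply hself'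
      rcases e1 h1 with ⟨a1, a2⟩ | ⟨a1, a2, a3, a4⟩
      · exact Or.inl ⟨a1, a2⟩
      · rcases e2 h2 with ⟨b1, b2⟩ | ⟨b1, b2, b3, b4⟩
        · exact Or.inl ⟨b1, b2⟩
        · exact Or.inr ⟨a1, a2, by omega, by omega⟩
    have h34 : ¬ ((y + 1 ≤ P.n ∧ (P.T3 x (y + 1) u ∨ P.τ3 x (y + 1) u + 2 ≤ P.s + 1)) ∧
        (1 ≤ y - 1 ∧ (P.T3 x (y - 1) u ∨ P.τ3 x (y - 1) u + 2 ≤ P.s + 1))) := by
      rintro ⟨h1, h2⟩
      rcases e3 h1 with ⟨a1, a2⟩ | ⟨a1, a2, a3, a4⟩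
      · rcases e4 h2 with ⟨b1, b2⟩ | ⟨b1, b2, b3, b4⟩ <;> omega
      · omega
    have hmix : ∀ x', R x' y → ∀ y', (y' = y + 1 ∨ y' = y - 1) → R x y' → False := by
      intro x' h1 y' hy' h2
      rcases h1 with ⟨a1, a2⟩ | ⟨a1, a2, a3, a4⟩
      · exact hself' (Or.inl ⟨a1, a2⟩)
      · rcases h2 with ⟨b1, b2⟩ | ⟨b1, b2, b3, b4⟩ <;> omega
    have h13 : ¬ ((x + 1 ≤ P.n ∧ (P.T3 (x + 1) y u ∨ P.τ3 (x + 1) y u + 2 ≤ P.s + 1)) ∧
        (y + 1 ≤ P.n ∧ (P.T3 x (y + 1) u ∨ P.τ3 x (y + 1) u + 2 ≤ P.s + 1))) :=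
      fun h => hmix _ (e1 h.1) _ (Or.inl rfl) (e3 h.2)
    have h14 : ¬ ((x + 1 ≤ P.n ∧ (P.T3 (x + 1) y u ∨ P.τ3 (x + 1) y u + 2 ≤ P.s + 1)) ∧
        (1 ≤ y - 1 ∧ (P.T3 x (y - 1) u ∨ P.τ3 x (y - 1) u + 2 ≤ P.s + 1))) :=
      fun h => hmix _ (e1 h.1) _ (Or.inr rfl) (e4 h.2)
    have h23 : ¬ ((1 ≤ x - 1 ∧ (P.T3 (x - 1) y u ∨ P.τ3 (x - 1) y u + 2 ≤ P.s + 1)) ∧
        (y + 1 ≤ P.n ∧ (P.T3 x (y + 1) u ∨ P.τ3 x (y + 1) u + 2 ≤ P.s + 1))) :=
      fun h => hmix _ (e2 h.1) _ (Or.inl rfl) (e3 h.2)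
    have h24 : ¬ ((1 ≤ x - 1 ∧ (P.T3 (x - 1) y u ∨ P.τ3 (x - 1) y u + 2 ≤ P.s + 1)) ∧
        (1 ≤ y - 1 ∧ (P.T3 x (y - 1) u ∨ P.τ3 x (y - 1) u + 2 ≤ P.s + 1))) :=
      fun h => hmix _ (e2 h.1) _ (Or.inr rfl) (e4 h.2)
    exact four_le_one hU h12 h34 h13 h14 h23 h24
  · -- at least two coordinates are not sheet positions
    have hnR : ∀ x y, ¬ R x y := by
      rintro x y (⟨⟨i, h1, h2⟩, -⟩ | ⟨⟨i, h1, -⟩, -⟩)
      · apply hone
        refine ⟨i, fun j hj => ?_⟩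
        rw [h1 j hj]
        unfold isE
        omega
      · exact hone ⟨i, h1⟩
    rw [if_neg (fun h => hnR _ _ (e1 h)), if_neg (fun h => hnR _ _ (e2 h)),
      if_neg (fun h => hnR _ _ (e3 h)), if_neg (fun h => hnR _ _ (e4 h))]
    obtain ⟨i1, hi1⟩ : ∃ i, ¬ P.isE (u i) := by
      by_contra hcon
      push Not at hcon
      exact hE hcon
    obtain ⟨i2, hi21, hi2⟩ : ∃ j, j ≠ i1 ∧ ¬ P.isE (u j) := by
      by_contra hcon
      push Not at hcon
      exact hone ⟨i1, hcon⟩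
    have hU : cnt P.n (fun u' => P.T3 x y u' ∨ P.τ3 x y u' + 2 ≤ P.s + 1) u ≤
        (({(i1, decide ((u i1 + 1) % 3 = 1)), (i2, decide ((u i2 + 1) % 3 = 1))} :
          Finset (Fin f × Bool)).card) := by
      apply cnt_le_of_subset
      rintro ⟨j, b⟩ hδ h
      -- the neighbour has at most one coordinate which is not a sheet position
      obtain ⟨i', hi'⟩ : ∃ i', ∀ k, k ≠ i' → P.isE (nb u (j, b) k) := by
        by_cases hE' : P.E (nb u (j, b))
        · exact ⟨i1, fun k _ => hE' k⟩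
        · rcases h with h | h
          · rw [P.T3_not_E hE' hx.2] at h
            rcases h with ⟨⟨i, h1, h2⟩, -⟩ | ⟨⟨i, h1, -⟩, -⟩
            · refine ⟨i, fun k hk => ?_⟩
              rw [h1 k hk]
              unfold isE
              omega
            · exact ⟨i, h1⟩
          · by_cases hWP : P.WP x y (nb u (j, b))
            · obtain ⟨⟨i, h1, -⟩, -⟩ := hWP
              exact ⟨i, h1⟩
            · rw [P.τ3_late (fun h => hE' h.1) hWP] at h
              omega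
      have hne : ∀ k, ¬ P.isE (u k) → k = j ∨ k = i' := by
        intro k hk
        by_contra hcon
        push Not at hcon
        have h1 := hi' k hcon.2
        rw [nb_other _ _ hcon.1] at h1
        exact hk h1
      have hji : j ≠ i' := by
        intro hji
        rcases hne i1 hi1 with a | a <;> rcases hne i2 hi2 with c | c <;>
          · apply hi21
            rw [a, c]
            try rw [hji]
      have hEj := P.dir_unique (hi' j hji)
      rw [Finset.mem_insert, Finset.mem_singleton]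
      rcases hne i1 hi1 with a | a
      · left
        rw [a]; exact hEj
      · right
        rcases hne i2 hi2 with c | c
        · rw [c]; exact hEj
        · exact absurd (c.trans a.symm) hi21
    have hcard := Finset.card_le_two (a := ((i1, decide ((u i1 + 1) % 3 = 1)) : Fin f × Bool))
      (b := (i2, decide ((u i2 + 1) % 3 = 1)))
    omega

end Par

end Pool.Agent.Lib.MP_1a3405_co.Ord
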