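import Mathlib
import Pool.Agent.Lib.MP_1a3405_co.Ord.Times

/-!
The local condition in the layer `x = n - 1`.
-/

namespace Pool.Agent.Lib.MP_1a3405_co.Ord

open Pool.Agent.Lib.MP_1a3405_co

namespace Par

variable {f : ℕ} (P : Par f)

/-- the only point of the layer `x = n - 1` which counts is `(n - 1, 1, (1,…,1))` -/
lemma sep_layer {y : ℤ} {u : Fin f → ℤ}
    (h : P.T3 (P.n - 1) y u ∨ P.τ3 (P.n - 1) y u + 2 ≤ P.s + 1) : y = 1 ∧ ∀ i, u i = 1 := by
  have hn := P.hn
  have hJ := P.hJ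
  have hJn := P.hJn
  rcases h with (h | ⟨-, h⟩ | ⟨h, -⟩ | ⟨h, -⟩ | ⟨-, -, h⟩) | h
  · omega
  · exact h
  · omega
  · omega
  · rcases P.px_mem (P.H u) with h1 | h1 <;> omega
  · have := P.not_WS_WP_right (x := P.n - 1) (y := y) (u := u) (by omega)
    rw [P.τ3_late this.1 this.2] at h
    omega

/-- OM-FS4: the layer `x = n - 1` -/
theorem star_sep {y : ℤ} {u : Fin f → ℤ} (hy : 1 ≤ y ∧ y ≤ P.n)
    (hu : InBox P.n u) (hT : ¬ P.T3 (P.n - 1) y u) :
    cnt P.n (fun q => P.side.T q ∨ P.side.τ q + 2 ≤ P.s + 1) (pt (P.n - 1) y u) ≤ 2 := by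
  classical
  have hn := P.hn
  have hJ := P.hJ
  have hJn := P.hJn
  have hM := P.hM
  rw [cnt_pt (by omega) hy hu]
  simp only [side_T, side_τ]
  by_cases hone : ∀ i, u i = 1
  · -- the sheet `(1,…,1)`
    have hE : P.E u := by
      intro i
      rw [hone i]
      unfold isE
      omega
    have hk := (P.h_lo_zero hu hE).2 hone
    have hy1 : y ≠ 1 := fun h => hT (Or.inr (Or.inl ⟨rfl, h, hone⟩))
    have hU : cnt P.n (fun u' => P.T3 (P.n - 1) y u' ∨ P.τ3 (P.n - 1) y u' + 2 ≤ P.s + 1) u = 0 := by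
      apply cnt_eq_zero
      intro δ _ h
      exact hy1 (P.sep_layer h).1
    rw [hU]
    have e3 : ¬ (y + 1 ≤ P.n ∧ (P.T3 (P.n - 1) (y + 1) u ∨
        P.τ3 (P.n - 1) (y + 1) u + 2 ≤ P.s + 1)) := by
      rintro ⟨-, h⟩
      have := (P.sep_layer h).1
      omega
    rw [if_neg e3]
    by_cases hy2 : y = 2
    · -- the left neighbour belongs to the wire
      have e2 : ¬ (1 ≤ (P.n : ℤ) - 1 - 1 ∧ (P.T3 (P.n - 1 - 1) y u ∨
          P.τ3 (P.n - 1 - 1) y u + 2 ≤ P.s + 1)) := by
        rintro ⟨-, h⟩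
        have hlate : P.τ3 (P.n - 1 - 1) y u = P.s + 1 :=
          P.τ3_late (fun h => by have := h.2.1; omega) (fun h => P.not_E_of_Pas h.1 hE)
        rw [P.T3_E hE (by omega), hlate, hk] at h
        rcases h with h | h
        · exact h (Or.inl ⟨rfl, Or.inr ⟨hy2, by omega, by omega⟩⟩)
        · omega
      rw [if_neg e2]
      split_ifs <;> omega
    · have e4 : ¬ (1 ≤ y - 1 ∧ (P.T3 (P.n - 1) (y - 1) u ∨
          P.τ3 (P.n - 1) (y - 1) u + 2 ≤ P.s + 1)) := by
        rintro ⟨-, h⟩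
        have := (P.sep_layer h).1
        omega
      rw [if_neg e4]
      split_ifs <;> omega
  · have e3 : ¬ (y + 1 ≤ P.n ∧ (P.T3 (P.n - 1) (y + 1) u ∨
        P.τ3 (P.n - 1) (y + 1) u + 2 ≤ P.s + 1)) := by
      rintro ⟨-, h⟩
      exact hone (P.sep_layer h).2
    have e4 : ¬ (1 ≤ y - 1 ∧ (P.T3 (P.n - 1) (y - 1) u ∨
        P.τ3 (P.n - 1) (y - 1) u + 2 ≤ P.s + 1)) := by
      rintro ⟨-, h⟩
      exact hone (P.sep_layer h).2
    rw [if_neg e3, if_neg e4]
    by_cases hadj : y = 1 ∧ ∃ δ, InBox P.n (nb u δ) ∧ ∀ i, nb u δ i = 1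
    · obtain ⟨hy1, ⟨i, b⟩, hδ, hδ1⟩ := hadj
      -- `u` is a neighbour of `(1,…,1)`
      have hui : u i = 2 := by
        have h1 := hδ1 i
        have h2 := hu i
        rw [nb_self] at h1
        cases b
        · simp only [Bool.false_eq_true, if_false] at h1; omega
        · simp only [if_true] at h1; omega
      have hnE : ¬ P.E u := by
        intro h
        have := (h i).1
        omega
      have e2 : ¬ (1 ≤ (P.n : ℤ) - 1 - 1 ∧ (P.T3 (P.n - 1 - 1) y u ∨
          P.τ3 (P.n - 1 - 1) y u + 2 ≤ P.s + 1)) := by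
        rintro ⟨-, h⟩
        have hlate : P.τ3 (P.n - 1 - 1) y u = P.s + 1 := by
          apply P.τ3_late (fun h => hnE h.1)
          rintro ⟨-, h1, -⟩
          rcases P.px_mem (P.H u) with h2 | h2 <;> omega
        rw [P.T3_not_E hnE (by omega), hlate] at h
        rcases h with (⟨-, h⟩ | ⟨-, -, h⟩) | h
        · omega
        · rcases P.px_mem (P.H u) with h2 | h2 <;> omega
        · omega
      rw [if_neg e2]
      have hU : cnt P.n (fun u' => P.T3 (P.n - 1) y u' ∨
          P.τ3 (P.n - 1) y u' + 2 ≤ P.s + 1) u ≤ 1 := by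
        apply cnt_le_of_subset {(i, false)}
        intro δ _ h
        have h1 := (P.sep_layer h).2
        obtain ⟨j, c⟩ := δ
        have hj : j = i := by
          by_contra hne
          have h2 := h1 i
          rw [nb_other _ _ (fun h => hne h.symm)] at h2
          omega
        subst hj
        have h2 := h1 j
        rw [nb_self] at h2
        cases c
        · simp
        · simp only [if_true] at h2; omega
      split_ifs <;> omega
    · have hU : cnt P.n (fun u' => P.T3 (P.n - 1) y u' ∨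
          P.τ3 (P.n - 1) y u' + 2 ≤ P.s + 1) u = 0 := by
        apply cnt_eq_zero
        intro δ hδ h
        exact hadj ⟨(P.sep_layer h).1, δ, hδ, (P.sep_layer h).2⟩
      rw [hU]
      split_ifs <;> omega

end Par

end Pool.Agent.Lib.MP_1a3405_co.Ord
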