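import Mathlib
import Pool.Agent.Lib.MP_1a3405_co.Ord.FS1
import Pool.Agent.Lib.MP_1a3405_co.Ord.FS2
import Pool.Agent.Lib.MP_1a3405_co.Ord.FS3
import Pool.Agent.Lib.MP_1a3405_co.Ord.FS4

/-!
The local conditions for the times in the base structure.
-/

namespace Pool.Agent.Lib.MP_1a3405_co.Ord

open Pool.Agent.Lib.MP_1a3405_co

namespace Par

variable {f : ℕ} (P : Par f)

theorem range (p : Fin (f + 2) → ℤ) (hp : InBox P.n p) (hT : ¬ P.side.T p) :
    1 ≤ P.side.τ p ∧ P.side.τ p ≤ P.s + 1 :=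
  ⟨(P.range' p hp).2 hT, (P.range' p hp).1⟩

theorem star (p : Fin (f + 2) → ℤ) (hp : InBox P.n p) (hT : ¬ P.side.T p)
    (hw : p ≠ P.side.w) :
    cnt P.n (fun q => P.side.T q ∨ P.side.τ q + 2 ≤ P.side.τ p) p < 3 := by
  obtain ⟨x, y, u, rfl⟩ := exists_pt p
  rw [inBox_pt] at hp
  obtain ⟨hx, hy, hu⟩ := hp
  rw [side_T] at hT
  rw [side_τ]
  have hxn : x ≠ P.n := fun h => hT (Or.inl h)
  by_cases hx1 : x = P.n - 1
  · have hn := P.not_WS_WP_right (x := x) (y := y) (u := u) (by omega)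
    rw [P.τ3_late hn.1 hn.2]
    subst hx1
    have := star_sep P hy hu hT
    omega
  · have hx2 : 1 ≤ x ∧ x ≤ P.n - 2 := by omega
    by_cases hE : P.E u
    · have hwS : P.wireS (P.h (lo u)) x y := by
        by_contra hcon
        exact hT (Or.inr (Or.inr (Or.inl ⟨hx2.2, hE, hcon⟩)))
      have := star_sheet P hx2 hy hu hE hwS hw
      omega
    · by_cases hWP : P.WP x y u
      · have := star_pas P hx2 hy hu hWP
        omega
      · rw [P.τ3_late (fun h => hE h.1) hWP]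
        have := star_by P hx2 hy hu hE hT hWP
        omega

theorem star_w :
    cnt P.n (fun q => P.side.T q ∨ P.side.τ q + 2 ≤ P.side.τ P.side.w) P.side.w ≤ 3 := by
  classical
  have hb := E_of_box P P.c0_box
  set u0 : Fin f → ℤ := fun i => 3 * P.c0 i - 2 with hu0
  have hn := P.hn
  have hJ := P.hJ
  have hJ2 := P.hJ2
  have hJn := P.hJn
  have hN0 : P.N = (P.M : ℤ) ^ f := rfl
  have hk : P.h (lo u0) = P.N - 1 := by
    rw [hb.2.2, hN0]
    exact (P.h_last P.c0 P.c0_box).2 rfl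
  have hN2 := P.N_even
  have hN : 2 ≤ P.N := by
    have h3 := P.h_range P.c0 P.c0_box
    omega
  have hwire : P.wireS (P.h (lo u0)) 2 2 := by
    right
    refine ⟨by omega, ⟨by omega, by omega, Or.inl ⟨by omega, by omega, by omega⟩⟩, by omega⟩
  have hwire3 : P.wireS (P.h (lo u0)) 2 3 := by
    right
    refine ⟨by omega, ⟨by omega, by omega, Or.inl ⟨by omega, by omega, by omega⟩⟩, by omega⟩
  have hk1 : 1 ≤ P.h (lo u0) := by omega
  have hτw : P.side.τ P.side.w = 1 := by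
    rw [side_w, side_τ, ← hu0, τ3, if_pos ⟨hb.2.1, hk1, hwire⟩, hk, if_pos (by omega), t2,
      if_neg (by omega), if_pos (by omega)]
    norm_num
  rw [hτw, side_w]
  have hQ : ∀ q, InBox P.n q → (P.side.T q ∨ P.side.τ q + 2 ≤ 1) → P.side.T q := by
    intro q hq h
    by_contra hcon
    have := P.range q hq hcon
    rcases h with h | h
    · exact hcon h
    · omega
  have h1 := cnt_pt (n := P.n) (x := 2) (y := 2) (u := u0) (by omega) (by omega) hb.1
    (fun q => P.side.T q ∨ P.side.τ q + 2 ≤ 1)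
  rw [h1]
  have e1 : ¬ ((2 : ℤ) + 1 ≤ P.n ∧ (P.side.T (pt 2 (2 + 1) u0) ∨ P.side.τ (pt 2 (2 + 1) u0) + 2 ≤ 1)) := by
    rintro ⟨-, h⟩
    have hT := hQ (pt 2 (2 + 1) u0) (by rw [inBox_pt]; exact ⟨by omega, by omega, hb.1⟩) h
    rw [side_T] at hT
    rcases hT with h | ⟨h, -⟩ | ⟨-, -, h⟩ | ⟨-, -, h⟩ | ⟨-, h, -⟩
    · omega
    · omega
    · exact h hwire3
    · omega
    · omega
  have e2 : cnt P.n (fun u' => P.side.T (pt 2 2 u') ∨ P.side.τ (pt 2 2 u') + 2 ≤ 1) u0 = 0 := by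
    apply cnt_eq_zero
    intro δ hδ h
    have hT := hQ (pt 2 2 (nb u0 δ)) (by rw [inBox_pt]; exact ⟨by omega, by omega, hδ⟩) h
    rw [side_T] at hT
    rcases hT with h | ⟨h, -⟩ | ⟨-, h, -⟩ | ⟨-, -, h⟩ | ⟨-, h, -⟩
    · omega
    · omega
    · -- a neighbour of a sheet position is not a sheet position
      obtain ⟨i, b⟩ := δ
      have h3 := h i
      have h4 := hb.2.1 i
      rw [nb_self] at h3
      unfold isE at h3 h4
      cases b <;> simp only [Bool.false_eq_true, if_false, if_true] at h3 <;> omega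
    · omega
    · omega
  rw [if_neg e1, e2]
  split_ifs <;> omega

end Par

end Pool.Agent.Lib.MP_1a3405_co.Ord
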