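import Mathlib
import Pool.Agent.Lib.MP_1a3405_co.Ord.FStar
import Pool.Agent.Lib.MP_1a3405_co.Ord.FPerc
import Pool.Agent.Lib.MP_1a3405_co.Ord.Ham
import Pool.Agent.Lib.MP_1a3405_co.Ord.Auto

/-!
The pair of structures with threshold `3` in dimension `g + 4`.
-/

namespace Pool.Agent.Lib.MP_1a3405_co.Ord

open Pool.Agent.Lib.MP_1a3405_co

/-- the parameters used for the side length `n` -/
theorem exists_par (g n : ℕ) (hn : 12 ≤ n) : ∃ P : Par (g + 2), P.n = n ∧
    P.M = 2 * ((n + 2) / 6) ∧ P.J = 2 * ((n - 4) / 4) ∧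
    P.c0 (0 : Fin (g + 1)).succ = 1 := by
  have hM : 2 ≤ 2 * ((n + 2) / 6) := by omega
  have hM2 : Even (2 * ((n + 2) / 6)) := ⟨(n + 2) / 6, by omega⟩
  obtain ⟨h, h1, h2, h3, h4, h5⟩ := exists_ham (g + 1) (2 * ((n + 2) / 6)) hM hM2
  refine ⟨{ n := n, M := 2 * ((n + 2) / 6), J := 2 * ((n - 4) / 4), h := h, hn := hn, hM := hM,
            hMn := by omega, hJ := by omega, hJ2 := by omega, hJn := by omega, hN := ?_,
            h_range := h1, h_succ := h2, h_pred := h3, h_zero := h4,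
            c0 := Fin.cons ((2 * ((n + 2) / 6) : ℕ) : ℤ) (fun _ => 1), c0_box := ?_,
            h_last := h5 }, rfl, rfl, rfl, ?_⟩
  · rw [← Int.even_iff]
    apply Even.pow_of_ne_zero _ (by omega)
    push_cast
    exact ⟨((n : ℤ) + 2) / 6, by ring⟩
  · rw [inBox_cons]
    refine ⟨⟨by omega, le_refl _⟩, fun i => ⟨le_refl _, ?_⟩⟩
    change (1 : ℤ) ≤ _
    omega
  · rfl

theorem exists_pair_base (g n : ℕ) (hn : 12 ≤ n) :
    ∃ X Y : Side (g + 4), IsPair n 3
      ((((2 * ((n + 2) / 6) : ℕ) : ℤ) ^ (g + 2) - 1) *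
        (((2 * ((n - 4) / 4) : ℕ) : ℤ) * ((n : ℤ) - 1) + 3) - 1) X Y := by
  obtain ⟨P, hPn, hPM, hPJ, hc1⟩ := exists_par g n hn
  set i1 : Fin (g + 2) := (0 : Fin (g + 1)).succ with hi1
  set e : Equiv.Perm (Fin (g + 4)) := Equiv.swap 0 i1.succ.succ with he
  set R : (Fin (g + 4) → ℤ) → (Fin (g + 4) → ℤ) := fun p i => p (e i) with hR
  have hRR : ∀ p, R (R p) = p := by
    intro p
    funext i
    simp only [hR, he, Equiv.swap_apply_self]
  have hs : P.s = (((2 * ((n + 2) / 6) : ℕ) : ℤ) ^ (g + 2) - 1) *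
        (((2 * ((n - 4) / 4) : ℕ) : ℤ) * ((n : ℤ) - 1) + 3) - 1 := by
    rw [Par.s, Par.N, Par.per, Par.m2, hPn, hPM, hPJ]
  rw [← hs, ← hPn]
  have hn' := P.hn
  have hb := Par.E_of_box P P.c0_box
  have hw0 : R P.side.w 0 = 1 := by
    have : R P.side.w 0 = P.side.w (i1.succ.succ) := by
      simp only [hR, he, Equiv.swap_apply_left]
    rw [this, Par.side_w]
    change 3 * P.c0 i1 - 2 = 1
    rw [hc1]; norm_num
  have h01 : (1 : Fin (g + 4)) ≠ 0 := by
    intro h
    have := congrArg Fin.val h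
    simp at this
  have h1i : (1 : Fin (g + 4)) ≠ i1.succ.succ := by
    intro h
    have := congrArg Fin.val h
    simp [hi1] at this
    rw [Nat.mod_eq_of_lt (by omega)] at this
    omega
  have hw1 : R P.side.w 1 = 2 := by
    have : R P.side.w 1 = P.side.w 1 := by
      simp only [hR, he]
      rw [Equiv.swap_apply_of_ne_of_ne h01 h1i]
    rw [this, Par.side_w]
    rfl
  have hw3 : Par.upart (R P.side.w) i1 = 2 := by
    have : Par.upart (R P.side.w) i1 = P.side.w 0 := by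
      simp only [Par.upart, hR, he, Equiv.swap_apply_right]
    rw [this, Par.side_w]
    rfl
  have hbw : InBox P.n P.side.w := by
    rw [Par.side_w, Par.inBox_pt]
    exact ⟨by omega, by omega, hb.1⟩
  have hbR : ∀ p, InBox P.n p → InBox P.n (R p) := fun p hp i => hp (e i)
  have hnE : ¬ P.E (Par.upart (R P.side.w)) := by
    intro h
    have := h i1
    rw [hw3] at this
    unfold Par.isE at this
    omega
  have hτ : P.side.τ (R P.side.w) = P.s + 1 := by
    change P.τ3 _ _ _ = _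
    rw [Par.τ3, if_neg (fun h => hnE h.1), if_neg]
    rintro ⟨-, -, h⟩
    rw [hw1] at h
    omega
  have hTR : ¬ P.side.T (R P.side.w) := by
    change ¬ P.T3 _ _ _
    rw [hw0, hw1]
    rintro (h | ⟨h, -⟩ | ⟨-, h, -⟩ | ⟨-, -, h⟩ | ⟨-, h, -⟩)
    · omega
    · omega
    · exact hnE h
    · omega
    · omega
  -- the start point
  have hN0 : P.N = (P.M : ℤ) ^ (g + 2) := rfl
  have hk : P.h (Par.lo (fun i => 3 * P.c0 i - 2)) = P.N - 1 := by
    rw [hb.2.2, hN0]
    exact (P.h_last P.c0 P.c0_box).2 rfl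
  have hN2 := P.N_even
  have hN : 2 ≤ P.N := by
    have h3 := P.h_range P.c0 P.c0_box
    omega
  have hJ := P.hJ
  have hJn := P.hJn
  have hwire : P.wireS (P.h (Par.lo (fun i => 3 * P.c0 i - 2))) 2 2 := by
    right
    refine ⟨by rw [hk]; omega, ⟨by omega, by omega, Or.inl ⟨by omega, by omega, by omega⟩⟩,
      by omega⟩
  have hτw : P.side.τ P.side.w = 1 := by
    rw [Par.side_w, Par.side_τ, Par.τ3, if_pos ⟨hb.2.1, by rw [hk]; omega, hwire⟩, hk,
      if_pos (by omega), Par.t2, if_neg (by omega), if_pos (by omega)]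
    norm_num
  have hTw : ¬ P.side.T P.side.w := by
    rw [Par.side_w, Par.side_T]
    rintro (h | ⟨h, -⟩ | ⟨-, -, h⟩ | ⟨-, -, h⟩ | ⟨-, h, -⟩)
    · omega
    · omega
    · exact h hwire
    · omega
    · omega
  have hG : Good P.n 3 P.s P.side (R P.side.w) :=
    { box_w := hbw
      not_w := hTw
      tau_w := hτw
      box_w' := hbR _ hbw
      not_w' := hTR
      tau_w' := by rw [hτ]; omega
      range := P.range
      star := P.star
      star_w := P.star_w
      perc := P.perc (by omega) }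
  refine ⟨P.side, P.side.map R, hG, ?_⟩
  have hG2 := hG.map R hRR hbR (fun Q p _ => cnt_perm e Q p)
  rw [hRR] at hG2
  exact hG2

end Pool.Agent.Lib.MP_1a3405_co.Ord
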