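import Mathlib
import Pool.Agent.Lib.MP_1a3405_co.Ord.Defs

/-!
Long induced paths (wires) in the box, and the pairs of structures they define.
-/

namespace Pool.Agent.Lib.MP_1a3405_co.Ord

open Pool.Agent.Lib.MP_1a3405_co

variable {n : ℕ}

/-- A long induced path (a wire) in the box `{1..n}^D`: `W` is the set of its points, `t` the
position along it. Its first and last points lie on a facet, all others are interior. -/
structure Snake (D n : ℕ) (m : ℤ) where
  /-- the points of the path -/
  W : (Fin D → ℤ) → Prop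
  /-- the position along the path -/
  t : (Fin D → ℤ) → ℤ
  hm : 2 ≤ m
  box : ∀ p, W p → InBox n p
  range : ∀ p, W p → 0 ≤ t p ∧ t p ≤ m
  adj : ∀ p δ, W p → W (nb p δ) → t (nb p δ) = t p + 1 ∨ t (nb p δ) = t p - 1
  succ : ∀ p, W p → t p < m → cnt n (fun q => W q ∧ t q = t p + 1) p = 1
  pred : ∀ p, W p → 0 < t p → cnt n (fun q => W q ∧ t q = t p - 1) p = 1
  wall : ∀ p, W p → cnt n (fun q => ¬ W q) p + 2 = 2 * D
  /-- the point with `t = 1` -/
  a : Fin D → ℤ
  /-- the point with `t = m - 1` -/
  b : Fin D → ℤ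
  ha : W a ∧ t a = 1
  hb : W b ∧ t b = m - 1
  una : ∀ p, W p → t p = 1 → p = a
  unb : ∀ p, W p → t p = m - 1 → p = b

/-- reversal of the path -/
def Snake.rev {D : ℕ} {m : ℤ} (S : Snake D n m) : Snake D n m where
  W := S.W
  t p := m - S.t p
  hm := S.hm
  box := S.box
  range p hp := by
    have := S.range p hp
    constructor <;> omega
  adj p δ hp hq := by
    have := S.adj p δ hp hq
    omega
  succ p hp h := by
    rw [← S.pred p hp (by omega)]
    apply cnt_congr
    intro δ _
    constructor
    · rintro ⟨h1, h2⟩; exact ⟨h1, by omega⟩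
    · rintro ⟨h1, h2⟩; exact ⟨h1, by omega⟩
  pred p hp h := by
    rw [← S.succ p hp (by omega)]
    apply cnt_congr
    intro δ _
    constructor
    · rintro ⟨h1, h2⟩; exact ⟨h1, by omega⟩
    · rintro ⟨h1, h2⟩; exact ⟨h1, by omega⟩
  wall := S.wall
  a := S.b
  b := S.a
  ha := ⟨S.hb.1, by have := S.hb.2; omega⟩
  hb := ⟨S.ha.1, by have := S.ha.2; omega⟩
  una p hp h := S.unb p hp (by omega)
  unb p hp h := S.una p hp (by omega)

lemma Snake.good {D : ℕ} {m : ℤ} (S : Snake D n m) :
    Good n (2 * D - 1) (m - 1) ⟨fun p => ¬ S.W p ∨ S.t p = 0, S.t, S.a⟩ S.b := by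
  have hm := S.hm
  have ha := S.ha
  have hb := S.hb
  have hD := S.wall _ ha.1
  refine ⟨S.box _ ha.1, ?_, ha.2, S.box _ hb.1, ?_, ?_, ?_, ?_, ?_, ?_⟩
  · rintro (h | h)
    · exact h ha.1
    · simp only at h; omega
  · rintro (h | h)
    · exact h hb.1
    · omega
  · simp only; omega
  · intro p _ hT
    simp only [not_or, not_not] at hT
    have := S.range p hT.1
    simp only
    omega
  · intro p _ hT hne
    simp only [not_or, not_not] at hT hne ⊢
    have h1 := S.range p hT.1
    have h2 : S.t p ≠ 1 := fun h => hne (S.una p hT.1 h)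
    have h3 := S.wall p hT.1
    have h4 : cnt n (fun q => (¬ S.W q ∨ S.t q = 0) ∨ S.t q + 2 ≤ S.t p) p ≤
        cnt n (fun q => ¬ S.W q) p := by
      apply cnt_mono
      intro δ _ hQ hW
      have h5 := S.adj p δ hT.1 hW
      rcases hQ with (h | h) | h
      · exact h hW
      · omega
      · omega
    omega
  · simp only
    have h3 := S.wall _ ha.1
    have h4 : cnt n (fun q => (¬ S.W q ∨ S.t q = 0) ∨ S.t q + 2 ≤ S.t S.a) S.a ≤
        cnt n (fun q => ¬ S.W q ∨ (S.W q ∧ S.t q = S.t S.a - 1)) S.a := by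
      apply cnt_mono
      intro δ _ hQ
      by_cases hW : S.W (nb S.a δ)
      · right
        have h5 := S.adj S.a δ ha.1 hW
        refine ⟨hW, ?_⟩
        rcases hQ with (h | h) | h
        · exact absurd hW h
        · omega
        · omega
      · left; exact hW
    have h5 := cnt_or_le (n := n) (fun q => ¬ S.W q) (fun q => S.W q ∧ S.t q = S.t S.a - 1) S.a
    have h6 := S.pred _ ha.1 (by omega)
    omega
  · intro U hU
    have key : ∀ k : ℕ, ∀ p, (S.t p).toNat = k → ¬ U p := by
      intro k
      induction k using Nat.strong_induction_on with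
      | _ k ih =>
        intro p hk hUp
        obtain ⟨h1, h2, h3⟩ := hU p hUp
        simp only [not_or, not_not] at h2
        have hr := S.range p h2.1
        have h4 : cnt n (fun q => ¬ S.W q ∨ (S.W q ∧ S.t q = S.t p - 1)) p =
            cnt n (fun q => ¬ S.W q) p + cnt n (fun q => S.W q ∧ S.t q = S.t p - 1) p :=
          cnt_or_of_disjoint (fun δ _ hQ hQ' => hQ hQ'.1)
        have h5 := S.pred p h2.1 (by omega)
        have h6 := S.wall p h2.1
        have h7 : cnt n (fun q => ¬ S.W q ∨ (S.W q ∧ S.t q = S.t p - 1)) p ≤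
            cnt n (fun q => ¬ U q) p := by
          apply cnt_mono
          intro δ _ hQ hUq
          have h8 := (hU _ hUq).2.1
          simp only [not_or, not_not] at h8
          rcases hQ with hQ | hQ
          · exact hQ h8.1
          · exact ih (S.t (nb p δ)).toNat (by omega) (nb p δ) rfl hUq
        omega
    intro p
    exact key _ p rfl

theorem Snake.pair {D : ℕ} {m : ℤ} (S : Snake D n m) :
    IsPair n (2 * D - 1) (m - 1)
      ⟨fun p => ¬ S.W p ∨ S.t p = 0, S.t, S.a⟩
      ⟨fun p => ¬ S.W p ∨ S.t p = m, fun p => m - S.t p, S.b⟩ := by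
  refine ⟨S.good, ?_⟩
  have h := S.rev.good
  have e : (fun p => ¬ S.rev.W p ∨ S.rev.t p = 0) = (fun p => ¬ S.W p ∨ S.t p = m) := by
    funext p
    apply propext
    change (¬ S.W p ∨ m - S.t p = 0) ↔ _
    constructor
    · rintro (h | h)
      · exact Or.inl h
      · right; omega
    · rintro (h | h)
      · exact Or.inl h
      · right; omega
  rw [e] at h
  exact h

lemma cnt_fin_zero (Q : (Fin 0 → ℤ) → Prop) (p : Fin 0 → ℤ) : cnt n Q p = 0 := by
  simp [cnt]

/-- the line -/
def Snake.line (n : ℕ) (hn : 3 ≤ n) : Snake 1 n ((n : ℤ) - 1) where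
  W p := InBox n p
  t p := p 0 - 1
  hm := by omega
  box _ h := h
  range p hp := by
    have := hp 0
    constructor <;> omega
  adj p δ hp hq := by
    obtain ⟨i, b⟩ := δ
    have hi : i = 0 := Subsingleton.elim _ _
    subst hi
    simp only [nb, Function.update_self]
    cases b
    · right; simp only [Bool.false_eq_true, if_false]; ring
    · left; simp only [if_true]; ring
  succ p hp h := by
    obtain ⟨z, q, rfl⟩ : ∃ z q, p = Fin.cons z q := ⟨p 0, Fin.tail p, (Fin.cons_self_tail p).symm⟩
    have hp' := hp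
    rw [inBox_cons] at hp'
    simp only [Fin.cons_zero] at h
    rw [cnt_cons hp'.1 hp'.2, cnt_fin_zero, if_pos, if_neg]
    · rintro ⟨-, -, h2⟩
      simp only [Fin.cons_zero] at h2
      omega
    · refine ⟨by omega, ?_, ?_⟩
      · rw [inBox_cons]; exact ⟨by omega, hp'.2⟩
      · simp only [Fin.cons_zero]; ring
  pred p hp h := by
    obtain ⟨z, q, rfl⟩ : ∃ z q, p = Fin.cons z q := ⟨p 0, Fin.tail p, (Fin.cons_self_tail p).symm⟩
    have hp' := hp
    rw [inBox_cons] at hp'
    simp only [Fin.cons_zero] at h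
    rw [cnt_cons hp'.1 hp'.2, cnt_fin_zero, if_neg, if_pos]
    · refine ⟨by omega, ?_, ?_⟩
      · rw [inBox_cons]; exact ⟨by omega, hp'.2⟩
      · simp only [Fin.cons_zero]
    · rintro ⟨-, -, h2⟩
      simp only [Fin.cons_zero] at h2
      omega
  wall p hp := by
    have : cnt n (fun q => ¬ InBox n q) p = 0 := cnt_eq_zero (fun δ hb hq => hq hb)
    omega
  a := fun _ => 2
  b := fun _ => (n : ℤ) - 1
  ha := ⟨fun _ => by change (1 : ℤ) ≤ 2 ∧ (2 : ℤ) ≤ n; constructor <;> omega, by norm_num⟩
  hb := ⟨fun _ => by change (1 : ℤ) ≤ n - 1 ∧ (n : ℤ) - 1 ≤ n; constructor <;> omega, by ring⟩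
  una p hp h := by
    funext i
    have hi : i = 0 := Subsingleton.elim _ _
    subst hi
    change p 0 = 2
    omega
  unb p hp h := by
    funext i
    have hi : i = 0 := Subsingleton.elim _ _
    subst hi
    change p 0 = (n : ℤ) - 1
    omega

/-- the number of all neighbours of a point of a wire -/
lemma Snake.total {D : ℕ} {m : ℤ} (S : Snake D n m) {p : Fin D → ℤ} (hp : S.W p) :
    cnt n (fun _ => True) p + 2 =
      2 * D + (if 0 < S.t p then 1 else 0) + (if S.t p < m then 1 else 0) := by
  have hr := S.range p hp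
  have h1 : cnt n (fun _ => True) p =
      cnt n (fun q => ¬ S.W q) p + cnt n (fun q => S.W q) p := by
    rw [← cnt_or_of_disjoint (fun δ _ hQ hQ' => hQ hQ')]
    apply cnt_congr
    intro δ _
    constructor
    · intro _; exact (em _).symm
    · intro _; trivial
  have h2 : cnt n (fun q => S.W q) p = cnt n (fun q => S.W q ∧ S.t q = S.t p + 1) p +
      cnt n (fun q => S.W q ∧ S.t q = S.t p - 1) p := by
    rw [← cnt_or_of_disjoint (fun δ _ hQ hQ' => by have := hQ.2; have := hQ'.2; omega)]
    apply cnt_congr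
    intro δ _
    constructor
    · intro hW
      rcases S.adj p δ hp hW with h | h
      · exact Or.inl ⟨hW, h⟩
      · exact Or.inr ⟨hW, h⟩
    · rintro (h | h)
      · exact h.1
      · exact h.1
  have h3 := S.wall p hp
  have h4 : cnt n (fun q => S.W q ∧ S.t q = S.t p + 1) p = if S.t p < m then 1 else 0 := by
    split_ifs with h
    · exact S.succ p hp h
    · apply cnt_eq_zero
      rintro δ _ ⟨hW, ht⟩
      have := S.range _ hW
      omega
  have h5 : cnt n (fun q => S.W q ∧ S.t q = S.t p - 1) p = if 0 < S.t p then 1 else 0 := by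
    split_ifs with h
    · exact S.pred p hp h
    · apply cnt_eq_zero
      rintro δ _ ⟨hW, ht⟩
      have := S.range _ hW
      omega
  rw [h1, h2, h4, h5]
  omega

end Pool.Agent.Lib.MP_1a3405_co.Ord
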