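import Mathlib
import Pool.Agent.Lib.MP_1a3405_co.Ord.Snake

/-!
From a wire in dimension `D` to a wire in dimension `D + 1` which is `K` times longer.
-/

namespace Pool.Agent.Lib.MP_1a3405_co.Ord

open Pool.Agent.Lib.MP_1a3405_co

variable {n D : ℕ} {m : ℤ}

open Classical in
/-- `cnt_cons` for conditions in terms of the first coordinate and the rest. -/
lemma cnt_cons' {d : ℕ} {z : ℤ} {q : Fin d → ℤ} (hz : 1 ≤ z ∧ z ≤ n) (hq : InBox n q)
    (R : ℤ → (Fin d → ℤ) → Prop) :
    cnt n (fun p : Fin (d + 1) → ℤ => R (p 0) (Fin.tail p)) (Fin.cons z q) =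
      (if z + 1 ≤ n ∧ R (z + 1) q then 1 else 0) +
      (if 1 ≤ z - 1 ∧ R (z - 1) q then 1 else 0) +
      cnt n (fun q' => R z q') q :=
  cnt_cons hz hq (fun p : Fin (d + 1) → ℤ => R (p 0) (Fin.tail p))

/-- the wire `S` or its reversal -/
def Snake.sd (S : Snake D n m) (j : ℤ) : Snake D n m := if j % 2 = 1 then S else S.rev

lemma Snake.sd_W (S : Snake D n m) (j : ℤ) : (S.sd j).W = S.W := by
  unfold Snake.sd
  split_ifs <;> rfl

lemma Snake.sd_succ (S : Snake D n m) (j : ℤ) (q : Fin D → ℤ) :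
    (S.sd (j + 1)).t q = m - (S.sd j).t q := by
  unfold Snake.sd
  rcases Int.emod_two_eq_zero_or_one j with h | h
  · rw [if_pos (by omega), if_neg (by omega)]
    change S.t q = m - (m - S.t q)
    ring
  · rw [if_neg (by omega), if_pos h]
    rfl

/-- the new set of points -/
def Snake.W' (S : Snake D n m) (K : ℕ) (z : ℤ) (q : Fin D → ℤ) : Prop :=
  S.W q ∧ 2 ≤ z ∧ z ≤ 2 * K ∧
    ((z % 2 = 0 ∧ ((1 ≤ (S.sd (z / 2)).t q ∧ (S.sd (z / 2)).t q ≤ m - 1) ∨
        (z = 2 ∧ (S.sd (z / 2)).t q = 0) ∨ (z = 2 * K ∧ (S.sd (z / 2)).t q = m))) ∨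
      (z % 2 = 1 ∧ (S.sd (z / 2)).t q = m - 1))

/-- the new position -/
def Snake.t' (S : Snake D n m) (z : ℤ) (q : Fin D → ℤ) : ℤ :=
  (z / 2 - 1) * m + (S.sd (z / 2)).t q + z % 2

lemma Snake.tin_range (S : Snake D n m) {q : Fin D → ℤ} (h : S.W q) (j : ℤ) :
    0 ≤ (S.sd j).t q ∧ (S.sd j).t q ≤ m := by
  rw [← S.sd_W j] at h
  exact (S.sd j).range q h

lemma Snake.t'_bounds (S : Snake D n m) {K : ℕ} {z : ℤ} {q : Fin D → ℤ} (h : S.W' K z q) :
    0 ≤ S.t' z q ∧ S.t' z q ≤ K * m := by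
  obtain ⟨hW, h2, hK, h⟩ := h
  have hr := S.tin_range hW (z / 2)
  have hm := S.hm
  have h1 : 0 ≤ (z / 2 - 1) * m := mul_nonneg (by omega) (by omega)
  unfold Snake.t'
  rcases h with ⟨hz, h⟩ | ⟨hz, h⟩
  · have h3 : (z / 2 - 1) * m ≤ ((K : ℤ) - 1) * m :=
      mul_le_mul_of_nonneg_right (by omega) (by omega)
    have h4 : (K : ℤ) * m = ((K : ℤ) - 1) * m + m := by ring
    constructor <;> omega
  · have h3 : (z / 2 - 1) * m ≤ ((K : ℤ) - 2) * m :=
      mul_le_mul_of_nonneg_right (by omega) (by omega)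
    have h4 : (K : ℤ) * m = ((K : ℤ) - 2) * m + m + m := by ring
    constructor <;> omega

/-- vertical neighbours of a point of the new wire -/
lemma Snake.up (S : Snake D n m) {K : ℕ} {z : ℤ} {q : Fin D → ℤ} (h : S.W' K z q)
    (h' : S.W' K (z + 1) q) : S.t' (z + 1) q = S.t' z q + 1 := by
  obtain ⟨hW, h2, hK, h⟩ := h
  obtain ⟨-, h2', hK', h'⟩ := h'
  unfold Snake.t'
  rcases h with ⟨hz, h⟩ | ⟨hz, h⟩
  · have e : (z + 1) / 2 = z / 2 := by omega
    rw [e] at h' ⊢
    omega
  · have e : (z + 1) / 2 = z / 2 + 1 := by omega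
    rw [e, S.sd_succ] at h' ⊢
    have : (z / 2 + 1 - 1) * m = (z / 2 - 1) * m + m := by ring
    omega

lemma Snake.level (S : Snake D n m) {K : ℕ} {z : ℤ} {q : Fin D → ℤ} {δ : Fin D × Bool}
    (h : S.W' K z q) (h' : S.W' K z (nb q δ)) :
    S.t' z (nb q δ) = S.t' z q + 1 ∨ S.t' z (nb q δ) = S.t' z q - 1 := by
  obtain ⟨hW, h2, hK, h⟩ := h
  obtain ⟨hW', h2', hK', h'⟩ := h'
  have ha := (S.sd (z / 2)).adj q δ (by rw [S.sd_W]; exact hW) (by rw [S.sd_W]; exact hW')
  unfold Snake.t'
  omega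

/-- existence of an upper neighbour -/
lemma Snake.up_iff (S : Snake D n m) {K : ℕ} {z : ℤ} {q : Fin D → ℤ} (h : S.W' K z q) :
    S.W' K (z + 1) q ↔ (z % 2 = 0 ∧ z < 2 * K ∧ (S.sd (z / 2)).t q = m - 1) ∨ z % 2 = 1 := by
  have hm := S.hm
  obtain ⟨hW, h2, hK, h⟩ := h
  constructor
  · rintro ⟨-, h2', hK', h'⟩
    rcases h with ⟨hz, h⟩ | ⟨hz, h⟩
    · left
      have e : (z + 1) / 2 = z / 2 := by omega
      rw [e] at h'
      refine ⟨hz, by omega, ?_⟩
      rcases h' with h' | h'
      · omega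
      · exact h'.2
    · right; exact hz
  · intro h'
    refine ⟨hW, by omega, by omega, ?_⟩
    rcases h' with ⟨hz, h3, h4⟩ | hz
    · right
      have e : (z + 1) / 2 = z / 2 := by omega
      rw [e]
      exact ⟨by omega, h4⟩
    · left
      have e : (z + 1) / 2 = z / 2 + 1 := by omega
      rw [e, S.sd_succ]
      refine ⟨by omega, Or.inl ?_⟩
      omega

/-- existence of a lower neighbour -/
lemma Snake.down_iff (S : Snake D n m) {K : ℕ} {z : ℤ} {q : Fin D → ℤ} (h : S.W' K z q) :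
    S.W' K (z - 1) q ↔ (z % 2 = 0 ∧ 2 < z ∧ (S.sd (z / 2)).t q = 1) ∨ z % 2 = 1 := by
  have hm := S.hm
  obtain ⟨hW, h2, hK, h⟩ := h
  constructor
  · rintro ⟨-, h2', hK', h'⟩
    rcases h with ⟨hz, h⟩ | ⟨hz, h⟩
    · left
      have e : z / 2 = (z - 1) / 2 + 1 := by omega
      rw [e, S.sd_succ]
      refine ⟨hz, by omega, ?_⟩
      rcases h' with h' | h'
      · omega
      · omega
    · right; exact hz
  · intro h'
    refine ⟨hW, by omega, by omega, ?_⟩
    rcases h' with ⟨hz, h3, h4⟩ | hz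
    · right
      have e : z / 2 = (z - 1) / 2 + 1 := by omega
      rw [e, S.sd_succ] at h4
      exact ⟨by omega, by omega⟩
    · left
      have e : (z - 1) / 2 = z / 2 := by omega
      rw [e]
      refine ⟨by omega, Or.inl ?_⟩
      omega

/-- the successor count -/
lemma Snake.succ' (S : Snake D n m) {K : ℕ} (hKn : 2 * K + 1 ≤ n) {z : ℤ} {q : Fin D → ℤ}
    (h : S.W' K z q) (ht : S.t' z q < K * m) :
    cnt n (fun p : Fin (D + 1) → ℤ => S.W' K (p 0) (Fin.tail p) ∧
      S.t' (p 0) (Fin.tail p) = S.t' z q + 1) (Fin.cons z q) = 1 := by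
  have hm := S.hm
  have hb := S.box q h.1
  have hz2 := h.2.1
  have hzK := h.2.2.1
  rw [cnt_cons' (by omega) hb (fun z' q' => S.W' K z' q' ∧ S.t' z' q' = S.t' z q + 1)]
  -- the lower neighbour is the predecessor
  have hdown : ¬ (1 ≤ z - 1 ∧ S.W' K (z - 1) q ∧ S.t' (z - 1) q = S.t' z q + 1) := by
    rintro ⟨-, h1, h2⟩
    have h3 : S.W' K (z - 1 + 1) q := by rwa [show z - 1 + 1 = z by ring]
    have h4 := S.up h1 h3
    rw [show z - 1 + 1 = z by ring] at h4
    omega
  rw [if_neg hdown]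
  by_cases hup : S.W' K (z + 1) q
  · -- the upper neighbour is the successor
    rw [if_pos ⟨by have := hup.2.2.1; omega, hup, S.up h hup⟩]
    have hl : cnt n (fun q' => S.W' K z q' ∧ S.t' z q' = S.t' z q + 1) q = 0 := by
      apply cnt_eq_zero
      rintro δ _ ⟨h1, h2⟩
      have h3 := (S.up_iff h).1 hup
      obtain ⟨hW, -, -, h4⟩ := h
      obtain ⟨hW', -, -, h5⟩ := h1
      unfold Snake.t' at h2
      have hr := S.tin_range hW' (z / 2)
      omega
    rw [hl]
  · rw [if_neg (fun hh => hup hh.2.1)]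
    have h3 := mt (S.up_iff h).2 hup
    obtain ⟨hW, -, -, h4⟩ := h
    have hz0 : z % 2 = 0 := by omega
    have htin : (S.sd (z / 2)).t q < m := by
      by_contra hcon
      have hr := S.tin_range hW (z / 2)
      have h5 : (S.sd (z / 2)).t q = m := by omega
      have h6 : z = 2 * K := by omega
      unfold Snake.t' at ht
      have h7 : z / 2 = K := by omega
      rw [h5, h7] at ht
      have h8 : (K : ℤ) * m = ((K : ℤ) - 1) * m + m := by ring
      omega
    have h5 := (S.sd (z / 2)).succ q (by rw [S.sd_W]; exact hW) htin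
    rw [← h5]
    simp only [zero_add]
    apply cnt_congr
    intro δ _
    rw [S.sd_W]
    constructor
    · rintro ⟨⟨h6, -⟩, h7⟩
      refine ⟨h6, ?_⟩
      unfold Snake.t' at h7
      omega
    · rintro ⟨h6, h7⟩
      refine ⟨⟨h6, hz2, hzK, Or.inl ⟨hz0, ?_⟩⟩, ?_⟩
      · rw [h7]
        by_cases h8 : (S.sd (z / 2)).t q = m - 1
        · right; right
          refine ⟨?_, by omega⟩
          by_contra h9
          exact h3 (Or.inl ⟨hz0, by omega, h8⟩)
        · left
          have hr := S.tin_range hW (z / 2)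
          omega
      · unfold Snake.t'
        omega

/-- the predecessor count -/
lemma Snake.pred' (S : Snake D n m) {K : ℕ} (hKn : 2 * K + 1 ≤ n) {z : ℤ} {q : Fin D → ℤ}
    (h : S.W' K z q) (ht : 0 < S.t' z q) :
    cnt n (fun p : Fin (D + 1) → ℤ => S.W' K (p 0) (Fin.tail p) ∧
      S.t' (p 0) (Fin.tail p) = S.t' z q - 1) (Fin.cons z q) = 1 := by
  have hm := S.hm
  have hb := S.box q h.1
  have hz2 := h.2.1
  have hzK := h.2.2.1
  rw [cnt_cons' (by omega) hb (fun z' q' => S.W' K z' q' ∧ S.t' z' q' = S.t' z q - 1)]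
  -- the upper neighbour is the successor
  have hup : ¬ (z + 1 ≤ n ∧ S.W' K (z + 1) q ∧ S.t' (z + 1) q = S.t' z q - 1) := by
    rintro ⟨-, h1, h2⟩
    have h4 := S.up h h1
    omega
  rw [if_neg hup]
  by_cases hdn : S.W' K (z - 1) q
  · have h3 : S.W' K (z - 1 + 1) q := by rwa [show z - 1 + 1 = z by ring]
    have h4 := S.up hdn h3
    rw [show z - 1 + 1 = z by ring] at h4
    rw [if_pos ⟨by omega, hdn, by omega⟩]
    have hl : cnt n (fun q' => S.W' K z q' ∧ S.t' z q' = S.t' z q - 1) q = 0 := by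
      apply cnt_eq_zero
      rintro δ _ ⟨h1, h2⟩
      have h3 := (S.down_iff h).1 hdn
      obtain ⟨hW, -, -, h4⟩ := h
      obtain ⟨hW', -, -, h5⟩ := h1
      unfold Snake.t' at h2
      have hr := S.tin_range hW' (z / 2)
      omega
    rw [hl]
  · rw [if_neg (fun hh => hdn hh.2.1)]
    have h3 := mt (S.down_iff h).2 hdn
    obtain ⟨hW, -, -, h4⟩ := h
    have hz0 : z % 2 = 0 := by omega
    have htin : 0 < (S.sd (z / 2)).t q := by
      by_contra hcon
      have hr := S.tin_range hW (z / 2)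
      have h5 : (S.sd (z / 2)).t q = 0 := by omega
      have h6 : z = 2 := by omega
      unfold Snake.t' at ht
      have h7 : z / 2 = 1 := by omega
      rw [h5, h7] at ht
      omega
    have h5 := (S.sd (z / 2)).pred q (by rw [S.sd_W]; exact hW) htin
    rw [← h5]
    simp only [zero_add]
    apply cnt_congr
    intro δ _
    rw [S.sd_W]
    constructor
    · rintro ⟨⟨h6, -⟩, h7⟩
      refine ⟨h6, ?_⟩
      unfold Snake.t' at h7
      omega
    · rintro ⟨h6, h7⟩
      refine ⟨⟨h6, hz2, hzK, Or.inl ⟨hz0, ?_⟩⟩, ?_⟩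
      · rw [h7]
        by_cases h8 : (S.sd (z / 2)).t q = 1
        · right; left
          refine ⟨?_, by omega⟩
          by_contra h9
          exact h3 (Or.inl ⟨hz0, by omega, h8⟩)
        · left
          have hr := S.tin_range hW (z / 2)
          omega
      · unfold Snake.t'
        omega

/-- adjacency -/
lemma Snake.adj' (S : Snake D n m) {K : ℕ} {p : Fin (D + 1) → ℤ} {δ : Fin (D + 1) × Bool}
    (h : S.W' K (p 0) (Fin.tail p)) (h' : S.W' K (nb p δ 0) (Fin.tail (nb p δ))) :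
    S.t' (nb p δ 0) (Fin.tail (nb p δ)) = S.t' (p 0) (Fin.tail p) + 1 ∨
    S.t' (nb p δ 0) (Fin.tail (nb p δ)) = S.t' (p 0) (Fin.tail p) - 1 := by
  obtain ⟨z, q, rfl⟩ : ∃ z q, p = Fin.cons z q := ⟨p 0, Fin.tail p, (Fin.cons_self_tail p).symm⟩
  obtain ⟨i, b⟩ := δ
  revert h'
  refine Fin.cases ?_ (fun i => ?_) i
  · rw [nb_cons_zero]
    simp only [Fin.cons_zero, Fin.tail_cons] at h ⊢
    intro h'
    cases b
    · simp only [Bool.false_eq_true, if_false] at h' ⊢
      rw [← sub_eq_add_neg] at h' ⊢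
      right
      have h3 : S.W' K (z - 1 + 1) q := by rwa [show z - 1 + 1 = z by ring]
      have h4 := S.up h' h3
      rw [show z - 1 + 1 = z by ring] at h4
      omega
    · simp only [if_true] at h' ⊢
      left
      exact S.up h h'
  · rw [nb_cons_succ]
    simp only [Fin.cons_zero, Fin.tail_cons] at h ⊢
    intro h'
    exact S.level h h'

theorem Snake.step (S : Snake D n m) (K : ℕ) (hK : 1 ≤ K)
    (hKn : 2 * K + 1 ≤ n) : Nonempty (Snake (D + 1) n (K * m)) := by
  classical
  have hm := S.hm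
  have hKm : 1 * m ≤ (K : ℤ) * m := mul_le_mul_of_nonneg_right (by omega) (by omega)
  refine ⟨{ W := fun p => S.W' K (p 0) (Fin.tail p)
            t := fun p => S.t' (p 0) (Fin.tail p)
            hm := by omega
            box := ?_
            range := fun p hp => S.t'_bounds hp
            adj := fun p δ h h' => S.adj' h h'
            succ := ?_
            pred := ?_
            wall := ?_
            a := Fin.cons 2 S.a
            b := Fin.cons (2 * (K : ℤ)) (S.sd K).b
            ha := ?_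
            hb := ?_
            una := ?_
            unb := ?_ }⟩
  · intro p hp
    obtain ⟨z, q, rfl⟩ : ∃ z q, p = Fin.cons z q := ⟨p 0, Fin.tail p, (Fin.cons_self_tail p).symm⟩
    simp only [Fin.cons_zero, Fin.tail_cons] at hp
    rw [inBox_cons]
    have h1 := hp.2.1
    have h2 := hp.2.2.1
    exact ⟨by omega, S.box q hp.1⟩
  · intro p hp ht
    obtain ⟨z, q, rfl⟩ : ∃ z q, p = Fin.cons z q := ⟨p 0, Fin.tail p, (Fin.cons_self_tail p).symm⟩
    simp only [Fin.cons_zero, Fin.tail_cons] at hp ht ⊢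
    exact S.succ' hKn hp ht
  · intro p hp ht
    obtain ⟨z, q, rfl⟩ : ∃ z q, p = Fin.cons z q := ⟨p 0, Fin.tail p, (Fin.cons_self_tail p).symm⟩
    simp only [Fin.cons_zero, Fin.tail_cons] at hp ht ⊢
    exact S.pred' hKn hp ht
  · intro p hp
    obtain ⟨z, q, rfl⟩ : ∃ z q, p = Fin.cons z q := ⟨p 0, Fin.tail p, (Fin.cons_self_tail p).symm⟩
    simp only [Fin.cons_zero, Fin.tail_cons] at hp
    have hz2 := hp.2.1
    have hzK := hp.2.2.1
    have hb := S.box q hp.1
    -- all neighbours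
    have htot : cnt n (fun _ => True) (Fin.cons z q : Fin (D + 1) → ℤ) =
        2 + cnt n (fun _ => True) q := by
      rw [cnt_cons (by omega) hb, if_pos ⟨by omega, trivial⟩, if_pos ⟨by omega, trivial⟩]
    have h0 := S.total hp.1
    have h1 : cnt n (fun _ => True) (Fin.cons z q : Fin (D + 1) → ℤ) =
        cnt n (fun p : Fin (D + 1) → ℤ => ¬ S.W' K (p 0) (Fin.tail p)) (Fin.cons z q) +
        cnt n (fun p : Fin (D + 1) → ℤ => S.W' K (p 0) (Fin.tail p)) (Fin.cons z q) := by
      rw [← cnt_or_of_disjoint (fun δ _ hQ hQ' => hQ hQ')]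
      apply cnt_congr
      intro δ _
      constructor
      · intro _; exact (em _).symm
      · intro _; trivial
    have h2 : cnt n (fun p : Fin (D + 1) → ℤ => S.W' K (p 0) (Fin.tail p)) (Fin.cons z q) =
        cnt n (fun p : Fin (D + 1) → ℤ => S.W' K (p 0) (Fin.tail p) ∧
          S.t' (p 0) (Fin.tail p) = S.t' z q + 1) (Fin.cons z q) +
        cnt n (fun p : Fin (D + 1) → ℤ => S.W' K (p 0) (Fin.tail p) ∧
          S.t' (p 0) (Fin.tail p) = S.t' z q - 1) (Fin.cons z q) := by
      rw [← cnt_or_of_disjoint (fun δ _ hQ hQ' => by have := hQ.2; have := hQ'.2; omega)]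
      apply cnt_congr
      intro δ _
      constructor
      · intro hW
        rcases S.adj' (p := Fin.cons z q) (δ := δ) hp hW with h | h
        · exact Or.inl ⟨hW, h⟩
        · exact Or.inr ⟨hW, h⟩
      · rintro (h | h)
        · exact h.1
        · exact h.1
    have hr := S.t'_bounds hp
    have h3 : cnt n (fun p : Fin (D + 1) → ℤ => S.W' K (p 0) (Fin.tail p) ∧
          S.t' (p 0) (Fin.tail p) = S.t' z q + 1) (Fin.cons z q) =
          if S.t' z q < K * m then 1 else 0 := by
      split_ifs with h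
      · exact S.succ' hKn hp h
      · apply cnt_eq_zero
        rintro δ _ ⟨hW, ht⟩
        have := S.t'_bounds hW
        omega
    have h4 : cnt n (fun p : Fin (D + 1) → ℤ => S.W' K (p 0) (Fin.tail p) ∧
          S.t' (p 0) (Fin.tail p) = S.t' z q - 1) (Fin.cons z q) =
          if 0 < S.t' z q then 1 else 0 := by
      split_ifs with h
      · exact S.pred' hKn hp h
      · apply cnt_eq_zero
        rintro δ _ ⟨hW, ht⟩
        have := S.t'_bounds hW
        omega
    -- comparison of the end conditions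
    have h5 : ((if 0 < S.t q then 1 else 0) + (if S.t q < m then 1 else 0) : ℕ) =
        (if S.t' z q < K * m then 1 else 0) + (if 0 < S.t' z q then 1 else 0) := by
      have htin := S.tin_range hp.1 (z / 2)
      have hpos : 0 ≤ (z / 2 - 1) * m := mul_nonneg (by omega) (by omega)
      obtain ⟨hW, -, -, h⟩ := hp
      have e1 : S.t' z q = (z / 2 - 1) * m + (S.sd (z / 2)).t q + z % 2 := rfl
      have htq : (S.sd (z / 2)).t q = S.t q ∨ (S.sd (z / 2)).t q = m - S.t q := by
        unfold Snake.sd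
        split_ifs
        · left; rfl
        · right; rfl
      have hK1 : (K : ℤ) * m = ((K : ℤ) - 1) * m + m := by ring
      have hK2 : (K : ℤ) * m = ((K : ℤ) - 2) * m + m + m := by ring
      have hmono : z / 2 ≤ (K : ℤ) - 1 → (z / 2 - 1) * m ≤ ((K : ℤ) - 2) * m :=
        fun h => mul_le_mul_of_nonneg_right (by omega) (by omega)
      have hmono2 : (z / 2 - 1) * m ≤ ((K : ℤ) - 1) * m :=
        mul_le_mul_of_nonneg_right (by omega) (by omega)
      rcases h with ⟨hz, h | h | h⟩ | ⟨hz, h⟩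
      · rw [if_pos (by omega), if_pos (by omega), if_pos (by omega), if_pos (by omega)]
      · -- z = 2 and tin = 0
        have e2 : z / 2 = 1 := by omega
        have e3 : (z / 2 - 1) * m = 0 := by rw [e2]; ring
        have e4 : S.t' z q = 0 := by omega
        rw [e4, if_pos (show (0 : ℤ) < K * m by omega), if_neg (lt_irrefl (0 : ℤ))]
        rcases htq with h6 | h6
        · rw [if_neg (by omega), if_pos (by omega)]
        · rw [if_pos (by omega), if_neg (by omega)]
      · -- z = 2 K and tin = m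
        have e2 : z / 2 = K := by omega
        have e3 : (z / 2 - 1) * m = ((K : ℤ) - 1) * m := by rw [e2]
        have e4 : S.t' z q = K * m := by omega
        rw [e4, if_neg (lt_irrefl ((K : ℤ) * m)), if_pos (show (0 : ℤ) < K * m by omega)]
        rcases htq with h6 | h6
        · rw [if_pos (by omega), if_neg (by omega)]
        · rw [if_neg (by omega), if_pos (by omega)]
      · have := hmono (by omega)
        rw [if_pos (by omega), if_pos (by omega), if_pos (by omega), if_pos (by omega)]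
    omega
  · have h1 := S.ha
    have e : S.sd ((2 : ℤ) / 2) = S := by
      rw [show (2 : ℤ) / 2 = 1 by norm_num]; rfl
    constructor
    · simp only [Fin.cons_zero, Fin.tail_cons]
      refine ⟨h1.1, by omega, by omega, Or.inl ⟨by norm_num, Or.inl ?_⟩⟩
      rw [e, h1.2]
      omega
    · simp only [Fin.cons_zero, Fin.tail_cons]
      unfold Snake.t'
      rw [e, h1.2]
      norm_num
  · have h1 := (S.sd K).hb
    have e : (2 * (K : ℤ)) / 2 = K := by omega
    constructor
    · simp only [Fin.cons_zero, Fin.tail_cons]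
      refine ⟨by have := h1.1; rwa [S.sd_W] at this, by omega, by omega,
        Or.inl ⟨by omega, Or.inl ?_⟩⟩
      rw [e, h1.2]
      omega
    · simp only [Fin.cons_zero, Fin.tail_cons]
      unfold Snake.t'
      rw [e, h1.2]
      have h2 : (2 * (K : ℤ)) % 2 = 0 := by omega
      rw [h2]
      ring
  · intro p hp ht
    obtain ⟨z, q, rfl⟩ : ∃ z q, p = Fin.cons z q := ⟨p 0, Fin.tail p, (Fin.cons_self_tail p).symm⟩
    simp only [Fin.cons_zero, Fin.tail_cons] at hp ht
    have htin := S.tin_range hp.1 (z / 2)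
    obtain ⟨hW, hz2, hzK, h⟩ := hp
    unfold Snake.t' at ht
    have hz : z / 2 = 1 := by
      by_contra hcon
      have h3 : 1 * m ≤ (z / 2 - 1) * m := mul_le_mul_of_nonneg_right (by omega) (by omega)
      omega
    have e : S.sd (z / 2) = S := by rw [hz]; rfl
    rw [e] at ht h
    have e3 : (z / 2 - 1) * m = 0 := by rw [hz]; ring
    rw [e3] at ht
    have hz' : z = 2 := by omega
    have ht' : S.t q = 1 := by omega
    rw [hz', S.una q hW ht']
  · intro p hp ht
    obtain ⟨z, q, rfl⟩ : ∃ z q, p = Fin.cons z q := ⟨p 0, Fin.tail p, (Fin.cons_self_tail p).symm⟩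
    simp only [Fin.cons_zero, Fin.tail_cons] at hp ht
    have htin := S.tin_range hp.1 (z / 2)
    obtain ⟨hW, hz2, hzK, h⟩ := hp
    unfold Snake.t' at ht
    have hK1 : (K : ℤ) * m = ((K : ℤ) - 1) * m + m := by ring
    have hK2 : (K : ℤ) * m = ((K : ℤ) - 2) * m + m + m := by ring
    have hz : z / 2 = K := by
      by_contra hcon
      have h3 : (z / 2 - 1) * m ≤ ((K : ℤ) - 2) * m :=
        mul_le_mul_of_nonneg_right (by omega) (by omega)
      omega
    have e3 : (z / 2 - 1) * m = ((K : ℤ) - 1) * m := by rw [hz]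
    rw [e3] at ht
    have hz' : z = 2 * K := by omega
    have ht' : (S.sd K).t q = m - 1 := by
      rw [← hz]
      omega
    rw [hz', (S.sd K).unb q (by rw [S.sd_W]; exact hW) ht']

theorem exists_snake (n : ℕ) (hn : 3 ≤ n) (k : ℕ) :
    Nonempty (Snake (k + 1) n ((((n - 1) / 2 : ℕ) : ℤ) ^ k * ((n : ℤ) - 1))) := by
  induction k with
  | zero =>
    have := Snake.line n hn
    rw [pow_zero, one_mul]
    exact ⟨this⟩
  | succ k ih =>
    obtain ⟨S⟩ := ih
    have h := S.step ((n - 1) / 2) (by omega) (by omega)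
    have e : (((n - 1) / 2 : ℕ) : ℤ) ^ (k + 1) * ((n : ℤ) - 1) =
        (((n - 1) / 2 : ℕ) : ℤ) * ((((n - 1) / 2 : ℕ) : ℤ) ^ k * ((n : ℤ) - 1)) := by ring
    rw [e]
    exact h

theorem exists_pair_snake (D n : ℕ) (hD : 1 ≤ D) (hn : 3 ≤ n) :
    ∃ X Y : Side D, IsPair n (2 * D - 1)
      ((((n - 1) / 2 : ℕ) : ℤ) ^ (D - 1) * ((n : ℤ) - 1) - 1) X Y := by
  obtain ⟨k, rfl⟩ : ∃ k, D = k + 1 := ⟨D - 1, by omega⟩
  obtain ⟨S⟩ := exists_snake n hn k
  exact ⟨_, _, S.pair⟩

end Pool.Agent.Lib.MP_1a3405_co.Ord
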