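import Mathlib
import Pool.Agent.Lib.MP_1a3405_co.Ord.Auto

/-!
Stacking: from a pair of structures in dimension `d` with threshold `θ` one gets a pair in
dimension `d + 1` with threshold `θ + 1` whose time is `(n-1)/2` times longer.
-/

namespace Pool.Agent.Lib.MP_1a3405_co.Ord

open Pool.Agent.Lib.MP_1a3405_co

variable {d n : ℕ}

/-- the block of the level `z` -/
def blk (n : ℕ) (z : ℤ) : ℤ := min (z / 2) (((n - 1) / 2 : ℕ) : ℤ)

/-- `X` for odd `k`, `Y` for even `k` -/
def pick (X Y : Side d) (k : ℤ) : Side d := if k % 2 = 1 then X else Y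

/-- the stacked structure -/
def stk (n : ℕ) (s : ℤ) (X Y : Side d) : Side (d + 1) where
  T p := p 0 = 1 ∨ (pick X Y (blk n (p 0))).T (Fin.tail p)
  τ p := (blk n (p 0) - 1) * s + (pick X Y (blk n (p 0))).τ (Fin.tail p)
  w := Fin.cons 2 X.w

lemma pick_odd (X Y : Side d) {k : ℤ} (h : k % 2 = 1) : pick X Y k = X := if_pos h

lemma pick_even (X Y : Side d) {k : ℤ} (h : k % 2 = 0) : pick X Y k = Y := if_neg (by omega)

lemma pick_add_two (X Y : Side d) (k : ℤ) : pick X Y (k + 2) = pick X Y k := by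
  rcases Int.emod_two_eq_zero_or_one k with h | h
  · rw [pick_even _ _ h, pick_even _ _ (by omega)]
  · rw [pick_odd _ _ h, pick_odd _ _ (by omega)]

lemma pick_good {θ : ℕ} {s : ℤ} {X Y : Side d} (h : IsPair n θ s X Y) (k : ℤ) :
    Good n θ s (pick X Y k) (pick X Y (k + 1)).w := by
  rcases Int.emod_two_eq_zero_or_one k with hk | hk
  · rw [pick_even _ _ hk, pick_odd _ _ (by omega)]; exact h.2
  · rw [pick_odd _ _ hk, pick_even _ _ (by omega)]; exact h.1

lemma pick_good' {θ : ℕ} {s : ℤ} {X Y : Side d} (h : IsPair n θ s X Y) (k : ℤ) :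
    Good n θ s (pick X Y (k + 1)) (pick X Y k).w := by
  have := pick_good h (k + 1)
  rwa [show k + 1 + 1 = k + 2 by ring, pick_add_two] at this

lemma stk_T (s : ℤ) (X Y : Side d) (z : ℤ) (q : Fin d → ℤ) :
    (stk n s X Y).T (Fin.cons z q) ↔ z = 1 ∨ (pick X Y (blk n z)).T q := by
  simp only [stk, Fin.cons_zero, Fin.tail_cons]

lemma stk_τ (s : ℤ) (X Y : Side d) (z : ℤ) (q : Fin d → ℤ) :
    (stk n s X Y).τ (Fin.cons z q) = (blk n z - 1) * s + (pick X Y (blk n z)).τ q := by
  simp only [stk, Fin.cons_zero, Fin.tail_cons]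

/-- the contribution of the two vertical neighbours -/
lemma stk_vert {θ : ℕ} {s : ℤ} {X Y : Side d} (hn : 3 ≤ n) (h : IsPair n θ s X Y)
    {z : ℤ} {q : Fin d → ℤ} (hz : 2 ≤ z ∧ z ≤ n) (hq : InBox n q)
    (hT : ¬ (pick X Y (blk n z)).T q) :
    (¬ (z + 1 ≤ n ∧ ((stk n s X Y).T (Fin.cons (z + 1) q) ∨
        (stk n s X Y).τ (Fin.cons (z + 1) q) + 2 ≤ (stk n s X Y).τ (Fin.cons z q))) ∨
    ¬ (1 ≤ z - 1 ∧ ((stk n s X Y).T (Fin.cons (z - 1) q) ∨
        (stk n s X Y).τ (Fin.cons (z - 1) q) + 2 ≤ (stk n s X Y).τ (Fin.cons z q)))) ∧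
    (q = (pick X Y (blk n z)).w → z ≠ 2 →
    (¬ (z + 1 ≤ n ∧ ((stk n s X Y).T (Fin.cons (z + 1) q) ∨
        (stk n s X Y).τ (Fin.cons (z + 1) q) + 2 ≤ (stk n s X Y).τ (Fin.cons z q))) ∧
    ¬ (1 ≤ z - 1 ∧ ((stk n s X Y).T (Fin.cons (z - 1) q) ∨
        (stk n s X Y).τ (Fin.cons (z - 1) q) + 2 ≤ (stk n s X Y).τ (Fin.cons z q))))) := by
  simp only [stk_T, stk_τ]
  set k := blk n z with hk
  have hkdef : k = min (z / 2) (((n - 1) / 2 : ℕ) : ℤ) := hk
  have hg := pick_good h k
  have hg' := pick_good' h k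
  have hr := hg.range q hq hT
  by_cases hcase : z % 2 = 0 ∧ z / 2 ≤ (((n - 1) / 2 : ℕ) : ℤ)
  · -- the upper neighbour is in the same block
    have hup : z + 1 ≤ n → blk n (z + 1) = k := by
      intro _
      rw [hkdef, blk]
      omega
    have e1 : ¬ (z + 1 ≤ n ∧ ((z + 1 = 1 ∨ (pick X Y (blk n (z + 1))).T q) ∨
        (blk n (z + 1) - 1) * s + (pick X Y (blk n (z + 1))).τ q + 2 ≤
          (k - 1) * s + (pick X Y k).τ q)) := by
      rintro ⟨h1, h2⟩
      rw [hup h1] at h2
      rcases h2 with (h2 | h2) | h2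
      · omega
      · exact hT h2
      · omega
    refine ⟨Or.inl e1, fun hw1 hw2 => ⟨e1, ?_⟩⟩
    have hdn : blk n (z - 1) = k - 1 := by
      rw [hkdef, blk]
      omega
    rintro ⟨-, h2⟩
    rw [hdn] at h2
    have hgg := pick_good h (k - 1)
    rw [show k - 1 + 1 = k by ring] at hgg
    have h3 := hgg.not_w'
    have h4 := hgg.tau_w'
    rw [← hw1] at h3 h4
    have h5 := hg.tau_w
    rw [← hw1] at h5
    have h6 : (k - 1) * s = (k - 1 - 1) * s + s := by ring
    rcases h2 with (h2 | h2) | h2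
    · omega
    · exact h3 h2
    · omega
  · -- the lower neighbour is in the same block
    have hz2 : z ≠ 2 := by
      intro h2
      apply hcase
      omega
    have hdn : blk n (z - 1) = k := by
      rw [hkdef, blk]
      omega
    have e2 : ¬ (1 ≤ z - 1 ∧ ((z - 1 = 1 ∨ (pick X Y (blk n (z - 1))).T q) ∨
        (blk n (z - 1) - 1) * s + (pick X Y (blk n (z - 1))).τ q + 2 ≤
          (k - 1) * s + (pick X Y k).τ q)) := by
      rintro ⟨-, h2⟩
      rw [hdn] at h2
      rcases h2 with (h2 | h2) | h2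
      · omega
      · exact hT h2
      · omega
    refine ⟨Or.inr e2, fun hw1 hw2 => ⟨?_, e2⟩⟩
    rintro ⟨h1, h2⟩
    have hup : blk n (z + 1) = k + 1 ∨ blk n (z + 1) = k := by
      rw [hkdef, blk]
      omega
    rcases hup with hup | hup
    · rw [hup] at h2
      have h3 := hg'.not_w'
      rw [← hw1] at h3
      have h4 := hg'.range q hq h3
      have h6 : (k + 1 - 1) * s = (k - 1) * s + s := by ring
      rcases h2 with (h2 | h2) | h2
      · omega
      · exact h3 h2
      · omega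
    · rw [hup] at h2
      rcases h2 with (h2 | h2) | h2
      · omega
      · exact hT h2
      · omega

lemma stk_level {s : ℤ} {X Y : Side d} {z : ℤ} (hz : z ≠ 1) (q : Fin d → ℤ) :
    cnt n (fun q' => (stk n s X Y).T (Fin.cons z q') ∨
      (stk n s X Y).τ (Fin.cons z q') + 2 ≤ (stk n s X Y).τ (Fin.cons z q)) q =
    cnt n (fun q' => (pick X Y (blk n z)).T q' ∨
      (pick X Y (blk n z)).τ q' + 2 ≤ (pick X Y (blk n z)).τ q) q := by
  apply cnt_congr
  intro δ _
  rw [stk_T, stk_τ, stk_τ]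
  constructor
  · rintro ((h | h) | h)
    · exact absurd h hz
    · exact Or.inl h
    · right; omega
  · rintro (h | h)
    · exact Or.inl (Or.inr h)
    · right; omega

theorem stk_good {θ : ℕ} {s : ℤ} {X Y : Side d} (hn : 3 ≤ n) (h : IsPair n θ s X Y) :
    Good n (θ + 1) ((((n - 1) / 2 : ℕ) : ℤ) * s) (stk n s X Y)
      (Fin.cons ((n : ℤ) - 1) (pick X Y ((((n - 1) / 2 : ℕ) : ℤ) + 1)).w) := by
  classical
  set N : ℤ := (((n - 1) / 2 : ℕ) : ℤ) with hN
  have hN1 : 1 ≤ N := by omega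
  have hs : 0 ≤ s := by
    have := h.1.range _ h.1.box_w h.1.not_w
    omega
  have hblk : ∀ z : ℤ, 2 ≤ z → z ≤ n → 1 ≤ blk n z ∧ blk n z ≤ N := by
    intro z h1 h2
    rw [blk, ← hN]
    omega
  have hblk2 : blk n 2 = 1 := by
    rw [blk, ← hN]; omega
  have hblkn : blk n ((n : ℤ) - 1) = N := by
    rw [blk, ← hN]; omega
  have hX : pick X Y 1 = X := pick_odd _ _ rfl
  refine ⟨?_, ?_, ?_, ?_, ?_, ?_, ?_, ?_, ?_, ?_⟩
  · rw [stk, inBox_cons]
    exact ⟨by omega, h.1.box_w⟩
  · change ¬ (stk n s X Y).T (Fin.cons 2 X.w)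
    rw [stk_T, hblk2, hX]
    rintro (h1 | h1)
    · omega
    · exact h.1.not_w h1
  · change (stk n s X Y).τ (Fin.cons 2 X.w) = 1
    rw [stk_τ, hblk2, hX, h.1.tau_w]
    ring
  · rw [inBox_cons]
    exact ⟨by omega, (pick_good' h N).box_w⟩
  · rw [stk_T, hblkn]
    rintro (h1 | h1)
    · omega
    · exact (pick_good h N).not_w' h1
  · rw [stk_τ, hblkn]
    have h1 := (pick_good h N).tau_w'
    have h2 : N * s = (N - 1) * s + s := by ring
    omega
  · intro p hp hT
    obtain ⟨z, q, rfl⟩ : ∃ z q, p = Fin.cons z q := ⟨p 0, Fin.tail p, (Fin.cons_self_tail p).symm⟩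
    rw [inBox_cons] at hp
    rw [stk_T] at hT
    push Not at hT
    rw [stk_τ]
    have hb := hblk z (by omega) hp.1.2
    have hr := (pick_good h (blk n z)).range q hp.2 hT.2
    have h1 : 0 ≤ (blk n z - 1) * s := mul_nonneg (by omega) hs
    have h2 : (blk n z - 1) * s ≤ (N - 1) * s := mul_le_mul_of_nonneg_right (by omega) hs
    have h3 : N * s = (N - 1) * s + s := by ring
    constructor <;> omega
  · intro p hp hT hne
    obtain ⟨z, q, rfl⟩ : ∃ z q, p = Fin.cons z q := ⟨p 0, Fin.tail p, (Fin.cons_self_tail p).symm⟩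
    rw [inBox_cons] at hp
    have hT' := hT
    rw [stk_T] at hT'
    push Not at hT'
    have hv := stk_vert hn h (z := z) (q := q) ⟨by omega, hp.1.2⟩ hp.2 hT'.2
    have hl := stk_level (n := n) (s := s) (X := X) (Y := Y) hT'.1 q
    rw [cnt_cons hp.1 hp.2, hl]
    by_cases hq : q = (pick X Y (blk n z)).w
    · have hz2 : z ≠ 2 := by
        intro hz
        apply hne
        subst hz
        rw [hblk2, hX] at hq
        rw [hq]; rfl
      have hv2 := hv.2 hq hz2
      rw [if_neg hv2.1, if_neg hv2.2]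
      have h1 := (pick_good h (blk n z)).star_w
      rw [← hq] at h1
      omega
    · have h1 := (pick_good h (blk n z)).star q hp.2 hT'.2 hq
      rcases hv.1 with hv1 | hv1
      · rw [if_neg hv1]
        split_ifs <;> omega
      · rw [if_neg hv1]
        split_ifs <;> omega
  · change cnt n _ (Fin.cons 2 X.w) ≤ θ + 1
    have hT2 : ¬ (pick X Y (blk n 2)).T X.w := by rw [hblk2, hX]; exact h.1.not_w
    have hv := stk_vert hn h (z := 2) (q := X.w) ⟨by omega, by omega⟩ h.1.box_w hT2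
    have hl := stk_level (n := n) (s := s) (X := X) (Y := Y) (z := 2) (by omega) X.w
    have e : (stk n s X Y).w = Fin.cons 2 X.w := rfl
    rw [e, cnt_cons (by omega) h.1.box_w, hl]
    have h1 := h.1.star_w
    rw [hblk2, hX]
    rcases hv.1 with hv1 | hv1
    · rw [if_neg hv1]
      split_ifs <;> omega
    · rw [if_neg hv1]
      split_ifs <;> omega
  · intro U hU
    have key : ∀ m : ℕ, ∀ z : ℤ, z = m + 1 → z ≤ n → ∀ q, ¬ U (Fin.cons z q) := by
      intro m
      induction m with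
      | zero =>
        intro z hz _ q hUq
        have := (hU _ hUq).2.1
        rw [stk_T] at this
        apply this
        left; simpa using hz
      | succ m ih =>
        intro z hz hzn
        have ih' := ih (z - 1) (by push_cast at hz; omega) (by omega)
        have hz2 : 2 ≤ z := by push_cast at hz; omega
        have := (pick_good h (blk n z)).perc (fun q => U (Fin.cons z q)) ?_
        · exact this
        · intro q hUq
          obtain ⟨h1, h2, h3⟩ := hU _ hUq
          rw [inBox_cons] at h1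
          rw [stk_T] at h2
          push Not at h2
          refine ⟨h1.2, h2.2, ?_⟩
          rw [cnt_cons h1.1 h1.2, if_pos (show 1 ≤ z - 1 ∧ ¬ U (Fin.cons (z - 1) q) from
            ⟨by omega, ih' q⟩)] at h3
          omega
    intro p hUp
    obtain ⟨z, q, rfl⟩ : ∃ z q, p = Fin.cons z q := ⟨p 0, Fin.tail p, (Fin.cons_self_tail p).symm⟩
    have h1 := (hU _ hUp).1
    rw [inBox_cons] at h1
    exact key (z - 1).toNat z (by omega) h1.1.2 q hUp

theorem IsPair.stack {θ : ℕ} {s : ℤ} {X Y : Side d} (hn : 3 ≤ n) (h : IsPair n θ s X Y) :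
    ∃ X' Y' : Side (d + 1), IsPair n (θ + 1) ((((n - 1) / 2 : ℕ) : ℤ) * s) X' Y' := by
  set N : ℤ := (((n - 1) / 2 : ℕ) : ℤ) with hN
  set A := pick X Y (N + 1) with hA
  set B := pick X Y N with hB
  have hAB : IsPair n θ s A B := ⟨pick_good' h N, pick_good h N⟩
  have hBX : pick A B (N + 1) = X := by
    rcases Int.emod_two_eq_zero_or_one N with hk | hk
    · rw [pick_odd _ _ (by omega), hA, pick_odd _ _ (by omega)]
    · rw [pick_even _ _ (by omega), hB, pick_odd _ _ hk]
  have h1 := stk_good hn h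
  have h2 := (stk_good hn hAB).map (refl0 n) refl0_refl0 inBox_refl0
    (fun Q p _ => cnt_refl0 Q p)
  rw [← hN] at h1 h2
  rw [hBX] at h2
  have e1 : refl0 n (Fin.cons ((n : ℤ) - 1) X.w : Fin (d + 1) → ℤ) = (stk n s X Y).w := by
    simp only [refl0, Fin.cons_zero, Fin.tail_cons, stk]
    rw [show (n : ℤ) + 1 - ((n : ℤ) - 1) = 2 by ring]
  have e2 : ((stk n s A B).map (refl0 n)).w = Fin.cons ((n : ℤ) - 1) A.w := by
    simp only [refl0, Fin.cons_zero, Fin.tail_cons, stk, Side.map]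
    rw [show (n : ℤ) + 1 - 2 = (n : ℤ) - 1 by ring]
  refine ⟨stk n s X Y, (stk n s A B).map (refl0 n), ?_, ?_⟩
  · rw [e2]; exact h1
  · rw [← e1]; exact h2

end Pool.Agent.Lib.MP_1a3405_co.Ord
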