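import Mathlib
import Pool.Agent.Lib.MP_1a3405_co.Ord.FPair
import Pool.Agent.Lib.MP_1a3405_co.Ord.Cert
import Pool.Agent.Lib.MP_1a3405_co.Ord.Stack
import Pool.Agent.Lib.MP_1a3405_co.Ord.SnakeStep

/-!
The order of magnitude of `M([n]^d, r)` for `3 ≤ r ≤ 2d - 1`.
-/

namespace Pool.Agent.Lib.MP_1a3405_co.Ord

open Pool.Agent.Lib.MP_1a3405_co

variable {d n : ℕ}

/-- iterating the stack operation -/
theorem IsPair.iterate {θ : ℕ} {s : ℤ} {X Y : Side d} (hn : 3 ≤ n) (h : IsPair n θ s X Y)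
    (k : ℕ) : ∃ X' Y' : Side (d + k),
      IsPair n (θ + k) ((((n - 1) / 2 : ℕ) : ℤ) ^ k * s) X' Y' := by
  induction k with
  | zero => exact ⟨X, Y, by simpa using h⟩
  | succ k ih =>
    obtain ⟨X', Y', h'⟩ := ih
    obtain ⟨X'', Y'', h''⟩ := h'.stack hn
    refine ⟨X'', Y'', ?_⟩
    have e : (((n - 1) / 2 : ℕ) : ℤ) ^ (k + 1) * s =
        (((n - 1) / 2 : ℕ) : ℤ) * ((((n - 1) / 2 : ℕ) : ℤ) ^ k * s) := by ring
    rw [e]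
    exact h''

/-- a real lower bound for the number of blocks -/
lemma half_ge {n : ℕ} (hn : 3 ≤ n) : (n : ℝ) / 6 ≤ (((n - 1) / 2 : ℕ) : ℝ) := by
  have h1 : n ≤ 6 * ((n - 1) / 2) := by omega
  have h2 : (n : ℝ) ≤ 6 * (((n - 1) / 2 : ℕ) : ℝ) := by exact_mod_cast h1
  linarith

theorem lower_ge (D k n : ℕ) (hD : 1 ≤ D) (hn : 3 ≤ n) :
    (1 / 6 : ℝ) ^ (D + k) * (n : ℝ) ^ (D + k) ≤
      (maxPercTime (grid (D + k) n) (2 * D - 1 + k) : ℝ) := by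
  obtain ⟨X, Y, h⟩ := exists_pair_snake D n hD hn
  obtain ⟨X', Y', h'⟩ := h.iterate hn k
  have h1 := h'.1.le_max
  have hK := half_ge hn
  set K : ℕ := (n - 1) / 2 with hKdef
  have h2 : ((K : ℤ) ^ k * ((K : ℤ) ^ (D - 1) * ((n : ℤ) - 1) - 1) : ℝ) ≤
      (maxPercTime (grid (D + k) n) (2 * D - 1 + k) : ℝ) := by exact_mod_cast h1
  refine le_trans ?_ h2
  have hn0 : (3 : ℝ) ≤ n := by exact_mod_cast hn
  have hx : (0 : ℝ) ≤ (n : ℝ) / 6 := by positivity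
  have hK1 : (1 : ℝ) ≤ (K : ℝ) := by
    have : 1 ≤ K := by omega
    exact_mod_cast this
  have hKD : (1 : ℝ) ≤ (K : ℝ) ^ (D - 1) := one_le_pow₀ hK1
  have e1 : (1 / 6 : ℝ) ^ (D + k) * (n : ℝ) ^ (D + k) =
      ((n : ℝ) / 6) ^ k * (((n : ℝ) / 6) ^ (D - 1) * ((n : ℝ) / 6)) := by
    rw [← mul_pow, show (1 / 6 : ℝ) * n = (n : ℝ) / 6 by ring, ← pow_succ, ← pow_add]
    congr 1
    omega
  rw [e1]
  push_cast
  apply mul_le_mul (pow_le_pow_left₀ hx hK k) _ (by positivity) (by positivity)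
  have e2 : (K : ℝ) ^ (D - 1) * ((n : ℝ) - 1) - 1 ≥ (K : ℝ) ^ (D - 1) * ((n : ℝ) / 6) := by
    nlinarith
  refine le_trans ?_ e2
  exact mul_le_mul_of_nonneg_right (pow_le_pow_left₀ hx hK (D - 1)) hx

theorem lower_lt (g k n : ℕ) (hn : 12 ≤ n) :
    (1 / 24 : ℝ) ^ (g + 4 + k) * (n : ℝ) ^ (g + 4 + k) ≤
      (maxPercTime (grid (g + 4 + k) n) (3 + k) : ℝ) := by
  obtain ⟨X, Y, h⟩ := exists_pair_base g n hn
  obtain ⟨X', Y', h'⟩ := h.iterate (by omega) k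
  have h1 := h'.1.le_max
  have hK := half_ge (n := n) (by omega)
  set K : ℕ := (n - 1) / 2 with hKdef
  set M : ℕ := 2 * ((n + 2) / 6) with hM
  set J : ℕ := 2 * ((n - 4) / 4) with hJ
  have h2 : ((K : ℤ) ^ k * (((M : ℤ) ^ (g + 2) - 1) * ((J : ℤ) * ((n : ℤ) - 1) + 3) - 1) : ℝ) ≤
      (maxPercTime (grid (g + 4 + k) n) (3 + k) : ℝ) := by exact_mod_cast h1
  refine le_trans ?_ h2
  push_cast
  have hn0 : (12 : ℝ) ≤ n := by exact_mod_cast hn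
  have hx : (0 : ℝ) ≤ (n : ℝ) / 6 := by positivity
  have hM1 : (n : ℝ) / 6 ≤ (M : ℝ) := by
    have : n ≤ 6 * M := by omega
    have : (n : ℝ) ≤ 6 * (M : ℝ) := by exact_mod_cast this
    linarith
  have hM2 : (2 : ℝ) ≤ (M : ℝ) := by
    have : 2 ≤ M := by omega
    exact_mod_cast this
  have hJ1 : (n : ℝ) / 6 ≤ (J : ℝ) := by
    have : n ≤ 6 * J := by omega
    have : (n : ℝ) ≤ 6 * (J : ℝ) := by exact_mod_cast this
    linarith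
  have hMp : (2 : ℝ) ≤ (M : ℝ) ^ (g + 2) := by
    calc (2 : ℝ) ≤ (M : ℝ) := hM2
      _ ≤ (M : ℝ) ^ (g + 2) := le_self_pow₀ (by linarith) (by omega)
  have hJ0 : (0 : ℝ) ≤ (J : ℝ) := by positivity
  have e1 : (1 / 24 : ℝ) ^ (g + 4 + k) * (n : ℝ) ^ (g + 4 + k) ≤
      ((n : ℝ) / 6) ^ k * (1 / 4 * (((n : ℝ) / 6) ^ (g + 2) * ((n : ℝ) / 6 * n))) := by
    have e3 : (1 / 24 : ℝ) ^ (g + 4 + k) * (n : ℝ) ^ (g + 4 + k) =
        (1 / 4) ^ (g + 4 + k) * (((n : ℝ) / 6) ^ k * (((n : ℝ) / 6) ^ (g + 2) *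
          ((n : ℝ) / 6 * ((n : ℝ) / 6)))) := by
      have e4 : ((n : ℝ) / 6) ^ k * (((n : ℝ) / 6) ^ (g + 2) * ((n : ℝ) / 6 * ((n : ℝ) / 6))) =
          ((n : ℝ) / 6) ^ (g + 4 + k) := by ring
      rw [e4, ← mul_pow, ← mul_pow]
      congr 1
      ring
    rw [e3]
    have e5 : ((1 : ℝ) / 4) ^ (g + 4 + k) ≤ 1 / 4 := by
      calc ((1 : ℝ) / 4) ^ (g + 4 + k) ≤ (1 / 4) ^ 1 :=
            pow_le_pow_of_le_one (by norm_num) (by norm_num) (by omega)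
        _ = 1 / 4 := by norm_num
    have e6 : ((n : ℝ) / 6) ^ k * (((n : ℝ) / 6) ^ (g + 2) * ((n : ℝ) / 6 * ((n : ℝ) / 6))) ≤
        ((n : ℝ) / 6) ^ k * (((n : ℝ) / 6) ^ (g + 2) * ((n : ℝ) / 6 * n)) := by
      gcongr
      linarith
    calc _ ≤ 1 / 4 * (((n : ℝ) / 6) ^ k * (((n : ℝ) / 6) ^ (g + 2) * ((n : ℝ) / 6 * n))) :=
          mul_le_mul e5 e6 (by positivity) (by norm_num)
      _ = _ := by ring
  refine le_trans e1 ?_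
  apply mul_le_mul (pow_le_pow_left₀ hx hK k) _ (by positivity) (by positivity)
  have hJn : (0 : ℝ) ≤ (J : ℝ) * n := by positivity
  have e7 : (M : ℝ) ^ (g + 2) / 2 ≤ (M : ℝ) ^ (g + 2) - 1 := by linarith
  have e8 : (J : ℝ) * n / 2 ≤ (J : ℝ) * ((n : ℝ) - 1) := by nlinarith
  have e9 : 1 / 4 * ((M : ℝ) ^ (g + 2) * ((J : ℝ) * n)) ≤
      ((M : ℝ) ^ (g + 2) - 1) * ((J : ℝ) * ((n : ℝ) - 1)) := by
    calc 1 / 4 * ((M : ℝ) ^ (g + 2) * ((J : ℝ) * n)) =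
        (M : ℝ) ^ (g + 2) / 2 * ((J : ℝ) * n / 2) := by ring
      _ ≤ _ := mul_le_mul e7 e8 (by positivity) (by linarith)
  have e10 : ((n : ℝ) / 6) ^ (g + 2) * ((n : ℝ) / 6 * n) ≤ (M : ℝ) ^ (g + 2) * ((J : ℝ) * n) := by
    gcongr
  have e11 : ((M : ℝ) ^ (g + 2) - 1) * ((J : ℝ) * ((n : ℝ) - 1)) ≤
      ((M : ℝ) ^ (g + 2) - 1) * ((J : ℝ) * ((n : ℝ) - 1) + 3) - 1 := by
    nlinarith
  linarith

theorem lower (d r : ℕ) (hr : 3 ≤ r) (hr2 : r + 1 ≤ 2 * d) :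
    ∃ c : ℝ, 0 < c ∧ ∃ n₀ : ℕ, ∀ n ≥ n₀,
      c * (n : ℝ) ^ d ≤ (maxPercTime (grid d n) r : ℝ) := by
  by_cases h : d ≤ r
  · obtain ⟨D, k, hD, rfl, rfl⟩ : ∃ D k, 1 ≤ D ∧ d = D + k ∧ r = 2 * D - 1 + k :=
      ⟨r - d + 1, 2 * d - r - 1, by omega, by omega, by omega⟩
    exact ⟨(1 / 6) ^ (D + k), by positivity, 3, fun n hn => lower_ge D k n hD hn⟩
  · obtain ⟨g, k, rfl, rfl⟩ : ∃ g k, d = g + 4 + k ∧ r = 3 + k :=
      ⟨d - r - 1, r - 3, by omega, by omega⟩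
    exact ⟨(1 / 24) ^ (g + 4 + k), by positivity, 12, fun n hn => lower_lt g k n hn⟩

theorem upper (d n r : ℕ) : maxPercTime (grid d n) r ≤ n ^ d := by
  classical
  obtain ⟨⟨A₀, hA, hT⟩, -⟩ := isGreatest_maxPercTime (G := grid d n) (r := r)
  rw [← hT]
  refine le_trans (percTime_le_card hA) ?_
  refine le_trans (Finset.card_le_univ _) ?_
  rw [Fintype.card_fun, Fintype.card_fin, Fintype.card_fin]

end Pool.Agent.Lib.MP_1a3405_co.Ord
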